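import Pool.Agent.NHT.T3
import Pool.Agent.NHR.Defs
import Pool.Agent.NHQ.KerD

/-!
# NHT/T1G: T1 and T3 in the language of block R (`GHom`, `Hmt`)
-/

namespace Pool.Agent.NHT

open Set CategoryTheory unitInterval Topology Filter
open scoped Manifold ContDiff
open Pool.Agent.RSG (E3 ex Thick)
open Pool.Agent.NHP (core Rep)
open Pool.Agent.NHQ (PC cc exists_PC Gen2)
open Pool.Agent.NHR

universe u v

section

variable {N : Type u} [TopologicalSpace N] {Y : Set N} {Γ : Type v} [Group Γ]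

theorem pr0 : projIcc (0 : ℝ) 1 zero_le_one 0 = (0 : I) := by rw [projIcc_left]; rfl

theorem pr1 : projIcc (0 : ℝ) 1 zero_le_one 1 = (1 : I) := by rw [projIcc_right]; rfl

/-- the function of a path of the subtype -/
noncomputable def fn {x y : Y} (s : Path x y) : ℝ → N := fun t => (s (projIcc 0 1 zero_le_one t) : N)

theorem fn_pathOn {x y : Y} (s : Path x y) : PathOn Y (fn s) :=
  ⟨(continuous_subtype_val.comp (s.continuous.comp continuous_projIcc)).continuousOn, fun _ _ => (s _).2⟩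

theorem fn_zero {x y : Y} (s : Path x y) : fn s 0 = x := by
  change ((s (projIcc 0 1 zero_le_one 0) : Y) : N) = x
  rw [pr0, s.source]

theorem fn_one {x y : Y} (s : Path x y) : fn s 1 = y := by
  change ((s (projIcc 0 1 zero_le_one 1) : Y) : N) = y
  rw [pr1, s.target]

theorem fn_coe {x y : Y} (s : Path x y) (t : I) : fn s t = s t := by
  change ((s (projIcc 0 1 zero_le_one (t : ℝ)) : Y) : N) = s t
  rw [projIcc_val]

theorem hmt_of_eqOn {f g : ℝ → N} (hf : PathOn Y f) (h : ∀ t ∈ Icc (0 : ℝ) 1, f t = g t) : Hmt Y f g :=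
  ⟨fun q => f q.2, hf.1.comp continuousOn_snd (fun _ hq => hq.2), fun _ hq => hf.2 _ hq.2, fun t ht => ⟨rfl, h t ht⟩,
    fun _ _ => ⟨rfl, rfl⟩⟩

theorem hmt_of_homotopic {x y : Y} {s s' : Path x y} (h : s.Homotopic s') : Hmt Y (fn s) (fn s') := by
  obtain ⟨F⟩ := h
  refine ⟨fun q => (F (projIcc 0 1 zero_le_one q.1, projIcc 0 1 zero_le_one q.2) : N), ?_, fun _ _ => (F _).2,
    fun t ht => ⟨?_, ?_⟩, fun t ht => ⟨?_, ?_⟩⟩
  · apply Continuous.continuousOn
    exact continuous_subtype_val.comp (F.continuous.comp ((continuous_projIcc.comp continuous_fst).prodMk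
      (continuous_projIcc.comp continuous_snd)))
  · change ((F (projIcc 0 1 zero_le_one 0, projIcc 0 1 zero_le_one t) : Y) : N) = _
    rw [pr0, F.apply_zero]; rfl
  · change ((F (projIcc 0 1 zero_le_one 1, projIcc 0 1 zero_le_one t) : Y) : N) = _
    rw [pr1, F.apply_one]; rfl
  · change ((F (projIcc 0 1 zero_le_one t, projIcc 0 1 zero_le_one 0) : Y) : N) = _
    rw [pr0, fn_zero, Path.Homotopy.source]
  · change ((F (projIcc 0 1 zero_le_one t, projIcc 0 1 zero_le_one 1) : Y) : N) = _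
    rw [pr1, fn_one, Path.Homotopy.target]

/-- paths with homotopic functions -/
theorem homotopic_of_hmt {x y : N} {s s' : Path x y} {f g : ℝ → N} (h : Hmt univ f g) (hf : ∀ t : I, s t = f t)
    (hg : ∀ t : I, s' t = g t) : s.Homotopic s' := by
  obtain ⟨H, h1, -, h3, h4⟩ := h
  have h0 : f 0 = x := by have := hf 0; rw [s.source] at this; exact this.symm
  have h1' : f 1 = y := by have := hf 1; rw [s.target] at this; exact this.symm
  have e1 : PC f (cl s) := ⟨s, hf, rfl⟩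
  have e2 : PC g (cl s') := ⟨s', hg, rfl⟩
  have e3 := PC.homotopic h1 (fun t ht => (h3 t ht).1) (fun t ht => (h3 t ht).2) (fun s hs => (h4 s hs).1.trans h0)
    (fun s hs => (h4 s hs).2.trans h1') e1
  exact cl_exact (e3.unique e2)

variable (G : GHom Y Γ)

/-- the value of a path of the subtype -/
noncomputable def pv {x y : Y} (s : Path x y) : Γ := G.val (fn s)

theorem pv_trans {x y z : Y} (s : Path x y) (s' : Path y z) : pv G (s.trans s') = pv G s * pv G s' := by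
  unfold pv
  rw [← G.ct _ _ (fn_pathOn s) (fn_pathOn s') (by rw [fn_one, fn_zero])]
  apply G.hmt
  refine hmt_of_eqOn (fn_pathOn _) (fun t ht => ?_)
  have h1 := fn_coe (s.trans s') ⟨t, ht⟩
  change fn (s.trans s') t = _ at h1
  rw [h1, Path.trans_apply]
  unfold cat
  split_ifs with h2
  · exact (fn_coe s ⟨2 * t, _⟩).symm
  · exact (fn_coe s' ⟨2 * t - 1, _⟩).symm

theorem pv_eq {x y : Y} {s s' : Path x y} (h : s.Homotopic s') : pv G s = pv G s' := G.hmt _ _ (hmt_of_homotopic h)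

/-- the value of an arrow -/
noncomputable def av (x y : Y) (α : FundamentalGroupoid.mk x ⟶ FundamentalGroupoid.mk y) : Γ :=
  Quotient.lift (fun s : Path x y => pv G s) (fun _ _ h => pv_eq G h) α

theorem av_cl {x y : Y} (s : Path x y) : av G x y (cl s) = pv G s := rfl

theorem av_comp (x y z : Y) (α : FundamentalGroupoid.mk x ⟶ FundamentalGroupoid.mk y)
    (β : FundamentalGroupoid.mk y ⟶ FundamentalGroupoid.mk z) : av G x z (α ≫ β) = av G x y α * av G y z β := by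
  obtain ⟨s, rfl⟩ := cl_surj α
  obtain ⟨s', rfl⟩ := cl_surj β
  rw [← cl_trans, av_cl, av_cl, av_cl, pv_trans]

theorem av_PC {x y : Y} {f : ℝ → N} {g : ℝ → Y} (hg : ∀ t ∈ Icc (0 : ℝ) 1, (g t : N) = f t)
    {α : FundamentalGroupoid.mk x ⟶ FundamentalGroupoid.mk y} (h : PC g α) : av G x y α = G.val f := by
  obtain ⟨s, hs, rfl⟩ := h
  change pv G s = _
  apply G.hmt
  refine hmt_of_eqOn (fn_pathOn _) (fun t ht => ?_)
  have h1 := fn_coe s ⟨t, ht⟩
  change fn s t = _ at h1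
  rw [h1, hs]
  exact hg t ht

end

section

variable {N : Type u} [TopologicalSpace N] [ChartedSpace E3 N] {κ : ℝ × ℂ → N} {Γ : Type v} [Group Γ]
  [T2Space N]

omit [T2Space N] in
/-- the value of the meridian at `κ (p, ρ)` -/
theorem av_mer (hκ : Thick κ) {p ρ : ℝ} (h0 : 0 < ρ) (h1 : ρ < 1) (G : GHom (core κ)ᶜ Γ) {x y : ((core κ)ᶜ : Set N)}
    {μ : FundamentalGroupoid.mk x ⟶ FundamentalGroupoid.mk y}
    (hμ : PC (fun t => pt hκ ((p, ((Real.log ρ : ℝ) : ℂ)) + t • lat 0 1)) μ) : av G x y μ = G.val (mer κ p ρ) := by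
  have hm : ∀ t : ℝ, (pt hκ ((p, ((Real.log ρ : ℝ) : ℂ)) + t • lat 0 1) : N) = mer κ p ρ t := by
    intro t
    rw [pt_coe hκ (lat_mem (pt_real hκ h0 h1).1 0 1 t)]
    change κ (p + t • ((0 : ℤ) : ℝ), Complex.exp (((Real.log ρ : ℝ) : ℂ) + t • (2 * Real.pi * (1 : ℤ) * Complex.I))) = _
    rw [exp_lat h0]
    unfold mer
    simp
  exact av_PC G (fun t _ => hm t) hμ

/-- the complement of the knot is path connected -/
theorem pcn [ConnectedSpace N] (hκ : Thick κ) : IsPathConnected (core κ)ᶜ := by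
  have _ : LocallyPathConnectedSpace N := ChartedSpace.locallyPathConnectedSpace E3 N
  have _ : PathConnectedSpace N := pathConnectedSpace_iff_connectedSpace.2 inferInstance
  have h1 := (pt_real hκ (p := 0) (ρ := 1 / 2) (by norm_num) (by norm_num))
  refine ⟨_, (pt hκ (0, ((Real.log (1 / 2) : ℝ) : ℂ))).2, fun {y} hy => ?_⟩
  obtain ⟨s⟩ := compl_path hκ (pt hκ (0, ((Real.log (1 / 2) : ℝ) : ℂ))) ⟨y, hy⟩
  exact ⟨s.map continuous_subtype_val, fun t => (s t).2⟩

/-- **T1a.** -/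
theorem T1a (hκ : Thick κ) {p ρ : ℝ} (h0 : 0 < ρ) (h1 : ρ < 1) (G : GHom (core κ)ᶜ Γ) {f g : ℝ → N}
    (hf : PathOn (core κ)ᶜ f) (hg : PathOn (core κ)ᶜ g) (h : Hmt univ f g) :
    G.val f * (G.val g)⁻¹ ∈ Subgroup.normalClosure {G.val (mer κ p ρ)} := by
  have e0 : f 0 = g 0 := by
    obtain ⟨H, -, -, h3, h4⟩ := h
    rw [← (h3 0 ⟨le_rfl, zero_le_one⟩).2, (h4 1 ⟨zero_le_one, le_rfl⟩).1]
  have e1 : f 1 = g 1 := by
    obtain ⟨H, -, -, h3, h4⟩ := h
    rw [← (h3 1 ⟨zero_le_one, le_rfl⟩).2, (h4 1 ⟨zero_le_one, le_rfl⟩).2]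
  let x : ((core κ)ᶜ : Set N) := ⟨f 0, hf.2 0 ⟨le_rfl, zero_le_one⟩⟩
  let y : ((core κ)ᶜ : Set N) := ⟨f 1, hf.2 1 ⟨zero_le_one, le_rfl⟩⟩
  have hpath : ∀ k : ℝ → N, PathOn (core κ)ᶜ k → k 0 = f 0 → k 1 = f 1 →
      ∃ s : Path x y, ∀ t : I, (s t : N) = k t := by
    intro k hk k0 k1
    refine ⟨⟨⟨fun t : I => ⟨k t, hk.2 t t.2⟩, ?_⟩, ?_, ?_⟩, fun t => rfl⟩
    · exact (continuousOn_iff_continuous_domRestrict.1 hk.1).subtype_mk _
    · apply Subtype.ext
      change k ((0 : I) : ℝ) = f 0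
      rw [Icc.coe_zero, k0]
    · apply Subtype.ext
      change k ((1 : I) : ℝ) = f 1
      rw [Icc.coe_one, k1]
  obtain ⟨s, hs⟩ := hpath f hf rfl rfl
  obtain ⟨s', hs'⟩ := hpath g hg e0.symm e1.symm
  have hval : ∀ (k : ℝ → N) (s : Path x y), (∀ t : I, (s t : N) = k t) → pv G s = G.val k := by
    intro k s hk
    apply G.hmt
    refine hmt_of_eqOn (fn_pathOn _) (fun t ht => ?_)
    have h2 := fn_coe s ⟨t, ht⟩
    change fn s t = _ at h2
    rw [h2, hk]
  have hM : (Subgroup.normalClosure {G.val (mer κ p ρ)}).Normal := Subgroup.normalClosure_normal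
  let q : ∀ x y : ((core κ)ᶜ : Set N), (FundamentalGroupoid.mk x ⟶ FundamentalGroupoid.mk y) →
      Γ ⧸ (Subgroup.normalClosure {G.val (mer κ p ρ)}) := fun x y α => QuotientGroup.mk' _ (av G x y α)
  have hq : ∀ x y z α β, q x z (α ≫ β) = q x y α * q y z β := by
    intro x y z α β
    change QuotientGroup.mk' _ (av G x z (α ≫ β)) = QuotientGroup.mk' _ (av G x y α) * QuotientGroup.mk' _ (av G y z β)
    rw [av_comp, map_mul]
  obtain ⟨μ, hμ⟩ := exists_loop hκ (pt_real hκ (p := p) h0 h1).1 0 1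
  have hqm : q _ _ μ = 1 := by
    change QuotientGroup.mk' _ (av G _ _ μ) = 1
    rw [av_mer hκ h0 h1 G hμ, QuotientGroup.mk'_apply, QuotientGroup.eq_one_iff]
    exact Subgroup.subset_normalClosure rfl
  have h2 := q_eq_of_homotopic hq (base_N hκ hq (pt_real hκ h0 h1).1 hμ hqm) s s'
    (homotopic_of_hmt (s := incl s) (s' := incl s') h hs hs')
  change QuotientGroup.mk' _ (pv G s) = QuotientGroup.mk' _ (pv G s') at h2
  rw [hval f s hs, hval g s' hs', ← mul_inv_eq_one, ← map_inv, ← map_mul, QuotientGroup.mk'_apply,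
    QuotientGroup.eq_one_iff] at h2
  exact h2

/-- **T1c.** -/
theorem T1c [PathConnectedSpace N] (hκ : Thick κ) {p ρ : ℝ} (h0 : 0 < ρ) (h1 : ρ < 1) (G : GHom (core κ)ᶜ Γ) (hG : Full G)
    {x : N} {o : FundamentalGroupoid.mk x ⟶ FundamentalGroupoid.mk x} (ho : PC (fun l => κ (l, 0)) o) (hg : Gen2 o) :
    Subgroup.closure ({y : Γ | ∃ z, y = z * z} ∪ {G.val (fun t => κ (p + t, ρ))} ∪
      (Subgroup.normalClosure {G.val (mer κ p ρ)} : Set Γ)) = ⊤ := by
  obtain ⟨o', ho', rfl⟩ := ho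
  obtain ⟨μ, hμ⟩ := exists_loop hκ (pt_real hκ (p := p) h0 h1).1 0 1
  obtain ⟨ν, hν⟩ := exists_loop hκ (pt_real hκ (p := p) h0 h1).1 1 0
  obtain ⟨μ', hμ', -⟩ := hμ
  obtain ⟨ν', hν', -⟩ := hν
  let r : ((core κ)ᶜ : Set N) := pt hκ (p, ((Real.log ρ : ℝ) : ℂ))
  have hm : ∀ t : ℝ, (pt hκ ((p, ((Real.log ρ : ℝ) : ℂ)) + t • lat 0 1) : N) = κ (p, ρ * ex t) := by
    intro t
    rw [pt_coe hκ (lat_mem (pt_real hκ h0 h1).1 0 1 t)]
    change κ (p + t • ((0 : ℤ) : ℝ), Complex.exp (((Real.log ρ : ℝ) : ℂ) + t • (2 * Real.pi * (1 : ℤ) * Complex.I))) = _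
    rw [exp_lat h0]
    simp
  have hl : ∀ t : ℝ, (pt hκ ((p, ((Real.log ρ : ℝ) : ℂ)) + t • lat 1 0) : N) = κ (p + t, ρ) := by
    intro t
    rw [pt_coe hκ (lat_mem (pt_real hκ h0 h1).1 1 0 t)]
    change κ (p + t • ((1 : ℤ) : ℝ), Complex.exp (((Real.log ρ : ℝ) : ℂ) + t • (2 * Real.pi * (0 : ℤ) * Complex.I))) = _
    rw [exp_lat h0]
    simp [ex_zero]
  have hμR : Rep (fun t => κ (p, ρ * ex t)) μ' := ⟨μ', fun t => by rw [hμ', hm], Path.Homotopic.refl _⟩
  have hνR : Rep (fun t => κ (p + t, ρ)) ν' := ⟨ν', fun t => by rw [hν', hl], Path.Homotopic.refl _⟩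
  have hgen := gen_compl hκ h0 h1 hμR hνR ho' hg
  -- the homomorphism
  let e : FundamentalGroup ((core κ)ᶜ : Set N) r →* Γ :=
    { toFun := fun a => (av G r r a)⁻¹
      map_one' := by
        have h2 := av_comp G r r r (𝟙 _) (𝟙 _)
        rw [Category.id_comp] at h2
        have h3 : av G r r (𝟙 _) = 1 := mul_eq_left.1 h2.symm
        change (av G r r (𝟙 _))⁻¹ = 1
        rw [h3, inv_one]
      map_mul' := by
        intro a b
        change (av G r r (b ≫ a))⁻¹ = (av G r r a)⁻¹ * (av G r r b)⁻¹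
        rw [av_comp, mul_inv_rev] }
  have hes : Function.Surjective e := by
    intro c
    obtain ⟨f, hf, hf0, hf1, hfc⟩ := hG.sur r r.2 r r.2 c⁻¹
    have hpath : ∃ s : Path r r, ∀ t : I, (s t : N) = f t := by
      refine ⟨⟨⟨fun t : I => ⟨f t, hf.2 t t.2⟩, ?_⟩, ?_, ?_⟩, fun t => rfl⟩
      · exact (continuousOn_iff_continuous_domRestrict.1 hf.1).subtype_mk _
      · apply Subtype.ext
        change f ((0 : I) : ℝ) = r
        rw [Icc.coe_zero, hf0]
      · apply Subtype.ext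
        change f ((1 : I) : ℝ) = r
        rw [Icc.coe_one, hf1]
    obtain ⟨s, hs⟩ := hpath
    refine ⟨fg s, ?_⟩
    change (pv G s)⁻¹ = c
    have h2 : pv G s = G.val f := by
      apply G.hmt
      refine hmt_of_eqOn (fn_pathOn _) (fun t ht => ?_)
      have h2 := fn_coe s ⟨t, ht⟩
      change fn s t = _ at h2
      rw [h2, hs]
    rw [h2, hfc, inv_inv]
  have hem : e (fg μ') = (G.val (mer κ p ρ))⁻¹ := by
    change (av G r r (cl μ'))⁻¹ = _
    have h2 : PC (fun t => pt hκ ((p, ((Real.log ρ : ℝ) : ℂ)) + t • lat 0 1)) (cl μ') := ⟨μ', hμ', rfl⟩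
    rw [av_mer hκ h0 h1 G h2]
  have hel : e (fg ν') = (G.val (fun t => κ (p + t, ρ)))⁻¹ := by
    change (av G r r (cl ν'))⁻¹ = _
    have h2 : PC (fun t => pt hκ ((p, ((Real.log ρ : ℝ) : ℂ)) + t • lat 1 0)) (cl ν') := ⟨ν', hν', rfl⟩
    rw [av_PC G (f := fun t => κ (p + t, ρ)) (fun t _ => hl t) h2]
  have htop : Subgroup.map e ⊤ = ⊤ := Subgroup.map_top_of_surjective e hes
  rw [eq_top_iff, ← htop, ← hgen, Subgroup.map_le_iff_le_comap, Subgroup.closure_le]
  rintro y ((⟨z, rfl⟩ | hy) | hy)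
  · exact Subgroup.subset_closure (Or.inl (Or.inl ⟨e z, map_mul _ _ _⟩))
  · rw [mem_singleton_iff.1 hy]
    have h3 : e (fg ν') ∈ Subgroup.closure ({y : Γ | ∃ z, y = z * z} ∪ {G.val (fun t => κ (p + t, ρ))} ∪
        (Subgroup.normalClosure {G.val (mer κ p ρ)} : Set Γ)) := by
      rw [hel]
      exact Subgroup.inv_mem _ (Subgroup.subset_closure (Or.inl (Or.inr rfl)))
    exact h3
  · have hle : Subgroup.normalClosure {fg μ'} ≤ (Subgroup.normalClosure {G.val (mer κ p ρ)}).comap e := by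
      have : ((Subgroup.normalClosure {G.val (mer κ p ρ)}).comap e).Normal :=
        Subgroup.Normal.comap Subgroup.normalClosure_normal e
      apply Subgroup.normalClosure_le_normal
      intro z hz
      rw [mem_singleton_iff.1 hz]
      have h3 : e (fg μ') ∈ Subgroup.normalClosure {G.val (mer κ p ρ)} := by
        rw [hem]
        exact Subgroup.inv_mem _ (Subgroup.subset_normalClosure rfl)
      exact h3
    exact Subgroup.subset_closure (Or.inr (hle hy))

end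

end Pool.Agent.NHT
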