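import Pool.Agent.NHT.Alg

/-!
# NHT/AlgC: the repaired step (1) of the homotopy theorem, algebra

`G` a group, `x l : G` commuting; for all `a e`: `cm x a = x a x⁻¹ a⁻¹` commutes with its conjugates, and `x` commutes with
`(e⁻¹ cm x a e) (e cm x a e⁻¹)`; `G` is generated by squares, conjugates of `x` and `l`; `G` is generated by the centralizer of `x`
and a finite set.  Then the conjugates of `x` commute.
-/

namespace Pool.Agent.NHT

open Subgroup

section basic

variable {G : Type*} [Group G]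

/-- the commutator -/
def cm (x a : G) : G := x * a * x⁻¹ * a⁻¹

theorem cm_map {H : Type*} [Group H] (p : G →* H) (x a : G) : p (cm x a) = cm (p x) (p a) := by
  simp only [cm, map_mul, map_inv]

/-- the normal closure of an element commuting with its conjugates is commutative -/
theorem AlgC_comm {c : G} (h : ∀ e, Commute c (e * c * e⁻¹)) {u v : G} (hu : u ∈ normalClosure {c})
    (hv : v ∈ normalClosure {c}) : Commute u v := by
  have h1 : ∀ g k : G, Commute (g * c * g⁻¹) (k * c * k⁻¹) := by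
    intro g k
    have h2 := h (g⁻¹ * k)
    have h3 := (h2.map (MulAut.conj g).toMonoidHom)
    simp only [MulEquiv.toMonoidHom_eq_coe, MonoidHom.coe_coe, MulAut.conj_apply] at h3
    have e1 : g * (g⁻¹ * k * c * (g⁻¹ * k)⁻¹) * g⁻¹ = k * c * k⁻¹ := by group
    rwa [e1] at h3
  have h2 : ∀ k : G, ∀ w ∈ normalClosure {c}, Commute w (k * c * k⁻¹) := by
    intro k w hw
    refine Subgroup.closure_induction (p := fun w _ => Commute w (k * c * k⁻¹)) ?_ ?_ ?_ ?_ hw
    · intro y hy
      rw [Group.mem_conjugatesOfSet_iff] at hy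
      obtain ⟨z, hz, hzy⟩ := hy
      rw [Set.mem_singleton_iff.1 hz] at hzy
      obtain ⟨g, rfl⟩ := isConj_iff.1 hzy
      exact h1 g k
    · exact Commute.one_left _
    · intro a b _ _ ha hb
      exact ha.mul_left hb
    · intro a _ ha
      exact ha.inv_left
  refine Subgroup.closure_induction (p := fun v _ => Commute u v) ?_ ?_ ?_ ?_ hv
  · intro y hy
    rw [Group.mem_conjugatesOfSet_iff] at hy
    obtain ⟨z, hz, hzy⟩ := hy
    rw [Set.mem_singleton_iff.1 hz] at hzy
    obtain ⟨g, rfl⟩ := isConj_iff.1 hzy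
    exact h2 g u hu
  · exact Commute.one_right _
  · intro a b _ _ ha hb
    exact ha.mul_right hb
  · intro a _ ha
    exact ha.inv_right

/-- the centralizer of a normal subgroup -/
theorem AlgC_cent (B : Subgroup G) [B.Normal] {c e : G} (h : ∀ u ∈ B, Commute c u) :
    ∀ u ∈ B, Commute (e * c * e⁻¹) u := by
  intro u hu
  have h1 := h (e⁻¹ * u * e) (by
    have := (inferInstance : B.Normal).conj_mem u hu e⁻¹
    rwa [inv_inv] at this)
  have h3 := (h1.map (MulAut.conj e).toMonoidHom)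
  simp only [MulEquiv.toMonoidHom_eq_coe, MonoidHom.coe_coe, MulAut.conj_apply] at h3
  have e1 : e * (e⁻¹ * u * e) * e⁻¹ = u := by group
  rwa [e1] at h3

/-- the relations -/
structure RelC (x l : G) : Prop where
  comm : x * l = l * x
  r1 : ∀ a e : G, Commute (cm x a) (e * cm x a * e⁻¹)
  r3 : ∀ a e : G, Commute x ((e⁻¹ * cm x a * e) * (e * cm x a * e⁻¹))
  gen : closure ({y : G | ∃ z, y = z * z} ∪ {l} ∪ (normalClosure {x} : Set G)) = ⊤

theorem RelC.map {H : Type*} [Group H] {x l : G} (h : RelC x l) (p : G →* H) (hp : Function.Surjective p) :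
    RelC (p x) (p l) := by
  refine ⟨?_, ?_, ?_, ?_⟩
  · rw [← map_mul, h.comm, map_mul]
  · intro a e
    obtain ⟨a, rfl⟩ := hp a
    obtain ⟨e, rfl⟩ := hp e
    have := (h.r1 a e).map p
    simpa only [map_mul, map_inv, cm_map] using this
  · intro a e
    obtain ⟨a, rfl⟩ := hp a
    obtain ⟨e, rfl⟩ := hp e
    have := (h.r3 a e).map p
    simpa only [map_mul, map_inv, cm_map] using this
  · have h1 := congrArg (Subgroup.map p) h.gen
    rw [MonoidHom.map_closure, Subgroup.map_top_of_surjective p hp] at h1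
    rw [eq_top_iff, ← h1]
    refine Subgroup.closure_mono ?_
    rintro _ ⟨y, hy, rfl⟩
    rcases hy with (⟨z, rfl⟩ | hy) | hy
    · exact Or.inl (Or.inl ⟨p z, map_mul p z z⟩)
    · rw [Set.mem_singleton_iff] at hy
      subst hy
      exact Or.inl (Or.inr rfl)
    · refine Or.inr ?_
      have : Subgroup.map p (normalClosure {x}) ≤ normalClosure {p x} := by
        rw [Subgroup.map_le_iff_le_comap]
        have hn : (Subgroup.comap p (normalClosure {p x})).Normal := inferInstance
        refine normalClosure_le_normal ?_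
        rintro y hy
        rw [Set.mem_singleton_iff] at hy
        subst hy
        exact subset_normalClosure rfl
      exact this ⟨y, hy, rfl⟩

/-- conjugation by `x` on a commutative normal set, the computation -/
theorem AlgC_sq {x g : G} (hc : ∀ e : G, Commute (cm x g) (e * cm x g * e⁻¹))
    (h3 : ∀ e : G, Commute x ((e⁻¹ * cm x g * e) * (e * cm x g * e⁻¹))) :
    cm x (g * x * g⁻¹) * cm x (g * x * g⁻¹) = 1 ∧
      x * x * cm x (g * x * g⁻¹) * x⁻¹ * x⁻¹ = cm x (g * x * g⁻¹) := by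
  set c := cm x g with hcdef
  have hT : ∀ u v : G, u ∈ normalClosure {c} → v ∈ normalClosure {c} → Commute u v := fun u v hu hv =>
    AlgC_comm hc hu hv
  have hn : ∀ e : G, e * c * e⁻¹ ∈ normalClosure {c} := fun e =>
    normalClosure_normal.conj_mem c (subset_normalClosure (Set.mem_singleton c)) e
  have ec : g * x * g⁻¹ = c⁻¹ * x := by rw [hcdef, cm]; group
  have hf : cm x (g * x * g⁻¹) = (x * c * x⁻¹)⁻¹ * c := by rw [ec, cm]; group
  have m1 : c ∈ normalClosure {c} := subset_normalClosure (Set.mem_singleton c)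
  have m2 : x * c * x⁻¹ ∈ normalClosure {c} := hn x
  have m3 : x * x * c * x⁻¹ * x⁻¹ ∈ normalClosure {c} := by
    have := hn (x * x)
    have e1 : x * x * c * (x * x)⁻¹ = x * x * c * x⁻¹ * x⁻¹ := by group
    rwa [e1] at this
  have q0 : x * (c * c) * x⁻¹ = c * c := by
    have := (h3 1).eq
    simp only [inv_one, one_mul, mul_one] at this
    rw [this]; group
  have q0' : (x * c * x⁻¹) * (x * c * x⁻¹) = c * c := by rw [← q0]; group
  have ff : (x * c * x⁻¹)⁻¹ * c * ((x * c * x⁻¹)⁻¹ * c) = 1 := by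
    have h12 : Commute (x * c * x⁻¹)⁻¹ c := (hT _ _ m2 m1).inv_left
    calc (x * c * x⁻¹)⁻¹ * c * ((x * c * x⁻¹)⁻¹ * c)
        = (x * c * x⁻¹)⁻¹ * (c * (x * c * x⁻¹)⁻¹) * c := by group
      _ = (x * c * x⁻¹)⁻¹ * ((x * c * x⁻¹)⁻¹ * c) * c := by rw [← h12.eq]
      _ = ((x * c * x⁻¹) * (x * c * x⁻¹))⁻¹ * (c * c) := by group
      _ = 1 := by rw [q0', inv_mul_cancel]
  -- x commutes with (x⁻¹ c x) (x c x⁻¹): conjugate by x
  have q1 : x * ((x⁻¹ * c * x) * (x * c * x⁻¹)) * x⁻¹ = (x⁻¹ * c * x) * (x * c * x⁻¹) := by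
    rw [(h3 x).eq]; group
  have q2 : c * (x * x * c * x⁻¹ * x⁻¹) = (x⁻¹ * c * x) * (x * c * x⁻¹) := by rw [← q1]; group
  have q3 : (x * c * x⁻¹) * (x * (x * x * c * x⁻¹ * x⁻¹) * x⁻¹) = c * (x * x * c * x⁻¹ * x⁻¹) := by
    have : x * (c * (x * x * c * x⁻¹ * x⁻¹)) * x⁻¹ = x * ((x⁻¹ * c * x) * (x * c * x⁻¹)) * x⁻¹ := by rw [q2]
    rw [q1, ← q2] at this
    rw [← this]; group
  refine ⟨by rw [hf]; exact ff, ?_⟩
  rw [hf]
  generalize hw : x * x * c * x⁻¹ * x⁻¹ = c3 at *
  have q4 : x * c3 * x⁻¹ = (x * c * x⁻¹)⁻¹ * (c * c3) := by rw [← q3]; group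
  have e0 : x * x * ((x * c * x⁻¹)⁻¹ * c) * x⁻¹ * x⁻¹ = (x * c3 * x⁻¹)⁻¹ * c3 := by
    rw [← hw]; simp only [mul_inv_rev, inv_inv, mul_assoc, inv_mul_cancel_left]
  rw [e0, q4]
  have h32 : Commute c3⁻¹ (c⁻¹ * (x * c * x⁻¹)) := ((hT _ _ m3 m1).inv_right.mul_right (hT _ _ m3 m2)).inv_left
  have e1 : ((x * c * x⁻¹)⁻¹ * (c * c3))⁻¹ * c3 = c3⁻¹ * (c⁻¹ * (x * c * x⁻¹)) * c3 := by group
  rw [e1, h32.eq, inv_mul_cancel_right]
  -- c⁻¹ c2 = (c2⁻¹ c)⁻¹ = c2⁻¹ c
  have e2 : c⁻¹ * (x * c * x⁻¹) = ((x * c * x⁻¹)⁻¹ * c)⁻¹ := by group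
  rw [e2]
  exact inv_eq_of_mul_eq_one_left ff

/-- `Alg_f` for a function invariant under a normal subgroup -/
theorem AlgC_f {V : Type*} [AddCommGroup V] {M : Subgroup G} [M.Normal] {l : G}
    (hg : closure ({y : G | ∃ z, y = z * z} ∪ {l} ∪ (M : Set G)) = ⊤)
    (hV : ∀ v : V, v + v = 0) (f : G → V) (f1 : f 1 = 0) (fl : ∀ g, f (g * l) = f g)
    (fm : ∀ g, ∀ m ∈ M, f (g * m) = f g)
    (h : ∀ e a, f e + f (e * a) + f e⁻¹ + f (e⁻¹ * a) = 0) : ∀ g, f g = 0 := by
  have hout : ∀ g : G, f (QuotientGroup.mk (s := M) g).out = f g := by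
    intro g
    have h1 : g⁻¹ * (QuotientGroup.mk (s := M) g).out ∈ M := by
      rw [← QuotientGroup.eq]
      exact (QuotientGroup.out_eq' _).symm
    have h2 := fm g _ h1
    rwa [mul_inv_cancel_left] at h2
  have hgen : GenMod2 (QuotientGroup.mk (s := M) l) := by
    unfold GenMod2
    rw [eq_top_iff]
    have h1 := congrArg (Subgroup.map (QuotientGroup.mk' M)) hg
    rw [MonoidHom.map_closure, Subgroup.map_top_of_surjective _ (QuotientGroup.mk'_surjective M)] at h1
    rw [← h1, Subgroup.closure_le]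
    rintro _ ⟨y, hy, rfl⟩
    rcases hy with (⟨z, rfl⟩ | hy) | hy
    · exact subset_closure (Or.inl ⟨QuotientGroup.mk' M z, map_mul _ z z⟩)
    · rw [Set.mem_singleton_iff] at hy
      subst hy
      exact subset_closure (Or.inr rfl)
    · have : QuotientGroup.mk' M y = 1 := (QuotientGroup.eq_one_iff y).2 hy
      rw [this]
      exact one_mem _
  have key := Alg_f hgen hV (fun q : G ⧸ M => f q.out) (by
      have := hout 1
      change f (QuotientGroup.mk (s := M) (1 : G)).out = 0
      rw [this, f1]) (by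
      intro q
      obtain ⟨g, rfl⟩ := QuotientGroup.mk_surjective q
      change f (QuotientGroup.mk (s := M) (g * l)).out = _
      rw [hout, hout, fl]) (by
      intro q r
      obtain ⟨e, rfl⟩ := QuotientGroup.mk_surjective q
      obtain ⟨a, rfl⟩ := QuotientGroup.mk_surjective r
      change f (QuotientGroup.mk (s := M) e).out + f (QuotientGroup.mk (s := M) (e * a)).out
        + f (QuotientGroup.mk (s := M) e⁻¹).out + f (QuotientGroup.mk (s := M) (e⁻¹ * a)).out = 0
      rw [hout, hout, hout, hout]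
      exact h e a)
  intro g
  have := key (QuotientGroup.mk g)
  rwa [hout] at this

theorem cm_mul (x g k : G) : cm x (g * k) = cm x g * (g * cm x k * g⁻¹) := by
  simp only [cm]; group

theorem cm_inv (x g : G) : cm x g⁻¹ = g⁻¹ * (cm x g)⁻¹ * g := by
  simp only [cm]; group

theorem cm_of_comm {x g : G} (h : Commute x g) : cm x g = 1 := by
  simp only [cm]; rw [h.eq]; group

theorem comm_of_cm {x g : G} (h : cm x g = 1) : Commute x g := by
  simp only [cm] at h
  have : x * g = 1 * (g * x) := by rw [← h]; group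
  rw [one_mul] at this
  exact this

theorem AlgC_inv {V : Type*} {x : G} (f : G → V) (hf : ∀ g k, f (g * (k * x * k⁻¹)) = f g) :
    ∀ g, ∀ m ∈ normalClosure {x}, f (g * m) = f g := by
  intro g m hm
  refine Subgroup.closure_induction (p := fun m _ => ∀ g, f (g * m) = f g) ?_ ?_ ?_ ?_ hm g
  · intro y hy g
    rw [Group.mem_conjugatesOfSet_iff] at hy
    obtain ⟨z, hz, hzy⟩ := hy
    rw [Set.mem_singleton_iff.1 hz] at hzy
    obtain ⟨k, rfl⟩ := isConj_iff.1 hzy
    exact hf g k
  · intro g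
    rw [mul_one]
  · intro a b _ _ ha hb g
    rw [← mul_assoc, hb, ha]
  · intro a _ ha g
    have := ha (g * a⁻¹)
    rw [inv_mul_cancel_right] at this
    exact this.symm

/-- The step of the induction. -/
theorem AlgC_step {x l : G} (h : RelC x l) (A : Set G) (hA : closure (A ∪ {g : G | Commute x g}) = ⊤)
    {b₀ : G} (hb₀ : b₀ ∈ A)
    (ih : ∀ b ∈ A, ∀ g : G, cm x (g * x * g⁻¹) ∈ normalClosure {cm x b}) :
    ∀ g : G, cm x (g * x * g⁻¹) = 1 := by
  set F : G → G := fun g => cm x (g * x * g⁻¹) with hF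
  set B : Subgroup G := normalClosure (Set.range F) with hB
  have hBn : B.Normal := normalClosure_normal
  have hFB : ∀ g, F g ∈ B := fun g => subset_normalClosure ⟨g, rfl⟩
  have hBle : ∀ b ∈ A, B ≤ normalClosure {cm x b} := by
    intro b hb
    refine normalClosure_le_normal ?_
    rintro _ ⟨g, rfl⟩
    exact ih b hb g
  have Bc : ∀ u ∈ B, ∀ v ∈ B, Commute u v := fun u hu v hv =>
    AlgC_comm (h.r1 b₀) (hBle b₀ hb₀ hu) (hBle b₀ hb₀ hv)
  -- all `[x, g]` centralize `B`
  have K1 : ∀ g, ∀ u ∈ B, Commute (cm x g) u := by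
    let S : Subgroup G :=
      { carrier := {g | ∀ u ∈ B, Commute (cm x g) u}
        one_mem' := by
          intro u _
          have : cm x 1 = 1 := cm_of_comm (Commute.one_right x)
          rw [this]
          exact Commute.one_left u
        mul_mem' := by
          intro g k hg hk u hu
          rw [cm_mul]
          exact (hg u hu).mul_left (AlgC_cent B hk u hu)
        inv_mem' := by
          intro g hg u hu
          rw [cm_inv]
          have h1 : ∀ u ∈ B, Commute (cm x g)⁻¹ u := fun u hu => (hg u hu).inv_left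
          have h2 := AlgC_cent B (e := g⁻¹) h1 u hu
          rwa [inv_inv] at h2 }
    have hS : S = ⊤ := by
      rw [eq_top_iff, ← hA, closure_le]
      rintro g (hg | hg)
      · intro u hu
        exact AlgC_comm (h.r1 g) (subset_normalClosure (Set.mem_singleton _)) (hBle g hg hu)
      · intro u _
        rw [cm_of_comm hg]
        exact Commute.one_left u
    intro g
    have : g ∈ S := by rw [hS]; exact mem_top g
    exact this
  -- all conjugates of `x` act on `B` as `x` does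
  have K2 : ∀ g, ∀ u ∈ B, (g * x * g⁻¹) * u * (g * x * g⁻¹)⁻¹ = x * u * x⁻¹ := by
    intro g u hu
    have e1 : g * x * g⁻¹ = (cm x g)⁻¹ * x := by simp only [cm]; group
    have h1 : x * u * x⁻¹ ∈ B := hBn.conj_mem u hu x
    have h2 := ((K1 g _ h1).inv_left).eq
    calc (g * x * g⁻¹) * u * (g * x * g⁻¹)⁻¹ = (cm x g)⁻¹ * (x * u * x⁻¹) * cm x g := by rw [e1]; group
      _ = x * u * x⁻¹ := by rw [h2]; group
  -- squares
  have K3 : ∀ u ∈ B, u * u = 1 ∧ x * x * u * x⁻¹ * x⁻¹ = u := by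
    intro u hu
    refine Subgroup.closure_induction (p := fun u _ => u * u = 1 ∧ x * x * u * x⁻¹ * x⁻¹ = u) ?_ ?_ ?_ ?_ hu
    · intro y hy
      rw [Group.mem_conjugatesOfSet_iff] at hy
      obtain ⟨z, ⟨g, rfl⟩, hzy⟩ := hy
      obtain ⟨e, rfl⟩ := isConj_iff.1 hzy
      obtain ⟨s1, s2⟩ := AlgC_sq (h.r1 g) (h.r3 g)
      have s1' : F g * F g = 1 := s1
      have s2' : x * x * F g * x⁻¹ * x⁻¹ = F g := s2
      constructor
      · calc e * F g * e⁻¹ * (e * F g * e⁻¹) = e * (F g * F g) * e⁻¹ := by group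
          _ = 1 := by rw [s1']; group
      · have k1 := K2 e⁻¹ (F g) (hFB g)
        have k2 := K2 e⁻¹ (x * F g * x⁻¹) (hBn.conj_mem _ (hFB g) x)
        rw [← k1] at k2
        have k3 : x * ((e⁻¹ * x * e⁻¹⁻¹) * F g * (e⁻¹ * x * e⁻¹⁻¹)⁻¹) * x⁻¹ = F g := by
          rw [k1]
          calc x * (x * F g * x⁻¹) * x⁻¹ = x * x * F g * x⁻¹ * x⁻¹ := by simp only [mul_assoc]
            _ = F g := s2'
        rw [k3] at k2
        calc x * x * (e * F g * e⁻¹) * x⁻¹ * x⁻¹
            = e * ((e⁻¹ * x * e⁻¹⁻¹) * ((e⁻¹ * x * e⁻¹⁻¹) * F g * (e⁻¹ * x * e⁻¹⁻¹)⁻¹)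
                * (e⁻¹ * x * e⁻¹⁻¹)⁻¹) * e⁻¹ := by group
          _ = e * F g * e⁻¹ := by rw [k2]
    · exact ⟨one_mul 1, by group⟩
    · intro a b ha' hb' ha hb
      have hab : Commute a b := Bc a ha' b hb'
      constructor
      · calc a * b * (a * b) = a * (b * a) * b := by group
          _ = a * (a * b) * b := by rw [hab.eq]
          _ = (a * a) * (b * b) := by group
          _ = 1 := by rw [ha.1, hb.1, one_mul]
      · calc x * x * (a * b) * x⁻¹ * x⁻¹ = (x * x * a * x⁻¹ * x⁻¹) * (x * x * b * x⁻¹ * x⁻¹) := by group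
          _ = a * b := by rw [ha.2, hb.2]
    · intro a _ ha
      constructor
      · calc a⁻¹ * a⁻¹ = (a * a)⁻¹ := by group
          _ = 1 := by rw [ha.1, inv_one]
      · calc x * x * a⁻¹ * x⁻¹ * x⁻¹ = (x * x * a * x⁻¹ * x⁻¹)⁻¹ := by
              simp only [mul_inv_rev, inv_inv, mul_assoc]
          _ = a⁻¹ := by rw [ha.2]
  -- the exact functional equation
  have K4 : ∀ e a : G, cm x (e * cm x a * e⁻¹) = F e * (F (e * a))⁻¹ := by
    intro e a
    have hw : ∀ u ∈ B, Commute (e * cm x a * e⁻¹) u := AlgC_cent B (K1 a)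
    have h1 := (hw _ (B.inv_mem (hFB (e * a)))).eq
    calc cm x (e * cm x a * e⁻¹)
        = F e * ((e * cm x a * e⁻¹) * (F (e * a))⁻¹ * (e * cm x a * e⁻¹)⁻¹) := by
          simp only [hF, cm]; group
      _ = F e * (F (e * a))⁻¹ := by rw [h1]; group
  have K5 : ∀ e a : G, F e * (F (e * a))⁻¹ * (F e⁻¹ * (F (e⁻¹ * a))⁻¹) = 1 := by
    intro e a
    have h1 := h.r3 a e⁻¹
    rw [inv_inv] at h1
    have h2 := cm_of_comm h1
    rw [cm_mul, K4] at h2
    have h3 : cm x (e⁻¹ * cm x a * e) = F e⁻¹ * (F (e⁻¹ * a))⁻¹ := by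
      have := K4 e⁻¹ a
      rwa [inv_inv] at this
    rw [h3] at h2
    have h4 : F e⁻¹ * (F (e⁻¹ * a))⁻¹ ∈ B := B.mul_mem (hFB _) (B.inv_mem (hFB _))
    have h5 := (AlgC_cent B (e := e) (K1 a) _ h4).eq
    rw [h5, mul_inv_cancel_right] at h2
    exact h2
  -- additive version with values in `B`
  let iB : CommGroup B := { (inferInstance : Group B) with
    mul_comm := fun u v => Subtype.ext (Bc u.1 u.2 v.1 v.2) }
  have hgen := h.gen
  have hV : ∀ v : Additive B, v + v = 0 := by
    intro v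
    exact congrArg Additive.ofMul (Subtype.ext (K3 v.toMul.1 v.toMul.2).1)
  have hinv : ∀ u ∈ B, u⁻¹ = u := fun u hu => inv_eq_of_mul_eq_one_left (K3 u hu).1
  have K5' : ∀ e a : G, F e * F (e * a) * F e⁻¹ * F (e⁻¹ * a) = 1 := by
    intro e a
    have h1 := K5 e a
    rw [hinv _ (hFB (e * a)), hinv _ (hFB (e⁻¹ * a))] at h1
    rw [mul_assoc]
    exact h1
  have F1 : F 1 = 1 := by simp only [hF, cm]; group
  have Fl : ∀ g, F (g * l) = F g := by
    intro g
    have e1 : g * l * x * (g * l)⁻¹ = g * x * g⁻¹ := by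
      calc g * l * x * (g * l)⁻¹ = g * (l * x) * l⁻¹ * g⁻¹ := by group
        _ = g * (x * l) * l⁻¹ * g⁻¹ := by rw [h.comm]
        _ = g * x * g⁻¹ := by group
    simp only [hF, e1]
  -- conjugates on the right
  have K6 : ∀ g k : G, ∃ b ∈ B, F (g * (k * x * k⁻¹)) = cm x b * F g := by
    intro g k
    refine ⟨g * (F k)⁻¹ * g⁻¹, hBn.conj_mem _ (B.inv_mem (hFB k)) g, ?_⟩
    have hb : g * (F k)⁻¹ * g⁻¹ ∈ B := hBn.conj_mem _ (B.inv_mem (hFB k)) g
    have e1 : (g * (k * x * k⁻¹)) * x * (g * (k * x * k⁻¹))⁻¹ = (g * (F k)⁻¹ * g⁻¹) * (g * x * g⁻¹) := by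
      simp only [hF, cm]; group
    have e2 : F (g * (k * x * k⁻¹)) = cm x ((g * (F k)⁻¹ * g⁻¹) * (g * x * g⁻¹)) := by
      simp only [hF] at e1 ⊢
      rw [e1]
    rw [e2, cm_mul]
    have e3 : (g * (F k)⁻¹ * g⁻¹) * F g * (g * (F k)⁻¹ * g⁻¹)⁻¹ = F g := by
      rw [(Bc _ hb _ (hFB g)).eq, mul_inv_cancel_right]
    have e4 : (g * (F k)⁻¹ * g⁻¹) * cm x (g * x * g⁻¹) * (g * (F k)⁻¹ * g⁻¹)⁻¹ = F g := e3
    rw [e4]
  -- `(σ - 1)²= 0`
  have K7 : ∀ b ∈ B, cm x (cm x b) = 1 := by
    intro b hb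
    have hxb : x * b * x⁻¹ ∈ B := hBn.conj_mem b hb x
    have h1 : cm x b = (x * b * x⁻¹) * b := by
      have : cm x b = (x * b * x⁻¹) * b⁻¹ := by simp only [cm]
      rw [this, hinv b hb]
    have h2 : x * cm x b * x⁻¹ = b * (x * b * x⁻¹) := by
      rw [h1]
      calc x * (x * b * x⁻¹ * b) * x⁻¹ = (x * x * b * x⁻¹ * x⁻¹) * (x * b * x⁻¹) := by
            simp only [mul_assoc, inv_mul_cancel_left]
        _ = b * (x * b * x⁻¹) := by rw [(K3 b hb).2]
    have h3 : cm x (cm x b) = (x * cm x b * x⁻¹) * (cm x b)⁻¹ := by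
      generalize cm x b = c
      simp only [cm]
    rw [h3, h2, h1, (Bc b hb _ hxb).eq, mul_inv_cancel]
  have cmB : ∀ b ∈ B, cm x b ∈ B := by
    intro b hb
    simp only [cm]
    exact B.mul_mem (hBn.conj_mem b hb x) (B.inv_mem hb)
  have cmul : ∀ u ∈ B, ∀ v ∈ B, cm x (u * v) = cm x u * cm x v := by
    intro u hu v hv
    rw [cm_mul, (Bc u hu _ (cmB v hv)).eq, mul_inv_cancel_right]
  -- first application
  have P1 : ∀ g, cm x (F g) = 1 := by
    have key := AlgC_f (V := Additive B) hgen hV (fun g => Additive.ofMul ⟨cm x (F g), cmB _ (hFB g)⟩) ?_ ?_ ?_ ?_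
    · intro g
      exact congrArg Subtype.val (Additive.ofMul.injective (key g))
    · refine congrArg Additive.ofMul (Subtype.ext ?_)
      change cm x (F 1) = 1
      rw [F1]; simp only [cm]; group
    · intro g
      refine congrArg Additive.ofMul (Subtype.ext ?_)
      change cm x (F (g * l)) = cm x (F g)
      rw [Fl]
    · refine AlgC_inv (x := x) (fun g => Additive.ofMul (⟨cm x (F g), cmB _ (hFB g)⟩ : B)) ?_
      intro g k
      refine congrArg Additive.ofMul (Subtype.ext ?_)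
      change cm x (F (g * (k * x * k⁻¹))) = cm x (F g)
      obtain ⟨b, hb, e⟩ := K6 g k
      rw [e, cmul _ (cmB b hb) _ (hFB g), K7 b hb, one_mul]
    · intro e a
      refine congrArg Additive.ofMul (Subtype.ext ?_)
      change cm x (F e) * cm x (F (e * a)) * cm x (F e⁻¹) * cm x (F (e⁻¹ * a)) = 1
      have h1 := hFB e
      have h2 := hFB (e * a)
      have h3 := hFB e⁻¹
      have h4 := hFB (e⁻¹ * a)
      rw [← cmul _ h1 _ h2, ← cmul _ (B.mul_mem h1 h2) _ h3, ← cmul _ (B.mul_mem (B.mul_mem h1 h2) h3) _ h4, K5']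
      simp only [cm]; group
  have P2 : ∀ b ∈ B, cm x b = 1 := by
    intro b hb
    refine Subgroup.closure_induction (p := fun b _ => cm x b = 1) ?_ ?_ ?_ ?_ hb
    · intro y hy
      rw [Group.mem_conjugatesOfSet_iff] at hy
      obtain ⟨z, ⟨g, rfl⟩, hzy⟩ := hy
      obtain ⟨e, rfl⟩ := isConj_iff.1 hzy
      have k1 := K2 e⁻¹ (F g) (hFB g)
      have k2 := (comm_of_cm (P1 g)).eq
      have k3 : x * F g * x⁻¹ = F g := by rw [k2, mul_inv_cancel_right]
      rw [k3] at k1
      calc cm x (e * F g * e⁻¹) = e * ((e⁻¹ * x * e⁻¹⁻¹) * F g * (e⁻¹ * x * e⁻¹⁻¹)⁻¹) * (F g)⁻¹ * e⁻¹ := by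
            generalize F g = c
            simp only [cm]; group
        _ = 1 := by rw [k1]; group
    · simp only [cm]; group
    · intro a b ha hb iha ihb
      have ha' : a ∈ B := ha
      have hb' : b ∈ B := hb
      rw [cmul a ha' b hb', iha, ihb, one_mul]
    · intro a _ iha
      rw [cm_inv, iha]; group
  -- second application
  have key := AlgC_f (V := Additive B) hgen hV (fun g => Additive.ofMul ⟨F g, hFB g⟩) ?_ ?_ ?_ ?_
  · intro g
    exact congrArg Subtype.val (Additive.ofMul.injective (key g))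
  · exact congrArg Additive.ofMul (Subtype.ext F1)
  · intro g
    exact congrArg Additive.ofMul (Subtype.ext (Fl g))
  · refine AlgC_inv (x := x) (fun g => Additive.ofMul (⟨F g, hFB g⟩ : B)) ?_
    intro g k
    refine congrArg Additive.ofMul (Subtype.ext ?_)
    change F (g * (k * x * k⁻¹)) = F g
    obtain ⟨b, hb, e⟩ := K6 g k
    rw [e, P2 b hb, one_mul]
  · intro e a
    exact congrArg Additive.ofMul (Subtype.ext (K5' e a))

end basic

universe u

/-- The induction on the number of generators. -/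
theorem AlgC_ind (n : ℕ) : ∀ {G : Type u} [Group G] {x l : G}, RelC x l → ∀ A : Finset G, A.card ≤ n →
    closure ((A : Set G) ∪ {g : G | Commute x g}) = ⊤ → ∀ g : G, Commute x (g * x * g⁻¹) := by
  classical
  induction n with
  | zero =>
    intro G _ x l h A hA hc g
    have hA0 : A = ∅ := Finset.card_eq_zero.1 (Nat.le_zero.1 hA)
    subst hA0
    rw [Finset.coe_empty, Set.empty_union] at hc
    have h1 : ∀ g : G, Commute x g := by
      have h2 : (Subgroup.centralizer {x} : Subgroup G) = ⊤ := by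
        rw [eq_top_iff, ← hc, closure_le]
        intro y hy
        rw [SetLike.mem_coe, Subgroup.mem_centralizer_singleton_iff]
        exact hy.eq.symm
      intro g
      have h3 : g ∈ (Subgroup.centralizer {x} : Subgroup G) := by rw [h2]; exact mem_top g
      rw [Subgroup.mem_centralizer_singleton_iff] at h3
      exact h3.symm
    exact h1 _
  | succ n IH =>
    intro G _ x l h A hA hc g
    by_cases hA0 : A.card ≤ n
    · exact IH h A hA0 hc g
    have hne : A.Nonempty := by
      rw [← Finset.card_pos]; omega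
    obtain ⟨b₀, hb₀⟩ := hne
    refine comm_of_cm (AlgC_step h (A : Set G) hc (b₀ := b₀) hb₀ ?_ g)
    intro b hb g
    have hN : (normalClosure {cm x b}).Normal := normalClosure_normal
    set p : G →* G ⧸ normalClosure {cm x b} := QuotientGroup.mk' _ with hp
    have hps : Function.Surjective p := QuotientGroup.mk'_surjective _
    have hpb : Commute (p x) (p b) := by
      refine comm_of_cm ?_
      rw [← cm_map]
      exact (QuotientGroup.eq_one_iff _).2 (subset_normalClosure (Set.mem_singleton _))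
    have key := IH (h.map p hps) ((A.erase b).image p) ?_ ?_ (p g)
    · have h1 : p (cm x (g * x * g⁻¹)) = 1 := by
        rw [cm_map]
        refine cm_of_comm ?_
        simpa only [map_mul, map_inv] using key
      exact (QuotientGroup.eq_one_iff _).1 h1
    · have h1 : (A.erase b).card = A.card - 1 := Finset.card_erase_of_mem hb
      have h2 := Finset.card_image_le (s := A.erase b) (f := p)
      omega
    · rw [eq_top_iff, ← Subgroup.map_top_of_surjective p hps, ← hc, MonoidHom.map_closure, closure_le]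
      rintro _ ⟨y, hy, rfl⟩
      rcases hy with hy | hy
      · by_cases hyb : y = b
        · subst hyb
          exact subset_closure (Or.inr hpb)
        · refine subset_closure (Or.inl ?_)
          rw [Finset.coe_image]
          exact ⟨y, Finset.mem_coe.2 (Finset.mem_erase.2 ⟨hyb, hy⟩), rfl⟩
      · exact subset_closure (Or.inr (Commute.map hy p))

/-- **The repaired step (1).**  The conjugates of `x` commute. -/
theorem AlgC_comm_conj {G : Type u} [Group G] {x l : G} (h : RelC x l) (A : Finset G)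
    (hA : closure ((A : Set G) ∪ {g : G | Commute x g}) = ⊤) (g k : G) :
    Commute (g * x * g⁻¹) (k * x * k⁻¹) := by
  have h1 := AlgC_ind A.card h A le_rfl hA (g⁻¹ * k)
  have h3 := (h1.map (MulAut.conj g).toMonoidHom)
  simp only [MulEquiv.toMonoidHom_eq_coe, MonoidHom.coe_coe, MulAut.conj_apply] at h3
  have e1 : g * (g⁻¹ * k * x * (g⁻¹ * k)⁻¹) * g⁻¹ = k * x * k⁻¹ := by group
  rwa [e1] at h3

end Pool.Agent.NHT
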