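import Pool.Agent.NHT.AlgD

/-!
# NHT/AlgE: the group theory of steps (1)-(3) of the homotopy theorem, without finiteness assumptions

`b = m (a m a⁻¹)`.  `AlgE_main`: if `L` contains `m`, all conjugates of `[b, e b e⁻¹]` and of
`[m, (e⁻¹ b e) (e b e⁻¹)]`, and all `(e⁻¹ b e) (e b e⁻¹)`, then `L` contains the normal closure of `m`.
-/

namespace Pool.Agent.NHT

open Subgroup

universe u v

section classTwo

variable {H : Type u} [Group H]

theorem AlgE_gen {m l : H}
    (hgen : closure ({y : H | ∃ z, y = z * z} ∪ {l} ∪ (normalClosure {m} : Set H)) = ⊤) :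
    closure ({y : H | ∃ z, y = z * z} ∪ {l, m}) = ⊤ := by
  rw [eq_top_iff, ← hgen, closure_le]
  let W : Subgroup H := Subgroup.closure ({y : H | ∃ z, y = z * z} ∪ {l, m})
  have hsq : ∀ z, z * z ∈ W := fun z => subset_closure (Or.inl ⟨z, rfl⟩)
  have hWn : W.Normal := by
    constructor
    intro w hw g
    have h4 : g * w * g⁻¹ = (g * g) * ((g⁻¹ * w) * (g⁻¹ * w)) * (w⁻¹ * w⁻¹) * w := by group
    rw [h4]
    exact W.mul_mem (W.mul_mem (W.mul_mem (hsq _) (hsq _)) (hsq _)) hw
  have hxW : normalClosure {m} ≤ W := by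
    apply normalClosure_le_normal
    rw [Set.singleton_subset_iff]
    exact subset_closure (Or.inr (Or.inr rfl))
  rintro y ((⟨z, rfl⟩ | hy) | hy)
  · exact hsq z
  · exact subset_closure (Or.inr (Or.inl hy))
  · exact hxW hy

/-- elements commuting with all conjugates of `m` commute with the normal closure -/
theorem AlgE_nc {m z : H} (h : ∀ c, Commute (c * m * c⁻¹) z) {w : H} (hw : w ∈ normalClosure {m}) :
    Commute w z := by
  refine Subgroup.closure_induction (p := fun w _ => Commute w z) ?_ ?_ ?_ ?_ hw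
  · intro y hy
    rw [Group.mem_conjugatesOfSet_iff] at hy
    obtain ⟨z, hz, hzy⟩ := hy
    rw [Set.mem_singleton_iff.1 hz] at hzy
    obtain ⟨g, rfl⟩ := isConj_iff.1 hzy
    exact h g
  · exact Commute.one_left _
  · intro a b _ _ ha hb
    exact ha.mul_left hb
  · intro a _ ha
    exact ha.inv_left

theorem AlgE_mem_nc (m c : H) : c * m * c⁻¹ ∈ normalClosure {m} :=
  normalClosure_normal.conj_mem m (subset_normalClosure (Set.mem_singleton m)) c

/-- central 2-torsion elements of the normal closure -/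
def AlgE_T (m : H) : Subgroup H where
  carrier := {z | z ∈ normalClosure {m} ∧ (∀ c, Commute (c * m * c⁻¹) z) ∧ z * z = 1}
  one_mem' := ⟨one_mem _, fun _ => Commute.one_right _, one_mul 1⟩
  mul_mem' := by
    rintro a b ⟨ha1, ha2, ha3⟩ ⟨hb1, hb2, hb3⟩
    refine ⟨mul_mem ha1 hb1, fun c => (ha2 c).mul_right (hb2 c), ?_⟩
    have hc : Commute a b := AlgE_nc hb2 ha1
    have : a * b * (a * b) = (a * a) * (b * b) := by
      rw [mul_assoc, ← mul_assoc b a b, ← hc.eq]; group
    rw [this, ha3, hb3, one_mul]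
  inv_mem' := by
    rintro a ⟨ha1, ha2, ha3⟩
    refine ⟨inv_mem ha1, fun c => (ha2 c).inv_right, ?_⟩
    rw [← mul_inv_rev, ha3, inv_one]

/-- class 2: the functional equation gives that the conjugates of `m` commute. -/
theorem AlgE_class2 {m l : H} (hl : l * m = m * l)
    (hcent : ∀ a b c : H, Commute (c * m * c⁻¹) (cm (a * m * a⁻¹) (b * m * b⁻¹)))
    (hsq : ∀ a : H, cm m (a * m * a⁻¹) * cm m (a * m * a⁻¹) = 1)
    (h3 : ∀ a e : H, Commute m ((e⁻¹ * (m * (a * m * a⁻¹)) * e) * (e * (m * (a * m * a⁻¹)) * e⁻¹)))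
    (hgen : closure ({y : H | ∃ z, y = z * z} ∪ {l} ∪ (normalClosure {m} : Set H)) = ⊤) :
    ∀ g, Commute m (g * m * g⁻¹) := by
  have hc1 : ∀ b c : H, Commute (c * m * c⁻¹) (cm m (b * m * b⁻¹)) := by
    intro b c
    have := hcent 1 b c
    rwa [one_mul, inv_one, mul_one] at this
  have hT : ∀ g, cm m (g * m * g⁻¹) ∈ AlgE_T m := by
    intro g
    refine ⟨?_, hc1 g, hsq g⟩
    have h1 : m ∈ normalClosure {m} := subset_normalClosure rfl
    unfold cm
    exact mul_mem (mul_mem (mul_mem h1 (AlgE_mem_nc m g)) (inv_mem h1)) (inv_mem (AlgE_mem_nc m g))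
  let _ : CommGroup (AlgE_T m) :=
    { (inferInstance : Group (AlgE_T m)) with
      mul_comm := by
        rintro ⟨a, ha⟩ ⟨b, hb⟩
        apply Subtype.ext
        exact (AlgE_nc hb.2.1 ha.1).eq }
  let V := Additive (AlgE_T m)
  let f : H → V := fun g => Additive.ofMul ⟨cm m (g * m * g⁻¹), hT g⟩
  have hV : ∀ v : V, v + v = 0 := by
    intro v
    change Additive.ofMul (Additive.toMul v * Additive.toMul v) = _
    have : Additive.toMul v * Additive.toMul v = 1 := Subtype.ext (Additive.toMul v).2.2.2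
    rw [this]; rfl
  have hf : ∀ g, f g = 0 := by
    refine AlgD_f (κ := l) (μ := m) hl (AlgE_gen hgen) hV f ?_ ?_ ?_ ?_
    · have h4 : (⟨cm m (1 * m * 1⁻¹), hT 1⟩ : AlgE_T m) = 1 :=
        Subtype.ext (by change cm m (1 * m * 1⁻¹) = 1; unfold cm; group)
      change Additive.ofMul (⟨cm m (1 * m * 1⁻¹), hT 1⟩ : AlgE_T m) = 0
      rw [h4]; rfl
    · intro g
      have h4 : (⟨cm m (g * l * m * (g * l)⁻¹), hT (g * l)⟩ : AlgE_T m) = ⟨cm m (g * m * g⁻¹), hT g⟩ := by
        apply Subtype.ext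
        change cm m (g * l * m * (g * l)⁻¹) = cm m (g * m * g⁻¹)
        have : g * l * m * (g * l)⁻¹ = g * m * g⁻¹ := by
          rw [mul_assoc g l m, hl]; group
        rw [this]
      change Additive.ofMul (⟨cm m (g * l * m * (g * l)⁻¹), hT (g * l)⟩ : AlgE_T m) = _
      rw [h4]
    · intro g
      have h4 : (⟨cm m (g * m * m * (g * m)⁻¹), hT (g * m)⟩ : AlgE_T m) = ⟨cm m (g * m * g⁻¹), hT g⟩ := by
        apply Subtype.ext
        change cm m (g * m * m * (g * m)⁻¹) = cm m (g * m * g⁻¹)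
        have : g * m * m * (g * m)⁻¹ = g * m * g⁻¹ := by group
        rw [this]
      change Additive.ofMul (⟨cm m (g * m * m * (g * m)⁻¹), hT (g * m)⟩ : AlgE_T m) = _
      rw [h4]
    · intro e a
      have hcj : ∀ b, ∀ w ∈ normalClosure {m}, Commute w (cm m (b * m * b⁻¹)) :=
        fun b w hw => AlgE_nc (hc1 b) hw
      have h5 := cm_of_comm (h3 a e)
      have e1 : (e⁻¹ * (m * (a * m * a⁻¹)) * e) * (e * (m * (a * m * a⁻¹)) * e⁻¹)
          = (e⁻¹ * m * e⁻¹⁻¹) * (((e⁻¹ * a) * m * (e⁻¹ * a)⁻¹) * ((e * m * e⁻¹) * ((e * a) * m * (e * a)⁻¹))) := by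
        group
      have hk : ∀ u k : H, Commute u (cm m k) → cm m (u * k) = cm m u * cm m k := by
        intro u k h
        rw [cm_mul, h.eq]; group
      have q1 := AlgE_mem_nc m e⁻¹
      have q2 := AlgE_mem_nc m (e⁻¹ * a)
      have q3 := AlgE_mem_nc m e
      have h6' : cm m (e⁻¹ * m * e⁻¹⁻¹) * (cm m ((e⁻¹ * a) * m * (e⁻¹ * a)⁻¹)
          * (cm m (e * m * e⁻¹) * cm m ((e * a) * m * (e * a)⁻¹))) = 1 := by
        rw [← h5, e1]
        have r3 := hk (e * m * e⁻¹) ((e * a) * m * (e * a)⁻¹) (hcj _ _ q3)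
        have r2 := hk ((e⁻¹ * a) * m * (e⁻¹ * a)⁻¹) ((e * m * e⁻¹) * ((e * a) * m * (e * a)⁻¹))
          (by rw [r3]; exact (hcj _ _ q2).mul_right (hcj _ _ q2))
        have r1 := hk (e⁻¹ * m * e⁻¹⁻¹) (((e⁻¹ * a) * m * (e⁻¹ * a)⁻¹) * ((e * m * e⁻¹) * ((e * a) * m * (e * a)⁻¹)))
          (by rw [r2, r3]; exact (hcj _ _ q1).mul_right ((hcj _ _ q1).mul_right (hcj _ _ q1)))
        rw [r1, r2, r3]
      have h6 : (⟨cm m (e⁻¹ * m * e⁻¹⁻¹), hT e⁻¹⟩ : AlgE_T m) * (⟨cm m ((e⁻¹ * a) * m * (e⁻¹ * a)⁻¹), hT (e⁻¹ * a)⟩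
          * (⟨cm m (e * m * e⁻¹), hT e⟩ * ⟨cm m ((e * a) * m * (e * a)⁻¹), hT (e * a)⟩)) = 1 :=
        Subtype.ext h6'
      have h7 : f e⁻¹ + (f (e⁻¹ * a) + (f e + f (e * a))) = 0 := congrArg Additive.ofMul h6
      rw [← h7]; abel
  intro g
  apply comm_of_cm
  have := hf g
  have h8 : (⟨cm m (g * m * g⁻¹), hT g⟩ : AlgE_T m) = 1 := this
  exact congrArg Subtype.val h8

/-- the same modulo a normal subgroup -/
theorem AlgE_class2R {m l : H} (R : Subgroup H) [R.Normal] (hl : l * m = m * l)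
    (hcent : ∀ a b c : H, cm (c * m * c⁻¹) (cm (a * m * a⁻¹) (b * m * b⁻¹)) ∈ R)
    (hsq : ∀ a : H, cm m (a * m * a⁻¹) * cm m (a * m * a⁻¹) ∈ R)
    (h3 : ∀ a e : H, Commute m ((e⁻¹ * (m * (a * m * a⁻¹)) * e) * (e * (m * (a * m * a⁻¹)) * e⁻¹)))
    (hgen : closure ({y : H | ∃ z, y = z * z} ∪ {l} ∪ (normalClosure {m} : Set H)) = ⊤) :
    ∀ g, cm m (g * m * g⁻¹) ∈ R := by
  have htop : Subgroup.map (QuotientGroup.mk' R) ⊤ = ⊤ :=
    Subgroup.map_top_of_surjective _ (QuotientGroup.mk'_surjective R)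
  have hq : ∀ x : H, x ∈ R → ((x : H) : H ⧸ R) = 1 := fun x hx => (QuotientGroup.eq_one_iff _).2 hx
  have key := AlgE_class2 (m := ((m : H) : H ⧸ R)) (l := ((l : H) : H ⧸ R))
    (congrArg (QuotientGroup.mk (s := R)) hl)
    (by
      intro a b c
      obtain ⟨a, rfl⟩ := QuotientGroup.mk_surjective a
      obtain ⟨b, rfl⟩ := QuotientGroup.mk_surjective b
      obtain ⟨c, rfl⟩ := QuotientGroup.mk_surjective c
      exact comm_of_cm (x := ((c * m * c⁻¹ : H) : H ⧸ R))
        (g := ((cm (a * m * a⁻¹) (b * m * b⁻¹) : H) : H ⧸ R)) (hq _ (hcent a b c)))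
    (by
      intro a
      obtain ⟨a, rfl⟩ := QuotientGroup.mk_surjective a
      exact hq _ (hsq a))
    (by
      intro a e
      obtain ⟨a, rfl⟩ := QuotientGroup.mk_surjective a
      obtain ⟨e, rfl⟩ := QuotientGroup.mk_surjective e
      exact (h3 a e).map (QuotientGroup.mk' R))
    (by
      rw [eq_top_iff, ← htop, ← hgen, Subgroup.map_le_iff_le_comap, closure_le]
      have hle : normalClosure {m} ≤
          (normalClosure {((m : H) : H ⧸ R)}).comap (QuotientGroup.mk' R) := by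
        apply normalClosure_le_normal
        intro z hz
        rw [Set.mem_singleton_iff] at hz
        subst hz
        exact subset_normalClosure rfl
      rintro y ((⟨z, rfl⟩ | hy) | hy)
      · exact subset_closure (Or.inl (Or.inl ⟨(z : H ⧸ R), rfl⟩))
      · rw [Set.mem_singleton_iff.1 hy]
        exact subset_closure (Or.inl (Or.inr rfl))
      · exact subset_closure (Or.inr (hle hy)))
  intro g
  have := cm_of_comm (key (g : H ⧸ R))
  exact (QuotientGroup.eq_one_iff _).1 this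

end classTwo

/-! ## step 1: `m² = 1` -/

section stepOne

variable {H : Type u} [Group H]

/-- the conjugates of `m` -/
def Cj (m : H) : Set H := {x | ∃ g, x = g * m * g⁻¹}

theorem Cj_conj {m x : H} (hx : x ∈ Cj m) (g : H) : g * x * g⁻¹ ∈ Cj m := by
  obtain ⟨k, rfl⟩ := hx
  exact ⟨g * k, by group⟩

theorem Cj_conj' {m x : H} (hx : x ∈ Cj m) (g : H) : g⁻¹ * x * g ∈ Cj m := by
  have := Cj_conj hx g⁻¹
  rwa [inv_inv] at this

/-- the centralizer of the conjugates -/
def AlgE_Z1 (m : H) : Subgroup H where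
  carrier := {z | ∀ x ∈ Cj m, Commute x z}
  one_mem' := fun _ _ => Commute.one_right _
  mul_mem' := fun ha hb x hx => (ha x hx).mul_right (hb x hx)
  inv_mem' := fun ha x hx => (ha x hx).inv_right

theorem commute_conj {x z : H} (h : Commute x z) (g : H) : Commute (g * x * g⁻¹) (g * z * g⁻¹) := by
  have := h.map (MulAut.conj g).toMonoidHom
  simpa only [MulEquiv.toMonoidHom_eq_coe, MonoidHom.coe_coe, MulAut.conj_apply] using this

instance AlgE_Z1_normal (m : H) : (AlgE_Z1 m).Normal := by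
  constructor
  intro z hz g x hx
  have h1 := commute_conj (hz _ (Cj_conj' hx g)) g
  have e1 : g * (g⁻¹ * x * g) * g⁻¹ = x := by group
  rwa [e1] at h1

instance AlgE_Z2_normal (m : H) : (AlgD_right (AlgE_Z1 m) (Cj m)).Normal := by
  constructor
  intro z hz g x hx
  have h1 := (AlgE_Z1_normal m).conj_mem _ (hz _ (Cj_conj' hx g)) g
  have e1 : g * cm (g⁻¹ * x * g) z * g⁻¹ = cm x (g * z * g⁻¹) := by unfold cm; group
  rwa [e1] at h1

theorem AlgE_star {m : H}
    (h3 : ∀ a e : H, Commute m ((e⁻¹ * (m * (a * m * a⁻¹)) * e) * (e * (m * (a * m * a⁻¹)) * e⁻¹)))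
    {x w : H} (hx : x ∈ Cj m) (hw : w ∈ Cj m) (e : H) :
    Commute x ((e⁻¹ * x * e) * w * (e * x * e⁻¹) * (e * e * w * (e * e)⁻¹)) := by
  obtain ⟨g, rfl⟩ := hx
  obtain ⟨k, rfl⟩ := hw
  have h1 := commute_conj (h3 (g⁻¹ * e * k) (g⁻¹ * e * g)) g
  have e1 : g * ((g⁻¹ * e * g)⁻¹ * (m * (g⁻¹ * e * k * m * (g⁻¹ * e * k)⁻¹)) * (g⁻¹ * e * g) *
      (g⁻¹ * e * g * (m * (g⁻¹ * e * k * m * (g⁻¹ * e * k)⁻¹)) * (g⁻¹ * e * g)⁻¹)) * g⁻¹
      = (e⁻¹ * (g * m * g⁻¹) * e) * (k * m * k⁻¹) * (e * (g * m * g⁻¹) * e⁻¹) * (e * e * (k * m * k⁻¹) * (e * e)⁻¹) := by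
    group
  rwa [e1] at h1

/-- **Step 1.** -/
theorem AlgE_step1 {m l : H} (hm : m * m = 1) (hl : l * m = m * l)
    (h3 : ∀ a e : H, Commute m ((e⁻¹ * (m * (a * m * a⁻¹)) * e) * (e * (m * (a * m * a⁻¹)) * e⁻¹)))
    (hgen : closure ({y : H | ∃ z, y = z * z} ∪ {l} ∪ (normalClosure {m} : Set H)) = ⊤) :
    ∀ g, Commute m (g * m * g⁻¹) := by
  have hsq : ∀ x ∈ Cj m, x * x = 1 := by
    rintro x ⟨g, rfl⟩
    have : g * m * g⁻¹ * (g * m * g⁻¹) = g * (m * m) * g⁻¹ := by group
    rw [this, hm]; group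
  have hinv : ∀ x ∈ Cj m, x⁻¹ = x := fun x hx => inv_eq_of_mul_eq_one_left (hsq x hx)
  let Q : H → H → Prop := fun x g => Commute x (g * x * g⁻¹)
  have q_inv : ∀ x g, Q x g → Q x g⁻¹ := by
    intro x g h
    have h1 := commute_conj h g⁻¹
    have e1 : g⁻¹ * (g * x * g⁻¹) * g⁻¹⁻¹ = x := by group
    rw [e1] at h1
    exact h1.symm
  have q_one : ∀ x ∈ Cj m, ∀ w ∈ Cj m, Q x w := by
    intro x hx w hw
    have h1 := AlgE_star h3 hx hw 1
    have e1 : (1⁻¹ * x * 1) * w * (1 * x * 1⁻¹) * (1 * 1 * w * (1 * 1)⁻¹) = x * (w * x * w) := by group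
    rw [e1] at h1
    have h2 : Commute x (w * x * w) := by
      have := (Commute.refl x).inv_right.mul_right h1
      rwa [inv_mul_cancel_left] at this
    change Commute x (w * x * w⁻¹)
    rwa [hinv w hw]
  have q_two : ∀ x ∈ Cj m, ∀ w ∈ Cj m, ∀ z ∈ Cj m, Q x (w * z) := by
    intro x hx w hw z hz
    have h1 := AlgE_star h3 hx hw z
    have hz2 := hsq z hz
    have e1 : (z⁻¹ * x * z) * w * (z * x * z⁻¹) * (z * z * w * (z * z)⁻¹)
        = (z * x * z⁻¹) * (w * (z * x * z⁻¹) * w) := by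
      rw [hz2, hinv z hz]; group
    rw [e1] at h1
    have h2 : Commute x (w * (z * x * z⁻¹) * w) := by
      have := (q_one x hx z hz).inv_right.mul_right h1
      rwa [inv_mul_cancel_left] at this
    change Commute x (w * z * x * (w * z)⁻¹)
    have e2 : w * z * x * (w * z)⁻¹ = w * (z * x * z⁻¹) * w⁻¹ := by group
    rw [e2]
    rwa [hinv w hw]
  have q_sq : ∀ x ∈ Cj m, ∀ e g, Q x e → Q x g → Q x (e * e * g) := by
    intro x hx e g he hg
    have h1 := AlgE_star h3 hx (Cj_conj hx g) e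
    have he' : Commute x (e⁻¹ * x * e) := by
      have := q_inv x e he
      change Commute x (e⁻¹ * x * e⁻¹⁻¹) at this
      rwa [inv_inv] at this
    have h2 : Commute x (e * e * (g * x * g⁻¹) * (e * e)⁻¹) := by
      have h4 := ((he'.mul_right hg).mul_right he).inv_right.mul_right h1
      rwa [inv_mul_cancel_left] at h4
    have e2 : e * e * (g * x * g⁻¹) * (e * e)⁻¹ = e * e * g * x * (e * e * g)⁻¹ := by group
    rwa [e2] at h2
  let D : Subgroup H := closure {c | ∃ y ∈ Cj m, ∃ z ∈ Cj m, c = cm y z}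
  have hDn : ∀ d ∈ D, ∀ w, w * d * w⁻¹ ∈ D := by
    intro d hd w
    refine Subgroup.closure_induction (p := fun d _ => w * d * w⁻¹ ∈ D) ?_ ?_ ?_ ?_ hd
    · rintro c ⟨y, hy, z, hz, rfl⟩
      refine subset_closure ⟨w * y * w⁻¹, Cj_conj hy w, w * z * w⁻¹, Cj_conj hz w, ?_⟩
      unfold cm; group
    · rw [mul_one, mul_inv_cancel]; exact one_mem _
    · intro a b _ _ ha hb
      have : w * (a * b) * w⁻¹ = (w * a * w⁻¹) * (w * b * w⁻¹) := by group
      rw [this]; exact mul_mem ha hb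
    · intro a _ ha
      have : w * a⁻¹ * w⁻¹ = (w * a * w⁻¹)⁻¹ := by group
      rw [this]; exact inv_mem ha
  have q_D : ∀ x ∈ Cj m, ∀ d ∈ D, ∀ g, Q x g → Q x (d * g) := by
    intro x hx d hd
    have hc : ∀ y ∈ Cj m, ∀ z ∈ Cj m, ∀ g, Q x g → Q x (cm y z * g) := by
      intro y hy z hz g hg
      have h1 := q_sq x hx (y * z) g (q_two x hx y hy z hz) hg
      have e1 : cm y z = y * z * (y * z) := by
        unfold cm
        rw [hinv y hy, hinv z hz]; group
      rwa [e1]
    have key : ∀ g, (Q x g → Q x (d * g)) ∧ (Q x g → Q x (d⁻¹ * g)) := by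
      refine Subgroup.closure_induction
        (p := fun d _ => ∀ g, (Q x g → Q x (d * g)) ∧ (Q x g → Q x (d⁻¹ * g))) ?_ ?_ ?_ ?_ hd
      · rintro c ⟨y, hy, z, hz, rfl⟩ g
        refine ⟨hc y hy z hz g, fun hg => ?_⟩
        have e1 : (cm y z)⁻¹ = cm z y := by unfold cm; group
        rw [e1]
        exact hc z hz y hy g hg
      · intro g
        rw [inv_one, one_mul]
        exact ⟨id, id⟩
      · intro a b _ _ ha hb g
        refine ⟨fun hg => ?_, fun hg => ?_⟩
        · rw [mul_assoc]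
          exact (ha _).1 ((hb _).1 hg)
        · rw [mul_inv_rev, mul_assoc]
          exact (hb _).2 ((ha _).2 hg)
      · intro a _ ha g
        rw [inv_inv]
        exact ⟨(ha g).2, (ha g).1⟩
    exact fun g hg => (key g).1 hg
  have six : ∀ x ∈ Cj m, ∀ w ∈ Cj m, ∀ e, Q x e → Q x (w * e) → Commute x (cm w (e * e)) := by
    intro x hx w hw e he hwe
    have h1 := AlgE_star h3 hx hw e
    have he' : Commute x (e⁻¹ * x * e) := by
      have := q_inv x e he
      change Commute x (e⁻¹ * x * e⁻¹⁻¹) at this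
      rwa [inv_inv] at this
    have e1 : (e⁻¹ * x * e) * w * (e * x * e⁻¹) * (e * e * w * (e * e)⁻¹)
        = ((e⁻¹ * x * e) * (w * e * x * (w * e)⁻¹)) * (w * (e * e * w * (e * e)⁻¹)) := by group
    rw [e1] at h1
    have h2 : Commute x (w * (e * e * w * (e * e)⁻¹)) := by
      have h4 := (he'.mul_right hwe).inv_right.mul_right h1
      rwa [inv_mul_cancel_left] at h4
    have e2 : cm w (e * e) = w * (e * e * w * (e * e)⁻¹) := by
      unfold cm
      rw [hinv w hw]; group
    rwa [e2]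
  have seven : ∀ w ∈ Cj m, ∀ d ∈ D, cm w (d * d) ∈ AlgE_Z1 m := by
    intro w hw d hd x hx
    have hx1 : Q x 1 := by
      change Commute x (1 * x * 1⁻¹)
      have : 1 * x * 1⁻¹ = x := by group
      rw [this]
    refine six x hx w hw d ?_ ?_
    · have := q_D x hx d hd 1 hx1
      rwa [mul_one] at this
    · have := q_D x hx _ (hDn d hd w) w (q_one x hx w hw)
      have e1 : w * d * w⁻¹ * w = w * d := by group
      rwa [e1] at this
  have eight : ∀ w ∈ Cj m, ∀ d ∈ D, ∀ y ∈ Cj m, cm w (d * (y * d * y⁻¹)) ∈ AlgE_Z1 m := by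
    intro w hw d hd y hy x hx
    have h1 := six x hx w hw (d * y) (q_D x hx d hd y (q_one x hx y hy)) (by
      have := q_D x hx _ (hDn d hd w) (w * y) (q_two x hx w hw y hy)
      have e1 : w * d * w⁻¹ * (w * y) = w * (d * y) := by group
      rwa [e1] at this)
    have e2 : d * y * (d * y) = d * (y * d * y⁻¹) := by
      rw [hinv y hy]; group
    rwa [e2] at h1
  have nine : ∀ y ∈ Cj m, ∀ d ∈ D, cm y d ∈ AlgD_right (AlgE_Z1 m) (Cj m) := by
    intro y hy d hd
    have a1 : d * d ∈ AlgD_right (AlgE_Z1 m) (Cj m) := fun w hw => seven w hw d hd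
    have a2 : d * (y * d * y⁻¹) ∈ AlgD_right (AlgE_Z1 m) (Cj m) := fun w hw => eight w hw d hd y hy
    have a3 := (AlgE_Z2_normal m).conj_mem _ (mul_mem (inv_mem a1) a2) d
    have e1 : d * ((d * d)⁻¹ * (d * (y * d * y⁻¹))) * d⁻¹ = cm y d := by unfold cm; group
    rwa [e1] at a3
  have hDc : ∀ a b : H, cm (a * m * a⁻¹) (b * m * b⁻¹) ∈ D := fun a b =>
    subset_closure ⟨_, ⟨a, rfl⟩, _, ⟨b, rfl⟩, rfl⟩
  -- the squares of the commutators
  have hsq2 : ∀ (R : Subgroup H) [R.Normal], (∀ a b c : H, cm (c * m * c⁻¹) (cm (a * m * a⁻¹) (b * m * b⁻¹)) ∈ R) →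
      ∀ a : H, cm m (a * m * a⁻¹) * cm m (a * m * a⁻¹) ∈ R := by
    intro R _ h a
    have h1 := h 1 a 1
    have e0 : (1 : H) * m * 1⁻¹ = m := by group
    rw [e0] at h1
    have e1 : cm m (a * m * a⁻¹) * cm m (a * m * a⁻¹)
        = (cm m (cm m (a * m * a⁻¹)))⁻¹ * cm (m * m) (a * m * a⁻¹) := by
      unfold cm; group
    have e2 : cm (m * m) (a * m * a⁻¹) = 1 := by
      rw [hm]; unfold cm; group
    rw [e1, e2, mul_one]
    exact inv_mem h1
  have hconj : ∀ (R : Subgroup H) [R.Normal], (∀ g, cm m (g * m * g⁻¹) ∈ R) →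
      ∀ a b : H, cm (a * m * a⁻¹) (b * m * b⁻¹) ∈ R := by
    intro R hR h a b
    have h1 := hR.conj_mem _ (h (a⁻¹ * b)) a
    have e1 : a * cm m (a⁻¹ * b * m * (a⁻¹ * b)⁻¹) * a⁻¹ = cm (a * m * a⁻¹) (b * m * b⁻¹) := by
      unfold cm; group
    rwa [e1] at h1
  have c2 : ∀ a b c : H, cm (c * m * c⁻¹) (cm (a * m * a⁻¹) (b * m * b⁻¹)) ∈ AlgD_right (AlgE_Z1 m) (Cj m) :=
    fun a b c => nine _ ⟨c, rfl⟩ _ (hDc a b)
  have r2 := AlgE_class2R (AlgD_right (AlgE_Z1 m) (Cj m)) hl c2 (hsq2 _ c2) h3 hgen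
  have c1 : ∀ a b c : H, cm (c * m * c⁻¹) (cm (a * m * a⁻¹) (b * m * b⁻¹)) ∈ AlgE_Z1 m :=
    fun a b c => hconj _ r2 a b _ ⟨c, rfl⟩
  have r1 := AlgE_class2R (AlgE_Z1 m) hl c1 (hsq2 _ c1) h3 hgen
  have c0 : ∀ a b c : H, cm (c * m * c⁻¹) (cm (a * m * a⁻¹) (b * m * b⁻¹)) ∈ (⊥ : Subgroup H) := by
    intro a b c
    rw [mem_bot]
    exact cm_of_comm (hconj _ r1 a b _ ⟨c, rfl⟩)
  have r0 := AlgE_class2R (⊥ : Subgroup H) hl c0 (hsq2 _ c0) h3 hgen
  intro g
  exact comm_of_cm ((mem_bot).1 (r0 g))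

end stepOne

/-! ## step 2 -/

section moduleLemma

variable {P V C : Type*} [CommRing P] [AddCommGroup V] [Module P V]

theorem AlgE_mod (n : C → P) (br : C → C → V)
    (h2 : ∀ x y, (2 : P) • br x y = 0)
    (hnn : ∀ x y z, (n x * n x) • br y z = 0)
    (hb : ∀ x y, n x • br x y = n y • br x y)
    (hJ : ∀ x y z, n x • br y z + n y • br x z + n z • br x y = 0)
    (hR : ∀ x y z w, (n x * (n y + n z + n y * n z) + n x * n w + n w * (n y + n z + n y * n z)) •
      (br x y + (1 + n y) • br x z) = 0)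
    (w x y z : C) : (n w * n x) • br y z = 0 := by
  have g1 : ∀ x y z w, (n y * n z) • (br x y + br x z) +
      n w • ((n z * (1 + n y)) • br x y + (n y * (1 + n z)) • br x z) = 0 := by
    intro x y z w
    have k := hR x y z w
    have k1 := hb x y
    have k2 := hb x z
    have s1 := hnn y x y
    have s2 := hnn z x z
    have s3 := hnn y x z
    have t1 := h2 x y
    have t2 := h2 x z
    generalize br x y = u at *
    generalize br x z = v at *
    generalize n x = a at *
    generalize n y = b at *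
    generalize n z = c at *
    generalize n w = d at *
    linear_combination (norm := module) k - (b + c + b * c + d) • k1 - ((b + c + b * c + d) * (1 + b)) • k2
      - (1 + c) • s1 - ((1 + b) * (1 + b)) • s2 - (c + d + d * c) • s3 - (b * d) • t1
      - (c * d * (1 + b)) • t2
  have g2 : ∀ x y z, (n y * n z) • br x z = 0 := by
    intro x y z
    have k := g1 x y z y
    have s1 := hnn y x y
    have s3 := hnn y x z
    have t1 := h2 x y
    generalize br x y = u at *
    generalize br x z = v at *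
    generalize n y = b at *
    generalize n z = c at *
    linear_combination (norm := module) k - c • s1 - (1 + c) • s3 - (b * c) • t1
  have g3 : ∀ x y z w, n w • (n z • br x y + n y • br x z) = 0 := by
    intro x y z w
    have k := g1 x y z w
    have p1 := g2 x y z
    have p2 := g2 x z y
    generalize br x y = u at *
    generalize br x z = v at *
    generalize n y = b at *
    generalize n z = c at *
    generalize n w = d at *
    linear_combination (norm := module) k - (1 + d) • p1 - (1 + d) • p2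
  have k := g3 x y z w
  have j := hJ x y z
  linear_combination (norm := module) n w • j - k

end moduleLemma

section stepTwo

/-- commutators of elements of the normal closure of `m` lie in `R` if those of the conjugates do -/
theorem AlgE_ncR {H : Type*} [Group H] {m : H} (R : Subgroup H) [R.Normal]
    (h : ∀ a b : H, cm (a * m * a⁻¹) (b * m * b⁻¹) ∈ R) {x y : H} (hx : x ∈ normalClosure {m})
    (hy : y ∈ normalClosure {m}) : cm x y ∈ R := by
  have hc : ∀ a b : H, Commute (((a * m * a⁻¹ : H) : H ⧸ R)) (((b * m * b⁻¹ : H) : H ⧸ R)) := fun a b =>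
    comm_of_cm (x := ((a * m * a⁻¹ : H) : H ⧸ R)) (g := ((b * m * b⁻¹ : H) : H ⧸ R))
      ((QuotientGroup.eq_one_iff _).2 (h a b))
  have h1 : ∀ b : H, ∀ x ∈ normalClosure {m}, Commute ((x : H) : H ⧸ R) (((b * m * b⁻¹ : H) : H ⧸ R)) := by
    intro b x hx
    refine Subgroup.closure_induction (p := fun x _ => Commute ((x : H) : H ⧸ R) (((b * m * b⁻¹ : H) : H ⧸ R)))
      ?_ ?_ ?_ ?_ hx
    · intro y hy
      rw [Group.mem_conjugatesOfSet_iff] at hy
      obtain ⟨z, hz, hzy⟩ := hy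
      rw [Set.mem_singleton_iff.1 hz] at hzy
      obtain ⟨g, rfl⟩ := isConj_iff.1 hzy
      exact hc g b
    · exact Commute.one_left _
    · intro a b _ _ ha hb
      exact ha.mul_left hb
    · intro a _ ha
      exact ha.inv_left
  have h2 : Commute ((x : H) : H ⧸ R) ((y : H) : H ⧸ R) := by
    refine Subgroup.closure_induction (p := fun y _ => Commute ((x : H) : H ⧸ R) ((y : H) : H ⧸ R))
      ?_ ?_ ?_ ?_ hy
    · intro y hy
      rw [Group.mem_conjugatesOfSet_iff] at hy
      obtain ⟨z, hz, hzy⟩ := hy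
      rw [Set.mem_singleton_iff.1 hz] at hzy
      obtain ⟨g, rfl⟩ := isConj_iff.1 hzy
      exact h1 g x hx
    · exact Commute.one_right _
    · intro a b _ _ ha hb
      exact ha.mul_right hb
    · intro a _ ha
      exact ha.inv_right
  exact (QuotientGroup.eq_one_iff _).1 (cm_of_comm (x := ((x : H) : H ⧸ R)) (g := ((y : H) : H ⧸ R)) h2)

variable {H : Type*} [Group H] {A : Type*} [CommGroup A]

/-- **Step 2.** `A` is the commutative normal subgroup which contains the commutators and the squares. -/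
theorem AlgE_step2 {m : H} (ι : A →* H) (hι : Function.Injective ι) (act : H →* MulAut A)
    (hact : ∀ g a, ι (act g a) = g * ι a * g⁻¹)
    (hcm : ∀ a b : H, ∃ v, ι v = cm (a * m * a⁻¹) (b * m * b⁻¹)) (hmm : ∃ v, ι v = m * m)
    (h1 : ∀ a e : H, Commute (m * (a * m * a⁻¹)) (e * (m * (a * m * a⁻¹)) * e⁻¹))
    (h3 : ∀ a e : H, Commute m ((e⁻¹ * (m * (a * m * a⁻¹)) * e) * (e * (m * (a * m * a⁻¹)) * e⁻¹))) :
    (∀ a : H, cm m (a * m * a⁻¹) * cm m (a * m * a⁻¹) = 1) ∧
    ∀ a b c d : H, cm (d * m * d⁻¹) (cm (c * m * c⁻¹) (cm (a * m * a⁻¹) (b * m * b⁻¹))) = 1 := by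
  have hRn : ι.range.Normal := by
    constructor
    rintro _ ⟨a, rfl⟩ g
    exact ⟨act g a, hact g a⟩
  have hbr0 : ∀ x y : normalClosure {m}, ∃ v : Additive A, ι v.toMul = cm (x : H) (y : H) := by
    intro x y
    exact AlgE_ncR ι.range hcm x.2 y.2
  choose br hbr using hbr0
  let V := Additive A
  let rho : H → Module.End ℤ V := fun g => (MonoidHom.toAdditive (act g).toMonoidHom).toIntLinearMap
  have hrho : ∀ g (v : V), ι ((rho g v).toMul) = g * ι v.toMul * g⁻¹ := fun g v => hact g v.toMul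
  have hV : ∀ v w : V, ι v.toMul = ι w.toMul → v = w := fun v w h => hι h
  have hadd : ∀ v w : V, ι ((v + w).toMul) = ι v.toMul * ι w.toMul := fun v w => map_mul ι v.toMul w.toMul
  have hzero : ι ((0 : V).toMul) = 1 := map_one ι
  have hneg : ∀ v : V, ι ((-v).toMul) = (ι v.toMul)⁻¹ := fun v => map_inv ι v.toMul
  have rho_mul : ∀ g k, rho (g * k) = rho g * rho k := by
    intro g k
    refine LinearMap.ext fun v => hV _ _ ?_
    rw [Module.End.mul_apply, hrho, hrho, hrho]; group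
  have rho_one : rho 1 = 1 := by
    refine LinearMap.ext fun v => hV _ _ ?_
    rw [hrho, Module.End.one_apply]; group
  have rho_V : ∀ v w : V, rho (ι v.toMul) w = w := by
    intro v w
    apply hV
    rw [hrho, ← map_mul, mul_comm, map_mul]; group
  have rho_comm : ∀ x y : normalClosure {m}, rho x * rho y = rho y * rho x := by
    intro x y
    have h4 : (x : H) * y = ι (br x y).toMul * (y * x) := by
      rw [hbr]; unfold cm; group
    rw [← rho_mul, h4, rho_mul, ← rho_mul (y : H)]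
    refine LinearMap.ext fun v => ?_
    rw [Module.End.mul_apply, rho_V]
  let Gn : Set (Module.End ℤ V) := Set.range fun x : normalClosure {m} => rho x
  let P := Algebra.adjoin ℤ Gn
  have hcomm := Algebra.isMulCommutative_adjoin ℤ (s := Gn) (by
    rintro _ ⟨x, rfl⟩ _ ⟨y, rfl⟩
    exact rho_comm x y)
  let _ : CommRing P := { (inferInstance : Ring P) with mul_comm := fun a b => hcomm.is_comm.comm a b }
  let X : normalClosure {m} → P := fun x => ⟨rho x, Algebra.subset_adjoin ⟨x, rfl⟩⟩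
  have X_smul : ∀ (x : normalClosure {m}) (v : V), X x • v = rho x v := fun x v => rfl
  have X_mul : ∀ x y : normalClosure {m}, X (x * y) = X x * X y := by
    intro x y
    apply Subtype.ext
    exact rho_mul x y
  have X_one : X 1 = 1 := Subtype.ext rho_one
  have P_ext : ∀ p q : P, (∀ v : V, p • v = q • v) → p = q := by
    intro p q h
    apply Subtype.ext
    exact LinearMap.ext h
  -- the crossed homomorphisms
  have B1 : ∀ x y z : normalClosure {m}, br x (y * z) = br x y + X y • br x z := by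
    intro x y z
    apply hV
    rw [hadd, X_smul, hrho, hbr, hbr, hbr]
    exact cm_mul _ _ _
  have B2 : ∀ x y z : normalClosure {m}, br (x * y) z = X x • br y z + br x z := by
    intro x y z
    apply hV
    rw [hadd, X_smul, hrho, hbr, hbr, hbr]
    change cm ((x : H) * y) z = _
    unfold cm; group
  have B3 : ∀ x : normalClosure {m}, br x x = 0 := by
    intro x
    apply hV
    rw [hbr, hzero]; unfold cm; group
  have B4 : ∀ x : normalClosure {m}, br x 1 = 0 := by
    intro x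
    apply hV
    rw [hbr, hzero]
    change cm (x : H) 1 = 1
    unfold cm; group
  have B5 : ∀ x y : normalClosure {m}, br y x = - br x y := by
    intro x y
    apply hV
    rw [hneg, hbr, hbr]; unfold cm; group
  -- commutators with elements of `V`
  have B6 : ∀ (x : normalClosure {m}) (v : V), cm (x : H) (ι v.toMul) = ι ((X x - 1) • v).toMul := by
    intro x v
    rw [sub_smul, one_smul, sub_eq_add_neg, hadd, hneg, X_smul, hrho]
    unfold cm; group
  have hm1 : m ∈ normalClosure {m} := subset_normalClosure (Set.mem_singleton m)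
  let c : H → normalClosure {m} := fun g => ⟨g * m * g⁻¹, AlgE_mem_nc m g⟩
  -- squares act trivially
  have hXX : ∀ g, X (c g) * X (c g) = 1 := by
    intro g
    apply P_ext
    intro v
    obtain ⟨s, hs⟩ := hmm
    rw [← X_mul, X_smul, one_smul]
    have e1 : ((c g * c g : normalClosure {m}) : H) = ι (act g s) := by
      rw [hact, hs]
      change g * m * g⁻¹ * (g * m * g⁻¹) = g * (m * m) * g⁻¹
      group
    rw [e1]
    exact rho_V (Additive.ofMul (act g s)) v
  -- relation `h1` and `h3` for conjugates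
  have R1 : ∀ g k, ((X (c g) * X (c k) - 1) * X (c g)) • br (c g) (c k) = 0 := by
    intro g k
    have h4 := commute_conj (h1 (g⁻¹ * k) m) g
    have e1 : g * (m * (g⁻¹ * k * m * (g⁻¹ * k)⁻¹)) * g⁻¹ = (c g * c k : normalClosure {m}) := by
      change _ = g * m * g⁻¹ * (k * m * k⁻¹)
      group
    have e2 : g * (m * (m * (g⁻¹ * k * m * (g⁻¹ * k)⁻¹)) * m⁻¹) * g⁻¹
        = (c g * (c g * c k) * (c g)⁻¹ : normalClosure {m}) := by
      change _ = g * m * g⁻¹ * (g * m * g⁻¹ * (k * m * k⁻¹)) * (g * m * g⁻¹)⁻¹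
      group
    rw [e1, e2] at h4
    have h5 : cm ((c g * c k : normalClosure {m}) : H) (ι (br (c g) (c g * c k)).toMul) = 1 := by
      rw [hbr]
      have e3 : cm ((c g : normalClosure {m}) : H) ((c g * c k : normalClosure {m}) : H)
          = (c g * (c g * c k) * (c g)⁻¹ : normalClosure {m}) * ((c g * c k : normalClosure {m}) : H)⁻¹ := by
        unfold cm; rfl
      rw [e3]
      exact cm_of_comm (h4.mul_right (Commute.refl _).inv_right)
    rw [B6, B1, B3, zero_add] at h5
    have h6 := hV _ (0 : V) (h5.trans hzero.symm)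
    rw [X_mul, smul_smul] at h6
    exact h6
  have R3 : ∀ g k, ∀ e : normalClosure {m}, br (c g) (e⁻¹ * (c g * e) * (c k * (e * (c g * e⁻¹) * (e * e * (c k * (e * e)⁻¹))))) = 0 := by
    intro g k e
    apply hV
    rw [hbr, hzero]
    apply cm_of_comm
    have h4 := AlgE_star h3 (x := g * m * g⁻¹) (w := k * m * k⁻¹) ⟨g, rfl⟩ ⟨k, rfl⟩ (e : H)
    have e1 : ((e⁻¹ * (c g * e) * (c k * (e * (c g * e⁻¹) * (e * e * (c k * (e * e)⁻¹)))) : normalClosure {m}) : H)
        = (e : H)⁻¹ * (g * m * g⁻¹) * e * (k * m * k⁻¹) * (e * (g * m * g⁻¹) * (e : H)⁻¹) *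
          (e * e * (k * m * k⁻¹) * ((e : H) * e)⁻¹) := by
      change (e : H)⁻¹ * (g * m * g⁻¹ * e) * (k * m * k⁻¹ * (e * (g * m * g⁻¹ * (e : H)⁻¹) * (e * e * (k * m * k⁻¹ * ((e : H) * e)⁻¹)))) = _
      group
    rw [e1]
    exact h4
  -- `2 [x, y] = 0`, `X [x, y] = Y [x, y]`
  have R3' : ∀ g k, ((1 + X (c g) * X (c k)) * X (c g)) • br (c g) (c k) = 0 := by
    intro g k
    have h4 := R3 g k 1
    have e1 : (1⁻¹ * (c g * 1) * (c k * (1 * (c g * 1⁻¹) * (1 * 1 * (c k * (1 * 1)⁻¹)))) : normalClosure {m})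
        = (c g * c k) * (c g * c k) := by group
    rw [e1, B1, B1, B3, X_mul] at h4
    linear_combination (norm := module) h4
  have h2 : ∀ g k, (2 : P) • br (c g) (c k) = 0 := by
    intro g k
    have k1 := R1 g k
    have k2 := R3' g k
    have k3 := hXX g
    have k4 : (X (c g) * X (c g)) • br (c g) (c k) = br (c g) (c k) := by rw [k3, one_smul]
    linear_combination (norm := module) X (c g) • k2 - X (c g) • k1 - (2 : P) • k4
  have hXY : ∀ g k, X (c g) • br (c g) (c k) = X (c k) • br (c g) (c k) := by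
    intro g k
    have k1 := R1 g k
    have k4 : (X (c g) * X (c g)) • br (c g) (c k) = br (c g) (c k) := by rw [hXX, one_smul]
    linear_combination (norm := module) -k1 + X (c k) • k4
  have hX2 : ∀ g, ∀ v : V, (X (c g) * X (c g)) • v = v := fun g v => by rw [hXX, one_smul]
  have main : ∀ w x y z, ((X (c w) - 1) * (X (c x) - 1)) • br (c y) (c z) = 0 := by
    refine AlgE_mod (fun g => X (c g) - 1) (fun g k => br (c g) (c k)) h2 ?_ ?_ ?_ ?_
    · intro x y z
      have k1 := hX2 x (br (c y) (c z))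
      have k2 := h2 y z
      linear_combination (norm := module) k1 + (1 - X (c x)) • k2
    · intro x y
      have k1 := hXY x y
      linear_combination (norm := module) k1
    · intro x y z
      -- Jacobi
      have j1 : (X (c x) - 1) • br (c y) (c z) - (X (c y) - 1) • br (c x) (c z) + (X (c z) - 1) • br (c x) (c y) = 0 := by
        have q1 := B2 (c x) (c y) (c z)
        have q2 := B2 (c y) (c x) (c z)
        have q3 := B2 (c x * c y * (c x)⁻¹ * (c y)⁻¹) (c y * c x) (c z)
        have q4 : c x * c y * (c x)⁻¹ * (c y)⁻¹ * (c y * c x) = c x * c y := by group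
        have q5 : X (c x * c y * (c x)⁻¹ * (c y)⁻¹) = 1 := by
          apply P_ext
          intro v
          rw [X_smul, one_smul]
          have e1 : ((c x * c y * (c x)⁻¹ * (c y)⁻¹ : normalClosure {m}) : H) = ι (br (c x) (c y)).toMul := by
            rw [hbr]; rfl
          rw [e1]
          exact rho_V _ v
        have q6 : br (c z) (c x * c y * (c x)⁻¹ * (c y)⁻¹) = (X (c z) - 1) • br (c x) (c y) := by
          apply hV
          rw [← B6, hbr, hbr]
          rfl
        rw [q4, q5, one_smul, B5 (c z) (c x * c y * (c x)⁻¹ * (c y)⁻¹), q6] at q3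
        linear_combination (norm := module) q3 - q1 + q2
      have k2 := h2 x z
      linear_combination (norm := module) j1 + (X (c y) - 1) • k2
    · intro x y z w
      obtain ⟨e, he⟩ : ∃ e : normalClosure {m}, e = c y * c z := ⟨_, rfl⟩
      have hE : X e = X (c y) * X (c z) := by rw [he]; exact X_mul _ _
      have hEE : X e * X e = 1 := by
        rw [hE]
        linear_combination (X (c z) * X (c z)) * hXX y + hXX z
      have hE' : X e⁻¹ = X e := by
        have k1 : X e * X e⁻¹ = 1 := by rw [← X_mul, mul_inv_cancel, X_one]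
        linear_combination (- X e⁻¹) * hEE + X e * k1
      have hD : br (c x) e = br (c x) (c y) + X (c y) • br (c x) (c z) := by rw [he]; exact B1 _ _ _
      have hEv : ∀ v : V, (X e * X e) • v = v := fun v => by rw [hEE, one_smul]
      have hF := R3 x w e
      have u1 : br (c x) e⁻¹ = - X e • br (c x) e := by
        have k1 := B1 (c x) e⁻¹ e
        rw [inv_mul_cancel, B4, hE'] at k1
        linear_combination (norm := module) -k1
      have u2 : br (c x) (e⁻¹ * (c x * e)) = (X e * (X (c x) - 1)) • br (c x) e := by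
        rw [B1, B1, B3, u1, hE']
        module
      have u3 : br (c x) (e * (c x * e⁻¹)) = (1 - X (c x)) • br (c x) e := by
        rw [B1, B1, B3, u1]
        linear_combination (norm := module) -X (c x) • hEv (br (c x) e)
      have u4 : br (c x) (e * e) = (1 + X e) • br (c x) e := by
        rw [B1]; module
      have u5 : X (e * e) = 1 := by rw [X_mul, hEE]
      have u6 : br (c x) (e * e)⁻¹ = - br (c x) (e * e) := by
        have k1 := B1 (c x) (e * e) (e * e)⁻¹
        rw [mul_inv_cancel, B4, u5, one_smul] at k1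
        linear_combination (norm := module) -k1
      have u7 : br (c x) (e * e * (c w * (e * e)⁻¹)) = ((1 - X (c w)) * (1 + X e)) • br (c x) e + br (c x) (c w) := by
        rw [B1 (c x) (e * e) (c w * (e * e)⁻¹), B1 (c x) (c w) (e * e)⁻¹, u6, u5, u4]; module
      have u8 : X (e⁻¹ * (c x * e)) = X (c x) := by
        rw [X_mul, X_mul, hE']
        linear_combination X (c x) * hEE
      have u9 : X (e * (c x * e⁻¹)) = X (c x) := by
        rw [X_mul, X_mul, hE']
        linear_combination X (c x) * hEE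
      rw [B1 (c x) (e⁻¹ * (c x * e)), B1 (c x) (c w), B1 (c x) (e * (c x * e⁻¹)), u2, u3, u7, u8, u9] at hF
      have h2D : (2 : P) • br (c x) e = 0 := by
        rw [hD]
        linear_combination (norm := module) h2 x y + X (c y) • h2 x z
      have key : ((X (c x) - 1) * (X e - 1) + (X (c x) - 1) * (X (c w) - 1) + (X (c w) - 1) * (X e - 1)) • br (c x) e = 0 := by
        linear_combination (norm := module) hF
          - hX2 x ((X (c w) * (1 - X (c w)) * (1 + X e) - X (c w)) • br (c x) e)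
          - hX2 w (-(1 + X e) • br (c x) e) - hX2 x (X (c w) • br (c x) (c w)) - hXY x w
          - X (c w) • h2 x w + (2 - X (c x) - X (c w)) • h2D
      rw [hD, hE] at key
      linear_combination (norm := module) key
  refine ⟨fun a => ?_, fun a b d w => ?_⟩
  · have k1 := h2 1 a
    have k2 : cm m (a * m * a⁻¹) = ι (br (c 1) (c a)).toMul := by
      rw [hbr]
      change _ = cm (1 * m * 1⁻¹) (a * m * a⁻¹)
      have : 1 * m * 1⁻¹ = m := by group
      rw [this]
    rw [two_smul] at k1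
    rw [k2, ← hadd, k1, hzero]
  · have k1 := main w d a b
    have k2 : cm (a * m * a⁻¹) (b * m * b⁻¹) = ι (br (c a) (c b)).toMul := by
      rw [hbr]
    have k3 := B6 (c d) (br (c a) (c b))
    have k4 := B6 (c w) ((X (c d) - 1) • br (c a) (c b))
    rw [smul_smul, k1, hzero] at k4
    rw [k2]
    change cm ((c w : normalClosure {m}) : H) (cm ((c d : normalClosure {m}) : H) _) = 1
    rw [k3, k4]

/-- **Steps 1 and 2**: the conjugates of `m` commute. -/
theorem AlgE_comm {G : Type u} [Group G] {m l : G} (hl : l * m = m * l)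
    (h1 : ∀ a e : G, Commute (m * (a * m * a⁻¹)) (e * (m * (a * m * a⁻¹)) * e⁻¹))
    (h3 : ∀ a e : G, Commute m ((e⁻¹ * (m * (a * m * a⁻¹)) * e) * (e * (m * (a * m * a⁻¹)) * e⁻¹)))
    (hgen : closure ({y : G | ∃ z, y = z * z} ∪ {l} ∪ (normalClosure {m} : Set G)) = ⊤) :
    ∀ g, Commute m (g * m * g⁻¹) := by
  -- `S`, the normal closure of `m * m`, is commutative
  let S : Subgroup G := normalClosure {m * m}
  have hSn : S.Normal := normalClosure_normal
  have hmm : m * m ∈ S := subset_normalClosure (Set.mem_singleton _)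
  have hS : ∀ u ∈ S, ∀ v ∈ S, u * v = v * u := by
    intro u hu v hv
    refine (AlgC_comm (c := m * m) (fun e => ?_) hu hv).eq
    have := h1 1 e
    have e1 : (1 : G) * m * 1⁻¹ = m := by group
    rwa [e1] at this
  -- step 1 modulo `S`
  have htop : Subgroup.map (QuotientGroup.mk' S) ⊤ = ⊤ :=
    Subgroup.map_top_of_surjective _ (QuotientGroup.mk'_surjective S)
  have s1 := AlgE_step1 (m := ((m : G) : G ⧸ S)) (l := ((l : G) : G ⧸ S))
    ((QuotientGroup.eq_one_iff _).2 hmm)
    (congrArg (QuotientGroup.mk (s := S)) hl)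
    (by
      intro a e
      obtain ⟨a, rfl⟩ := QuotientGroup.mk_surjective a
      obtain ⟨e, rfl⟩ := QuotientGroup.mk_surjective e
      exact (h3 a e).map (QuotientGroup.mk' S))
    (by
      rw [eq_top_iff, ← htop, ← hgen, Subgroup.map_le_iff_le_comap, closure_le]
      have hle : normalClosure {m} ≤
          (normalClosure {((m : G) : G ⧸ S)}).comap (QuotientGroup.mk' S) := by
        apply normalClosure_le_normal
        intro z hz
        rw [Set.mem_singleton_iff] at hz
        subst hz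
        exact subset_normalClosure rfl
      rintro y ((⟨z, rfl⟩ | hy) | hy)
      · exact subset_closure (Or.inl (Or.inl ⟨(z : G ⧸ S), rfl⟩))
      · rw [Set.mem_singleton_iff.1 hy]
        exact subset_closure (Or.inl (Or.inr rfl))
      · exact subset_closure (Or.inr (hle hy)))
  have hcmS : ∀ a b : G, cm (a * m * a⁻¹) (b * m * b⁻¹) ∈ S := by
    intro a b
    have k1 : cm m ((a⁻¹ * b) * m * (a⁻¹ * b)⁻¹) ∈ S :=
      (QuotientGroup.eq_one_iff _).1 (cm_of_comm (s1 ((a⁻¹ * b : G) : G ⧸ S)))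
    have k2 := hSn.conj_mem _ k1 a
    have e1 : a * cm m (a⁻¹ * b * m * (a⁻¹ * b)⁻¹) * a⁻¹ = cm (a * m * a⁻¹) (b * m * b⁻¹) := by
      unfold cm; group
    rwa [e1] at k2
  let _ : CommGroup S :=
    { (inferInstance : Group S) with
      mul_comm := fun a b => Subtype.ext (hS a a.2 b b.2) }
  obtain ⟨t1, t2⟩ := AlgE_step2 (m := m) S.subtype S.subtype_injective (MulAut.conjNormal (H := S))
    (fun g a => MulAut.conjNormal_apply g a)
    (fun a b => ⟨⟨_, hcmS a b⟩, rfl⟩) ⟨⟨_, hmm⟩, rfl⟩ h1 h3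
  -- class 2 twice
  have hconj : ∀ (R : Subgroup G) [R.Normal], (∀ g, cm m (g * m * g⁻¹) ∈ R) →
      ∀ a b : G, cm (a * m * a⁻¹) (b * m * b⁻¹) ∈ R := by
    intro R hR h a b
    have h1 := hR.conj_mem _ (h (a⁻¹ * b)) a
    have e1 : a * cm m (a⁻¹ * b * m * (a⁻¹ * b)⁻¹) * a⁻¹ = cm (a * m * a⁻¹) (b * m * b⁻¹) := by
      unfold cm; group
    rwa [e1] at h1
  have r1 := AlgE_class2R (AlgE_Z1 m) hl
    (by
      rintro a b c _ ⟨d, rfl⟩
      exact comm_of_cm (t2 a b c d))
    (by
      intro a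
      rw [t1 a]; exact one_mem _) h3 hgen
  have r0 := AlgE_class2R (⊥ : Subgroup G) hl
    (by
      intro a b c
      rw [mem_bot]
      exact cm_of_comm (hconj _ r1 a b _ ⟨c, rfl⟩))
    (by
      intro a
      rw [t1 a]; exact one_mem _) h3 hgen
  intro g
  exact comm_of_cm ((mem_bot).1 (r0 g))

/-- **The algebra of steps (1)-(3), no finiteness.** `b = m (a m a⁻¹)`: two parallel strands. -/
theorem AlgE_main {G : Type u} [Group G] (m l : G) (L : Subgroup G) (hm : m ∈ L) (hl : l * m = m * l)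
    (h0 : ∀ a e g : G, g * cm (m * (a * m * a⁻¹)) (e * (m * (a * m * a⁻¹)) * e⁻¹) * g⁻¹ ∈ L)
    (h1 : ∀ a e g : G, g * cm m ((e⁻¹ * (m * (a * m * a⁻¹)) * e) * (e * (m * (a * m * a⁻¹)) * e⁻¹)) * g⁻¹ ∈ L)
    (h3 : ∀ a e : G, (e⁻¹ * (m * (a * m * a⁻¹)) * e) * (e * (m * (a * m * a⁻¹)) * e⁻¹) ∈ L)
    (hgen : closure ({y : G | ∃ z, y = z * z} ∪ {l} ∪ (normalClosure {m} : Set G)) = ⊤) :
    normalClosure {m} ≤ L := by
  let R : Set G := {c | (∃ a e : G, c = cm (m * (a * m * a⁻¹)) (e * (m * (a * m * a⁻¹)) * e⁻¹)) ∨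
    (∃ a e : G, c = cm m ((e⁻¹ * (m * (a * m * a⁻¹)) * e) * (e * (m * (a * m * a⁻¹)) * e⁻¹)))}
  let N : Subgroup G := normalClosure R
  have hN : N.Normal := normalClosure_normal
  have hNL : N ≤ L := by
    change Subgroup.closure _ ≤ _
    rw [closure_le]
    intro z hz
    rw [Group.mem_conjugatesOfSet_iff] at hz
    obtain ⟨y, hy, hyz⟩ := hz
    obtain ⟨c, rfl⟩ := isConj_iff.1 hyz
    rcases hy with ⟨a, e, rfl⟩ | ⟨a, e, rfl⟩
    · exact h0 a e c
    · exact h1 a e c
  have htop : Subgroup.map (QuotientGroup.mk' N) ⊤ = ⊤ :=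
    Subgroup.map_top_of_surjective _ (QuotientGroup.mk'_surjective N)
  have hcore := AlgE_comm (m := ((m : G) : G ⧸ N)) (l := ((l : G) : G ⧸ N))
    (congrArg (QuotientGroup.mk (s := N)) hl)
    (by
      intro a e
      obtain ⟨a, rfl⟩ := QuotientGroup.mk_surjective a
      obtain ⟨e, rfl⟩ := QuotientGroup.mk_surjective e
      exact comm_of_cm (x := ((m * (a * m * a⁻¹) : G) : G ⧸ N))
        (g := ((e * (m * (a * m * a⁻¹)) * e⁻¹ : G) : G ⧸ N))
        ((QuotientGroup.eq_one_iff _).2 (subset_normalClosure (Or.inl ⟨a, e, rfl⟩))))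
    (by
      intro a e
      obtain ⟨a, rfl⟩ := QuotientGroup.mk_surjective a
      obtain ⟨e, rfl⟩ := QuotientGroup.mk_surjective e
      exact comm_of_cm (x := ((m : G) : G ⧸ N))
        (g := (((e⁻¹ * (m * (a * m * a⁻¹)) * e) * (e * (m * (a * m * a⁻¹)) * e⁻¹) : G) : G ⧸ N))
        ((QuotientGroup.eq_one_iff _).2 (subset_normalClosure (Or.inr ⟨a, e, rfl⟩))))
    (by
      rw [eq_top_iff, ← htop, ← hgen, Subgroup.map_le_iff_le_comap, closure_le]
      have hle : normalClosure {m} ≤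
          (normalClosure {((m : G) : G ⧸ N)}).comap (QuotientGroup.mk' N) := by
        apply normalClosure_le_normal
        intro z hz
        rw [Set.mem_singleton_iff] at hz
        subst hz
        exact subset_normalClosure rfl
      rintro y ((⟨z, rfl⟩ | hy) | hy)
      · exact subset_closure (Or.inl (Or.inl ⟨(z : G ⧸ N), rfl⟩))
      · rw [Set.mem_singleton_iff.1 hy]
        exact subset_closure (Or.inl (Or.inr rfl))
      · exact subset_closure (Or.inr (hle hy)))
  have hcmN : ∀ a b : G, cm (a * m * a⁻¹) (b * m * b⁻¹) ∈ N := by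
    intro a b
    have k1 : cm m ((a⁻¹ * b) * m * (a⁻¹ * b)⁻¹) ∈ N :=
      (QuotientGroup.eq_one_iff _).1 (cm_of_comm (hcore ((a⁻¹ * b : G) : G ⧸ N)))
    have k2 := hN.conj_mem _ k1 a
    have e1 : a * cm m (a⁻¹ * b * m * (a⁻¹ * b)⁻¹) * a⁻¹ = cm (a * m * a⁻¹) (b * m * b⁻¹) := by
      unfold cm; group
    rwa [e1] at k2
  have hcomm : ∀ a ∈ normalClosure {m}, ∀ b ∈ normalClosure {m}, a * b * a⁻¹ * b⁻¹ ∈ N :=
    fun a ha b hb => AlgE_ncR N hcmN ha hb
  have hmc := AlgE_mem_nc m
  have hmM : m ∈ normalClosure {m} := subset_normalClosure (Set.mem_singleton m)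
  have hbM : ∀ a, m * (a * m * a⁻¹) ∈ normalClosure {m} := fun a => mul_mem hmM (hmc a)
  have hbb : ∀ a, (m * (a * m * a⁻¹)) * (m * (a * m * a⁻¹)) ∈ L := by
    intro a
    have := h3 a 1
    simpa only [inv_one, one_mul, mul_one] using this
  refine Alg_M m l L hm (fun a ha b hb => hNL (hcomm a ha b hb)) ?_ hl hgen ?_
  · intro g
    -- `(m y)² = m² y²` modulo commutators
    have k1 := hbb g
    have k2 := hcomm _ (inv_mem hmM) _ (hmc g)
    have e1 : g * m * g⁻¹ * (g * m * g⁻¹) = (m⁻¹ * (g * m * g⁻¹) * m⁻¹⁻¹ * (g * m * g⁻¹)⁻¹)⁻¹ *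
        (m⁻¹ * (m⁻¹ * ((m * (g * m * g⁻¹)) * (m * (g * m * g⁻¹))))) := by group
    rw [e1]
    exact L.mul_mem (hNL (N.inv_mem k2)) (L.mul_mem (L.inv_mem hm) (L.mul_mem (L.inv_mem hm) k1))
  · intro a η
    have hc1 : η * (m * (a * m * a⁻¹)) * η⁻¹ ∈ normalClosure {m} := normalClosure_normal.conj_mem _ (hbM a) η
    have k1 := h3 a η
    have k2 := hbb a
    have hb := hbM a
    generalize m * (a * m * a⁻¹) = b at *
    have k3 := hcomm _ (mul_mem hb hb) _ hc1
    have e1 : η⁻¹ * b * η * b * (b * (η * b * η⁻¹))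
        = ((η⁻¹ * b * η) * (b * b * (η * b * η⁻¹) * (b * b)⁻¹ * (η * b * η⁻¹)⁻¹) * (η⁻¹ * b * η)⁻¹) *
          ((η⁻¹ * b * η) * (η * b * η⁻¹)) * (b * b) := by group
    rw [e1]
    exact L.mul_mem (L.mul_mem (hNL (hN.conj_mem _ k3 _)) k1) k2

end stepTwo

end Pool.Agent.NHT
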