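import Pool.Agent.NHT.Alg

/-!
# NHT/AlgQ: the label calculus, algebra

`X` is a set of knots through a base point in a fixed homotopy class `κ`, `R` the equivalence relation
generated by the moves, `St c k k'`: the knot `k'` is obtained from `k` by one finger with label `c`.
-/

namespace Pool.Agent.NHT

universe u v

/-- The label calculus. -/
structure LabelCalc {π : Type u} [Group π] (κ : π) {X : Type v} (R : X → X → Prop)
    (St : π → X → X → Prop) : Prop where
  eqv : Equivalence R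
  A : ∀ c k k' k'', St c k k' → St c k k'' → R k' k''
  B : ∀ c k, ∃ k', St c k k'
  C : ∀ c d k k₁ k₂, St c k k₁ → St d k k₂ → ∀ e, ∃ k' k₁' k₂',
    St e k k' ∧ St c k' k₁' ∧ St e k₁ k₁' ∧ St d k' k₂' ∧ St e k₂ k₂'
  S : ∀ c k k', St c k k' → ∃ k'', St c k' k'' ∧ R k k''
  T : ∀ k k', St 1 k k' → R k k'
  K : ∀ c k, ∃ k' k'', St c k k' ∧ St (κ * c⁻¹) k k'' ∧ R k' k''
  E : ∀ k x c, ∃ k₁ k₂ k₃ k₄, St x k k₁ ∧ St (x * c) k₁ k₂ ∧ St (x⁻¹ * c) k₂ k₃ ∧
    St (c⁻¹ * x * c) k₃ k₄ ∧ R k k₄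

namespace LabelCalc

variable {π : Type u} [Group π] {κ : π} {X : Type v} {R : X → X → Prop} {St : π → X → X → Prop}

/-- `k'` is obtained from `k` by a sequence of fingers with the given labels. -/
inductive Run (St : π → X → X → Prop) : List π → X → X → Prop
  | nil (k : X) : Run St [] k k
  | cons {c : π} {w : List π} {k k₁ k' : X} : St c k k₁ → Run St w k₁ k' → Run St (c :: w) k k'

theorem run_ex (H : LabelCalc κ R St) (w : List π) : ∀ k, ∃ k', Run St w k k' := by
  induction w with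
  | nil => intro k; exact ⟨k, .nil k⟩
  | cons c w ih =>
    intro k
    obtain ⟨k₁, h1⟩ := H.B c k
    obtain ⟨k', h2⟩ := ih k₁
    exact ⟨k', .cons h1 h2⟩

omit [Group π] in
theorem run_cons {w : List π} {c : π} {k k' : X} (h : Run St (c :: w) k k') :
    ∃ k₁, St c k k₁ ∧ Run St w k₁ k' := by
  cases h with
  | cons h1 h2 => exact ⟨_, h1, h2⟩

omit [Group π] in
theorem run_append {w : List π} {w' : List π} {k k' : X} (h : Run St (w ++ w') k k') :
    ∃ k₁, Run St w k k₁ ∧ Run St w' k₁ k' := by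
  induction w generalizing k with
  | nil => exact ⟨k, .nil k, h⟩
  | cons c w ih =>
    obtain ⟨k₁, h1, h2⟩ := run_cons h
    obtain ⟨k₂, h3, h4⟩ := ih h2
    exact ⟨k₂, .cons h1 h3, h4⟩

omit [Group π] in
theorem append_run {w : List π} {w' : List π} {k k₁ k' : X} (h : Run St w k k₁)
    (h' : Run St w' k₁ k') : Run St (w ++ w') k k' := by
  induction h with
  | nil k => exact h'
  | cons h1 _ ih => exact .cons h1 (ih h')

omit [Group π] in
theorem run_nil {k k' : X} (h : Run St [] k k') : k = k' := by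
  cases h; rfl

/-- The key induction. -/
theorem run_aux (H : LabelCalc κ R St) (w : List π) : ∀ (c : π) (k k₁ k₁' a b : X), St c k k₁ →
    St c k k₁' → Run St w k₁ a → Run St w k₁' b → R a b := by
  induction w with
  | nil =>
    intro c k k₁ k₁' a b h1 h2 h3 h4
    rw [← run_nil h3, ← run_nil h4]
    exact H.A c k k₁ k₁' h1 h2
  | cons e w ih =>
    intro c k k₁ k₁' a b h1 h2 h3 h4
    obtain ⟨l, h5, h6⟩ := run_cons h3
    obtain ⟨l', h7, h8⟩ := run_cons h4
    obtain ⟨q, q₁, q₂, g1, g2, g3, g4, g5⟩ := H.C c c k k₁ k₁' h1 h2 e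
    obtain ⟨a', h9⟩ := H.run_ex w q₁
    obtain ⟨b', h10⟩ := H.run_ex w q₂
    have r1 : R a a' := ih e k₁ l q₁ a a' h5 g3 h6 h9
    have r2 : R a' b' := ih c q q₁ q₂ a' b' g2 g4 h9 h10
    have r3 : R b b' := ih e k₁' l' q₂ b b' h7 g5 h8 h10
    exact H.eqv.trans r1 (H.eqv.trans r2 (H.eqv.symm r3))

theorem run_uniq (H : LabelCalc κ R St) (w : List π) (k a b : X) (h : Run St w k a)
    (h' : Run St w k b) : R a b := by
  cases w with
  | nil => rw [← run_nil h, ← run_nil h']; exact H.eqv.refl k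
  | cons c w =>
    obtain ⟨l, h5, h6⟩ := run_cons h
    obtain ⟨l', h7, h8⟩ := run_cons h'
    exact H.run_aux w c k l l' a b h5 h7 h6 h8

/-- `w` and `w'` give the same knot, starting from `k`. -/
def Eqw (R : X → X → Prop) (St : π → X → X → Prop) (w w' : List π) : Prop :=
  ∀ k, ∃ a b, Run St w k a ∧ Run St w' k b ∧ R a b

theorem eqw_iff (H : LabelCalc κ R St) {w w' : List π} (h : Eqw R St w w') {k a b : X}
    (ha : Run St w k a) (hb : Run St w' k b) : R a b := by
  obtain ⟨a', b', h1, h2, h3⟩ := h k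
  exact H.eqv.trans (H.run_uniq w k a a' ha h1) (H.eqv.trans h3 (H.run_uniq w' k b' b h2 hb))

theorem eqw_refl (H : LabelCalc κ R St) (w : List π) : Eqw R St w w := by
  intro k
  obtain ⟨a, h⟩ := H.run_ex w k
  exact ⟨a, a, h, h, H.eqv.refl a⟩

theorem eqw_symm (H : LabelCalc κ R St) {w w' : List π} (h : Eqw R St w w') : Eqw R St w' w := by
  intro k
  obtain ⟨a, b, h1, h2, h3⟩ := h k
  exact ⟨b, a, h2, h1, H.eqv.symm h3⟩

theorem eqw_trans (H : LabelCalc κ R St) {w w' w'' : List π} (h : Eqw R St w w')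
    (h' : Eqw R St w' w'') : Eqw R St w w'' := by
  intro k
  obtain ⟨a, b, h1, h2, h3⟩ := h k
  obtain ⟨b', c, h4, h5, h6⟩ := h' k
  exact ⟨a, c, h1, h5, H.eqv.trans h3 (H.eqv.trans (H.run_uniq w' k b b' h2 h4) h6)⟩

/-- prefixing -/
theorem eqw_left (H : LabelCalc κ R St) {w w' : List π} (s : List π) (h : Eqw R St w w') :
    Eqw R St (s ++ w) (s ++ w') := by
  intro k
  obtain ⟨k₁, h0⟩ := H.run_ex s k
  obtain ⟨a, b, h1, h2, h3⟩ := h k₁
  exact ⟨a, b, append_run h0 h1, append_run h0 h2, h3⟩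

theorem eqw_swap (H : LabelCalc κ R St) (c d : π) (w : List π) :
    Eqw R St (c :: d :: w) (d :: c :: w) := by
  intro k
  obtain ⟨k₁, h1⟩ := H.B c k
  obtain ⟨q, q₁, _, g1, g2, g3, _, _⟩ := H.C c c k k₁ k₁ h1 h1 d
  obtain ⟨a, ha⟩ := H.run_ex w q₁
  exact ⟨a, a, .cons h1 (.cons g3 ha), .cons g1 (.cons g2 ha), H.eqv.refl a⟩

theorem eqw_perm (H : LabelCalc κ R St) {w w' : List π} (h : w.Perm w') : Eqw R St w w' := by
  induction h with
  | nil => exact H.eqw_refl []
  | cons c _ ih => exact H.eqw_left [c] ih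
  | swap c d w => exact H.eqw_swap d c w
  | trans _ _ ih1 ih2 => exact H.eqw_trans ih1 ih2

/-- suffixing -/
theorem eqw_right (H : LabelCalc κ R St) {w w' : List π} (s : List π) (h : Eqw R St w w') :
    Eqw R St (w ++ s) (w' ++ s) :=
  H.eqw_trans (H.eqw_perm List.perm_append_comm)
    (H.eqw_trans (H.eqw_left s h) (H.eqw_perm List.perm_append_comm))

theorem eqw_append (H : LabelCalc κ R St) {w w' s s' : List π} (h : Eqw R St w w')
    (h' : Eqw R St s s') : Eqw R St (w ++ s) (w' ++ s') :=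
  H.eqw_trans (H.eqw_right s h) (H.eqw_left w' h')

theorem eqw_sq (H : LabelCalc κ R St) (c : π) : Eqw R St [c, c] [] := by
  intro k
  obtain ⟨k₁, h1⟩ := H.B c k
  obtain ⟨k₂, h2, h3⟩ := H.S c k k₁ h1
  exact ⟨k₂, k, .cons h1 (.cons h2 (.nil _)), .nil k, H.eqv.symm h3⟩

theorem eqw_one (H : LabelCalc κ R St) : Eqw R St [1] [] := by
  intro k
  obtain ⟨k₁, h1⟩ := H.B 1 k
  exact ⟨k₁, k, .cons h1 (.nil _), .nil k, H.eqv.symm (H.T k k₁ h1)⟩

theorem eqw_kap (H : LabelCalc κ R St) (c : π) : Eqw R St [c] [κ * c⁻¹] := by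
  intro k
  obtain ⟨k₁, k₂, h1, h2, h3⟩ := H.K c k
  exact ⟨k₁, k₂, .cons h1 (.nil _), .cons h2 (.nil _), h3⟩

theorem eqw_E (H : LabelCalc κ R St) (x c : π) :
    Eqw R St [x, x * c, x⁻¹ * c, c⁻¹ * x * c] [] := by
  intro k
  obtain ⟨k₁, k₂, k₃, k₄, h1, h2, h3, h4, h5⟩ := H.E k x c
  exact ⟨k₄, k, .cons h1 (.cons h2 (.cons h3 (.cons h4 (.nil _)))), .nil k, H.eqv.symm h5⟩

/-- the congruence on the multisets of labels -/
def con (H : LabelCalc κ R St) : AddCon (Multiset π) where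
  r s t := Eqw R St s.toList t.toList
  iseqv := ⟨fun s => H.eqw_refl _, fun h => H.eqw_symm h, fun h h' => H.eqw_trans h h'⟩
  add' := by
    intro s t s' t' h h'
    have h1 : (s + s').toList.Perm (s.toList ++ s'.toList) := by
      rw [← Multiset.coe_eq_coe, ← Multiset.coe_add]; simp
    have h2 : (t + t').toList.Perm (t.toList ++ t'.toList) := by
      rw [← Multiset.coe_eq_coe, ← Multiset.coe_add]; simp
    exact H.eqw_trans (H.eqw_perm h1)
      (H.eqw_trans (H.eqw_append h h') (H.eqw_symm (H.eqw_perm h2)))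

theorem con_eq (H : LabelCalc κ R St) {w w' : List π} (h : Eqw R St w w') :
    ((w : Multiset π) : H.con.Quotient) = ((w' : Multiset π) : H.con.Quotient) := by
  refine (AddCon.eq _).2 ?_
  have h1 : (w : Multiset π).toList.Perm w := by
    rw [← Multiset.coe_eq_coe]; simp
  have h2 : (w' : Multiset π).toList.Perm w' := by
    rw [← Multiset.coe_eq_coe]; simp
  exact H.eqw_trans (H.eqw_perm h1) (H.eqw_trans h (H.eqw_symm (H.eqw_perm h2)))

theorem eq_con (H : LabelCalc κ R St) {w w' : List π}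
    (h : ((w : Multiset π) : H.con.Quotient) = ((w' : Multiset π) : H.con.Quotient)) :
    Eqw R St w w' := by
  have h0 := (AddCon.eq _).1 h
  have h1 : (w : Multiset π).toList.Perm w := by
    rw [← Multiset.coe_eq_coe]; simp
  have h2 : (w' : Multiset π).toList.Perm w' := by
    rw [← Multiset.coe_eq_coe]; simp
  exact H.eqw_trans (H.eqw_symm (H.eqw_perm h1)) (H.eqw_trans h0 (H.eqw_perm h2))

theorem con_two (H : LabelCalc κ R St) (v : H.con.Quotient) : v + v = 0 := by
  obtain ⟨s, rfl⟩ := AddCon.mk'_surjective v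
  induction s using Multiset.induction with
  | empty => simp
  | cons c s ih =>
    have h1 : c ::ₘ s = ({c} : Multiset π) + s := rfl
    rw [h1, map_add]
    have h2 : H.con.mk' {c} + H.con.mk' {c} = 0 := by
      rw [← map_add]
      exact H.con_eq (H.eqw_sq c)
    have h3 : H.con.mk' {c} + H.con.mk' s + (H.con.mk' {c} + H.con.mk' s)
        = (H.con.mk' {c} + H.con.mk' {c}) + (H.con.mk' s + H.con.mk' s) := by
      abel
    rw [h3, h2, ih, add_zero]

/-- **The label calculus.** A finger changes nothing. -/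
theorem main (H : LabelCalc κ R St) (hκ : GenMod2 κ) (c : π) (k k' : X) (h : St c k k') :
    R k k' := by
  let hneg : Neg H.con.Quotient := ⟨fun v => v⟩
  let _ : AddCommGroup H.con.Quotient :=
    { (inferInstance : AddCommMonoid H.con.Quotient), hneg with
      zsmul := zsmulRec
      neg_add_cancel := H.con_two }
  let φ : π → H.con.Quotient := fun c => (([c] : List π) : Multiset π)
  have φ1 : φ 1 = 0 := H.con_eq H.eqw_one
  have φκ : ∀ c, φ c = φ (κ * c⁻¹) := fun c => H.con_eq (H.eqw_kap c)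
  have hV : ∀ v : H.con.Quotient, v + v = 0 := H.con_two
  have hE : ∀ x c, φ x + φ (x * c) + φ (x⁻¹ * c) + φ (c⁻¹ * x * c) = 0 := by
    intro x c
    have h1 := H.con_eq (H.eqw_E x c)
    exact h1
  have hinv : ∀ c, φ c⁻¹ = φ c := by
    intro c
    have h1 := hE c 1
    rw [mul_one, mul_one, inv_one, one_mul, mul_one, hV, zero_add] at h1
    exact Alg_cancel hV h1
  have h4 : ∀ x c, φ c + φ (x * c * x⁻¹) + φ (x * c) + φ (x * c⁻¹) = 0 := by
    intro x c
    have h1 := hE c x⁻¹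
    rw [inv_inv] at h1
    have h2 : φ (x * c⁻¹) = φ (c * x⁻¹) := by
      rw [← hinv (c * x⁻¹), mul_inv_rev, inv_inv]
    have h3 : φ (c⁻¹ * x⁻¹) = φ (x * c) := by
      rw [← mul_inv_rev, hinv]
    rw [h3] at h1
    rw [h2, ← h1]; abel
  have hφ := Alg_phi hκ hV φ φ1 φκ h4 c
  have h5 : Eqw R St [c] [] := H.eq_con hφ
  exact H.eqv.symm (H.eqw_iff h5 (.cons h (.nil k')) (.nil k))

end LabelCalc

end Pool.Agent.NHT
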