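import Pool.Agent.NHT.Gen
import Pool.Agent.NHB.Oez
import Pool.Agent.NHQ.Fin
import Pool.Agent.NHQ.Org
import Pool.Agent.NHH.Hom
import Pool.Agent.NHJ.Main

/-!
# NHT/Main: the homotopy theorem for roll-Gluck manifolds

`core_leq`: freely homotopic thick knots which generate `H₁(N; ℤ/2)` have equivalent cores.
`homotopy_theorem`: they carry the same roll-Gluck manifolds.
-/

open scoped Manifold ContDiff Topology
open Set Filter CategoryTheory
open Pool.Agent.RSG (E3 E4 Thick IsRollGluck)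
open Pool.Agent.NHP
open Pool.Agent.NHQ (PC cl Gen2 Crv Orq Ori)

namespace Pool.Agent.NHT

universe u v

section
variable {N : Type u} [TopologicalSpace N] [ChartedSpace E3 N]

theorem orq_of_orn {o : (E → N) → E → ℝ} (h : NHB.Orn o) : Orq o := ⟨h.val, h.cst, h.cmp⟩

/-- the orientation -/
theorem exists_orn [IsManifold (𝓡 3) ∞ N] [ConnectedSpace N] {κ : ℝ × ℂ → N} (hκ : Thick κ) (hg : GenH1 κ) :
    ∃ o : (E → N) → E → ℝ, NHB.Orn o :=
  NHB.exists_orn_two hκ fun f hf => hg.hom (NHB.coreLoop hκ) (fun _ => rfl) f hf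

/-- the cores of the two knots are equivalent -/
theorem core_leq [T2Space N] [IsManifold (𝓡 3) ∞ N] [ConnectedSpace N] {κ κ' : ℝ × ℂ → N}
    (hκ : Thick κ) (hκ' : Thick κ') (hF : FreeHomotopic κ κ') (hg : GenH1 κ) : LEqN (core κ) (core κ') := by
  obtain ⟨o', ho'⟩ := exists_orn hκ hg
  have hO : Ori N := NHQ.ori_of_orn (orq_of_orn ho')
  have ho : PC (fun l => κ (l, 0)) (cl (NHB.coreLoop hκ)) := ⟨NHB.coreLoop hκ, fun _ => rfl, rfl⟩
  exact NHH.homotopy_leq hκ hκ' hF ho fun k' K' hk' hX => NHQ.Q_main hO hk' (hg.gen2 ho) hX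

/-- **The homotopy theorem.** -/
theorem homotopy_theorem [T2Space N] [IsManifold (𝓡 3) ∞ N] [ConnectedSpace N] {κ κ' : ℝ × ℂ → N}
    (hκ : Thick κ) (hκ' : Thick κ') (hF : FreeHomotopic κ κ') (hg : GenH1 κ) (n j j' : ℤ)
    {X : Type v} [TopologicalSpace X] [ChartedSpace E4 X] [T2Space X] :
    IsRollGluck κ n j X ↔ IsRollGluck κ' n j' X := by
  have hO := exists_orn hκ hg
  have hL := core_leq hκ hκ' hF hg
  constructor
  · intro h
    obtain ⟨j₁, h1⟩ := NHB.bridge_two hO hκ hκ' hL h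
    exact (NHJ.roll_shift hκ').1 h1
  · intro h
    obtain ⟨j₁, h1⟩ := NHB.bridge_two hO hκ' hκ hL.symm h
    exact (NHJ.roll_shift hκ).1 h1

end

end Pool.Agent.NHT
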