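import Mathlib
import Pool.Agent.RSG.Defs

/-!
# NHT/Hyp: the hypotheses of the homotopy theorem

* `FreeHomotopic κ κ'`: the cores of the thick knots are freely homotopic.
* `GenH1 κ`: `H₁(N; ℤ/2)` is generated by the knot: every homomorphism `π₁(N) → ℤ/2` which kills the class of the knot is
  trivial.
-/

open Pool.Agent.RSG (E3)

namespace Pool.Agent.NHT

variable {N : Type*} [TopologicalSpace N]

/-- The closed curves `κ (l, 0)` and `κ' (l, 0)` are freely homotopic. -/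
def FreeHomotopic (κ κ' : ℝ × ℂ → N) : Prop :=
  ∃ H : ℝ × ℝ → N, Continuous H ∧ (∀ s l, H (s, l + 1) = H (s, l)) ∧
    (∀ l, H (0, l) = κ (l, 0)) ∧ ∀ l, H (1, l) = κ' (l, 0)

/-- Every homomorphism `π₁(N, κ (0, 0)) → ℤ/2` which kills the class of the closed curve `κ (l, 0)`, `0 ≤ l ≤ 1`, is
trivial. -/
def GenH1 (κ : ℝ × ℂ → N) : Prop :=
  ∀ f : FundamentalGroup N (κ (0, 0)) →* Multiplicative (ZMod 2),
    (∀ γ : Path (κ (0, 0)) (κ (0, 0)), (∀ t : unitInterval, γ t = κ (t, 0)) →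
      f (FundamentalGroup.fromPath ⟦γ⟧) = 1) →
    ∀ g, f g = 1

end Pool.Agent.NHT
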