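import Mathlib

/-!
# Group theory of the homotopy theorem (steps (3) and (4), ALGEBRA)
-/

namespace Pool.Agent.NHT

/-- `H₁(π; 𝔽₂)` is generated by the class of `κ`. -/
def GenMod2 {π : Type*} [Group π] (κ : π) : Prop :=
  Subgroup.closure ({x : π | ∃ y, x = y * y} ∪ {κ}) = ⊤

section A1

variable {π : Type*} [Group π] {V : Type*} [AddCommGroup V]

theorem Alg_cancel (hV : ∀ v : V, v + v = 0) {a b : V} (h : a + b = 0) : a = b := by
  have h1 : a + b = b + b := by rw [h, hV]
  exact add_right_cancel h1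

theorem Alg_top {κ : π} (hκ : GenMod2 κ) (H : Subgroup π) (h1 : ∀ y, y * y ∈ H) (h2 : κ ∈ H) :
    ∀ g, g ∈ H := by
  intro g
  have : Subgroup.closure ({x : π | ∃ y, x = y * y} ∪ {κ}) ≤ H := by
    rw [Subgroup.closure_le]
    rintro x (⟨y, rfl⟩ | hx)
    · exact h1 y
    · rw [Set.mem_singleton_iff.1 hx]; exact h2
  rw [hκ] at this
  exact this (Subgroup.mem_top g)

/-- The subgroup of the `g` with `F (g h) = F g + F h` for all `h`. -/
def Alg_add (F : π → V) (hF : F 1 = 0) : Subgroup π where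
  carrier := {g | ∀ h, F (g * h) = F g + F h}
  one_mem' := by intro h; simp [hF]
  mul_mem' := by
    intro a b ha hb h
    simp only [Set.mem_ofPred_eq] at ha hb ⊢
    rw [mul_assoc, ha, hb, ha b]; abel
  inv_mem' := by
    intro a ha h
    simp only [Set.mem_ofPred_eq] at ha ⊢
    have h1 := ha a⁻¹
    have h2 := ha (a⁻¹ * h)
    rw [mul_inv_cancel, hF] at h1
    rw [mul_inv_cancel_left] at h2
    have h3 : F a⁻¹ = - F a := by
      rw [← sub_eq_zero, sub_neg_eq_add, add_comm]; exact h1.symm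
    rw [h3, h2]; abel

/-- **A1.** -/
theorem Alg_f {κ : π} (hκ : GenMod2 κ) (hV : ∀ v : V, v + v = 0) (f : π → V) (f1 : f 1 = 0)
    (fκ : ∀ g, f (g * κ) = f g)
    (h : ∀ η a, f η + f (η * a) + f η⁻¹ + f (η⁻¹ * a) = 0) : ∀ g, f g = 0 := by
  have hneg : ∀ v : V, -v = v := fun v => neg_eq_of_add_eq_zero_left (hV v)
  -- `f (w a) = f w + f a` for squares
  have hsq : ∀ η a, f (η * η * a) = f (η * η) + f a := by
    have key : ∀ η a, f (η * η * a) = f a + (f η + f η⁻¹) := by
      intro η a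
      have h1 := h η (η * a)
      rw [inv_mul_cancel_left, ← mul_assoc] at h1
      have h2 : f (η * η * a) + (f a + (f η + f η⁻¹)) = 0 := by rw [← h1]; abel
      exact Alg_cancel hV h2
    intro η a
    have h1 := key η 1
    rw [mul_one, f1, zero_add] at h1
    rw [key, h1, add_comm]
  set P := Alg_add f f1 with hP
  have hsqP : ∀ η, η * η ∈ P := fun η => hsq η
  have fκ0 : f κ = 0 := by have := fκ 1; rwa [one_mul, f1] at this
  -- conjugates of products of squares: use the subgroup generated by the squares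
  let S : Subgroup π := Subgroup.closure {x : π | ∃ y, x = y * y}
  have hSP : S ≤ P := by
    rw [Subgroup.closure_le]; rintro x ⟨y, rfl⟩; exact hsqP y
  have hSn : ∀ g w, w ∈ S → g * w * g⁻¹ ∈ S := by
    intro g w hw
    refine Subgroup.closure_induction (p := fun w _ => g * w * g⁻¹ ∈ S) ?_ ?_ ?_ ?_ hw
    · rintro x ⟨y, rfl⟩
      refine Subgroup.subset_closure ⟨g * y * g⁻¹, ?_⟩
      group
    · rw [mul_one, mul_inv_cancel]; exact S.one_mem
    · intro x y _ _ hx hy
      have : g * (x * y) * g⁻¹ = (g * x * g⁻¹) * (g * y * g⁻¹) := by group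
      rw [this]; exact S.mul_mem hx hy
    · intro x _ hx
      have : g * x⁻¹ * g⁻¹ = (g * x * g⁻¹)⁻¹ := by group
      rw [this]; exact S.inv_mem hx
  have hS : ∀ w ∈ S, ∀ a, f (w * a) = f w + f a := fun w hw => hSP hw
  -- the function `F g = f g + f (κ g)` is a homomorphism
  have F1 : f 1 + f (κ * 1) = 0 := by rw [mul_one, f1, fκ0, add_zero]
  have hFsq : ∀ w ∈ S, ∀ g, f (w * g) + f (κ * (w * g)) = (f w + f (κ * w)) + (f g + f (κ * g)) := by
    intro w hw g
    have h3 := hSn κ w hw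
    have e1 : f (κ * (w * g)) = f (κ * w * κ⁻¹) + f (κ * g) := by
      rw [← hS _ h3]; congr 1; group
    have e2 : f (κ * w) = f (κ * w * κ⁻¹) := by
      have : κ * w = (κ * w * κ⁻¹) * κ := by group
      calc f (κ * w) = f ((κ * w * κ⁻¹) * κ) := by rw [← this]
        _ = f (κ * w * κ⁻¹) := fκ _
    rw [e1, e2, hS w hw]; abel
  have κκ : κ * κ ∈ S := Subgroup.subset_closure ⟨κ, rfl⟩
  have hF : ∀ g, g ∈ Alg_add (fun g => f g + f (κ * g)) F1 := by
    refine Alg_top hκ _ ?_ ?_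
    · intro y g
      exact hFsq (y * y) (Subgroup.subset_closure ⟨y, rfl⟩) g
    · intro g
      change f (κ * g) + f (κ * (κ * g)) = (f κ + f (κ * κ)) + (f g + f (κ * g))
      have e1 : κ * (κ * g) = κ * κ * g := by group
      have e2 : f (κ * κ) = 0 := by rw [fκ, fκ0]
      rw [e1, hS _ κκ, e2, fκ0]; abel
  have hF0 : ∀ g, f g + f (κ * g) = 0 := by
    intro g
    have hK : ∀ g, g ∈ (⟨⟨⟨{g | f g + f (κ * g) = 0}, by
        intro a b ha hb
        simp only [Set.mem_ofPred_eq] at ha hb ⊢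
        have := hF a b
        change f (a * b) + f (κ * (a * b)) = (f a + f (κ * a)) + (f b + f (κ * b)) at this
        rw [this, ha, hb, add_zero]⟩, F1⟩, by
        intro a ha
        simp only [Set.mem_ofPred_eq] at ha ⊢
        have := hF a a⁻¹
        change f (a * a⁻¹) + f (κ * (a * a⁻¹)) = (f a + f (κ * a)) + (f a⁻¹ + f (κ * a⁻¹)) at this
        rw [mul_inv_cancel, F1, ha, zero_add] at this
        exact this.symm⟩ : Subgroup π) := by
      refine Alg_top hκ _ ?_ ?_
      · intro y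
        change f (y * y) + f (κ * (y * y)) = 0
        have := hF y y
        change f (y * y) + f (κ * (y * y)) = (f y + f (κ * y)) + (f y + f (κ * y)) at this
        rw [this, hV]
      · change f κ + f (κ * κ) = 0
        rw [fκ, fκ0, add_zero]
    exact hK g
  have hl : ∀ g, f (κ * g) = f g := fun g => (Alg_cancel hV (hF0 g)).symm
  -- `f` is a homomorphism
  have hf : ∀ g, g ∈ P := by
    refine Alg_top hκ _ hsqP ?_
    intro g
    rw [hl, fκ0, zero_add]
  intro g
  have hK : ∀ g, g ∈ (⟨⟨⟨{g | f g = 0}, by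
      intro a b ha hb
      simp only [Set.mem_ofPred_eq] at ha hb ⊢
      have := hf a b
      rw [this, ha, hb, add_zero]⟩, f1⟩, by
      intro a ha
      simp only [Set.mem_ofPred_eq] at ha ⊢
      have := hf a a⁻¹
      rw [mul_inv_cancel, f1, ha, zero_add] at this
      exact this.symm⟩ : Subgroup π) := by
    refine Alg_top hκ _ ?_ fκ0
    intro y
    change f (y * y) = 0
    have := hf y y
    rw [this, hV]
  exact hK g

end A1

section A2

variable {Q : Type*} [Group Q]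

/-- A group whose squares generate a subgroup of exponent two, and which is generated by `κ` and the
squares, is generated by `κ`. -/
theorem Alg_cyclic {κ : Q} (hκ : GenMod2 κ)
    (hx : ∀ x ∈ Subgroup.closure {x : Q | ∃ y, x = y * y}, x * x = 1) :
    ∀ g : Q, ∃ i : ℤ, g = κ ^ i := by
  let P : Subgroup Q := Subgroup.closure {x : Q | ∃ y, x = y * y}
  have hx' : ∀ x ∈ P, x * x = 1 := hx
  have hsq : ∀ y, y * y ∈ P := fun y => Subgroup.subset_closure ⟨y, rfl⟩
  have hinv : ∀ x ∈ P, x⁻¹ = x := fun x h => inv_eq_of_mul_eq_one_left (hx' x h)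
  have hcomm : ∀ x ∈ P, ∀ y ∈ P, x * y = y * x := by
    intro x hx y hy
    have h1 := hinv _ (P.mul_mem hx hy)
    rw [mul_inv_rev, hinv x hx, hinv y hy] at h1
    exact h1.symm
  have hn : ∀ g w, w ∈ P → g * w * g⁻¹ ∈ P := by
    intro g w hw
    refine Subgroup.closure_induction (p := fun w _ => g * w * g⁻¹ ∈ P) ?_ ?_ ?_ ?_ hw
    · rintro x ⟨y, rfl⟩
      refine Subgroup.subset_closure ⟨g * y * g⁻¹, ?_⟩
      group
    · rw [mul_one, mul_inv_cancel]; exact P.one_mem
    · intro x y _ _ hx hy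
      have : g * (x * y) * g⁻¹ = (g * x * g⁻¹) * (g * y * g⁻¹) := by group
      rw [this]; exact P.mul_mem hx hy
    · intro x _ hx
      have : g * x⁻¹ * g⁻¹ = (g * x * g⁻¹)⁻¹ := by group
      rw [this]; exact P.inv_mem hx
  have κκ : κ * κ ∈ P := hsq κ
  -- every element is in `P` or in `P κ`
  have hdec : ∀ g, g ∈ P ∨ g * κ⁻¹ ∈ P := by
    have hmul : ∀ a b : Q, (a ∈ P ∨ a * κ⁻¹ ∈ P) → (b ∈ P ∨ b * κ⁻¹ ∈ P) →
        (a * b ∈ P ∨ a * b * κ⁻¹ ∈ P) := by
      intro a b ha hb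
      rcases ha with ha | ha <;> rcases hb with hb | hb
      · exact Or.inl (P.mul_mem ha hb)
      · right; rw [mul_assoc]; exact P.mul_mem ha hb
      · right
        have : a * b * κ⁻¹ = (a * κ⁻¹) * (κ * b * κ⁻¹) := by group
        rw [this]; exact P.mul_mem ha (hn κ b hb)
      · left
        have : a * b = (a * κ⁻¹) * (κ * (b * κ⁻¹) * κ⁻¹) * (κ * κ) := by group
        rw [this]; exact P.mul_mem (P.mul_mem ha (hn κ _ hb)) κκ
    have hi : ∀ a : Q, (a ∈ P ∨ a * κ⁻¹ ∈ P) → (a⁻¹ ∈ P ∨ a⁻¹ * κ⁻¹ ∈ P) := by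
      intro a ha
      rcases ha with ha | ha
      · exact Or.inl (P.inv_mem ha)
      · right
        have : a⁻¹ * κ⁻¹ = κ⁻¹ * (a * κ⁻¹)⁻¹ * (κ⁻¹)⁻¹ * (κ * κ)⁻¹ := by group
        rw [this]
        exact P.mul_mem (hn κ⁻¹ _ (P.inv_mem ha)) (P.inv_mem κκ)
    intro g
    let H : Subgroup Q :=
      { carrier := {g | g ∈ P ∨ g * κ⁻¹ ∈ P}
        one_mem' := Or.inl P.one_mem
        mul_mem' := fun {a b} ha hb => hmul a b ha hb
        inv_mem' := fun {a} ha => hi a ha }
    have : g ∈ H := by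
      refine Alg_top hκ H (fun y => Or.inl (hsq y)) ?_ g
      right
      change κ * κ⁻¹ ∈ P
      rw [mul_inv_cancel]; exact P.one_mem
    exact this
  -- the operator `D w = w (κ w κ⁻¹)`
  have hD : ∀ w ∈ P, w * (κ * w * κ⁻¹) ∈ P := fun w hw => P.mul_mem hw (hn κ w hw)
  have hDmul : ∀ u ∈ P, ∀ v ∈ P, (u * v) * (κ * (u * v) * κ⁻¹)
      = (u * (κ * u * κ⁻¹)) * (v * (κ * v * κ⁻¹)) := by
    intro u hu v hv
    have h1 : (u * v) * (κ * (u * v) * κ⁻¹) = u * (v * (κ * u * κ⁻¹)) * (κ * v * κ⁻¹) := by group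
    rw [h1, hcomm v hv _ (hn κ u hu)]; group
  have hpow : ∀ e : ℤ, κ ^ (2 * e) ∈ P := by
    intro e
    rw [zpow_mul]
    have : κ ^ (2:ℤ) = κ * κ := by rw [zpow_two]
    rw [this]; exact P.zpow_mem κκ e
  have hform : ∀ w ∈ P, ∃ u ∈ P, ∃ e : ℤ, w = u * (κ * u * κ⁻¹) * κ ^ (2 * e) := by
    intro w hw
    refine Subgroup.closure_induction
      (p := fun w _ => ∃ u ∈ P, ∃ e : ℤ, w = u * (κ * u * κ⁻¹) * κ ^ (2 * e)) ?_ ?_ ?_ ?_ hw
    · rintro x ⟨y, rfl⟩
      rcases hdec y with hy | hy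
      · refine ⟨1, P.one_mem, 0, ?_⟩
        rw [hx' y hy]; simp
      · refine ⟨y * κ⁻¹, hy, 1, ?_⟩
        rw [mul_one, zpow_two]; group
    · exact ⟨1, P.one_mem, 0, by simp⟩
    · rintro x y _ _ ⟨u, hu, e, rfl⟩ ⟨v, hv, e', rfl⟩
      refine ⟨u * v, P.mul_mem hu hv, e + e', ?_⟩
      have h1 : u * (κ * u * κ⁻¹) * κ ^ (2 * e) * (v * (κ * v * κ⁻¹) * κ ^ (2 * e'))
          = u * (κ * u * κ⁻¹) * (κ ^ (2 * e) * (v * (κ * v * κ⁻¹))) * κ ^ (2 * e') := by group
      rw [h1, hcomm _ (hpow e) _ (hD v hv), hDmul u hu v hv, mul_add, zpow_add]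
      group
    · rintro x hxP ⟨u, hu, e, hxe⟩
      refine ⟨u, hu, e, ?_⟩
      rw [← hxe]; exact hinv x hxP
  have hDD : ∀ u ∈ P, (u * (κ * u * κ⁻¹)) * (κ * (u * (κ * u * κ⁻¹)) * κ⁻¹) = 1 := by
    intro u hu
    have h1 : (u * (κ * u * κ⁻¹)) * (κ * (u * (κ * u * κ⁻¹)) * κ⁻¹)
        = u * ((κ * u * κ⁻¹) * (κ * u * κ⁻¹)) * ((κ * κ) * u) * (κ * κ)⁻¹ := by group
    have h2 : u * 1 * (u * (κ * κ)) * (κ * κ)⁻¹ = u * u := by group
    rw [h1, hx' _ (hn κ u hu), hcomm _ κκ _ hu, h2, hx' u hu]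
  have hPκ : ∀ w ∈ P, ∃ e : ℤ, w = κ ^ (2 * e) := by
    intro w hw
    obtain ⟨u, hu, e, rfl⟩ := hform w hw
    obtain ⟨v, hv, e', hve⟩ := hform u hu
    have h1 : u * (κ * u * κ⁻¹) = 1 := by
      have h2 := hDmul _ (hD v hv) _ (hpow e')
      rw [← hve] at h2
      rw [h2, hDD v hv, one_mul]
      have h3 : κ * κ ^ (2 * e') * κ⁻¹ = κ ^ (2 * e') := by group
      rw [h3]; exact hx' _ (hpow e')
    exact ⟨e, by rw [h1, one_mul]⟩
  intro g
  rcases hdec g with hg | hg
  · obtain ⟨e, he⟩ := hPκ g hg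
    exact ⟨_, he⟩
  · obtain ⟨e, he⟩ := hPκ _ hg
    refine ⟨2 * e + 1, ?_⟩
    rw [zpow_add, ← he, zpow_one]; group

variable {π : Type*} [Group π] {V : Type*} [AddCommGroup V]

/-- **A2.** -/
theorem Alg_phi {κ : π} (hκ : GenMod2 κ) (hV : ∀ v : V, v + v = 0) (φ : π → V) (φ1 : φ 1 = 0)
    (φκ : ∀ c, φ c = φ (κ * c⁻¹))
    (h : ∀ x c, φ c + φ (x * c * x⁻¹) + φ (x * c) + φ (x * c⁻¹) = 0) : ∀ g, φ g = 0 := by
  have hinv : ∀ c, φ c⁻¹ = φ c := by
    intro c
    have h1 := h 1 c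
    simp only [one_mul, inv_one, mul_one] at h1
    rw [hV, zero_add] at h1
    exact (Alg_cancel hV h1).symm
  have hκl : ∀ g, φ (κ * g) = φ g := by
    intro g
    have := φκ g⁻¹
    rw [inv_inv, hinv] at this
    exact this.symm
  -- `φ (x c²) = φ x + φ c + φ (x c x⁻¹)`
  have hsq : ∀ x c, φ (x * (c * c)) = φ x + φ c + φ (x * c * x⁻¹) := by
    intro x c
    have h1 := h (x * c) c
    have e1 : x * c * c * (x * c)⁻¹ = x * c * x⁻¹ := by group
    have e2 : x * c * c⁻¹ = x := by group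
    have e3 : x * c * c = x * (c * c) := by group
    rw [e1, e2, e3] at h1
    have h2 : φ (x * (c * c)) + (φ x + φ c + φ (x * c * x⁻¹)) = 0 := by rw [← h1]; abel
    exact Alg_cancel hV h2
  have hsq1 : ∀ c, φ (c * c) = 0 := by
    intro c
    have h1 := hsq 1 c
    simp only [one_mul, inv_one, mul_one] at h1
    rw [h1, φ1, zero_add, hV]
  -- property E
  have hE : ∀ t ∈ Subgroup.closure {x : π | ∃ y, x = y * y}, ∀ x y,
      φ (x * t * y) + φ (x * t) + φ (t * y) + φ t = φ (x * y) + φ x + φ y := by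
    intro t ht
    refine Subgroup.closure_induction (p := fun t _ => ∀ x y,
      φ (x * t * y) + φ (x * t) + φ (t * y) + φ t = φ (x * y) + φ x + φ y) ?_ ?_ ?_ ?_ ht
    · rintro t ⟨c, rfl⟩ x y
      -- put `c = y c' y⁻¹`
      obtain ⟨d, hd⟩ : ∃ d, c = y * d * y⁻¹ := ⟨y⁻¹ * c * y, by group⟩
      subst hd
      have h1 := hsq (x * y) d
      have h2 := hsq x (y * d * y⁻¹)
      have h3 := hsq y d
      have e1 : x * (y * d * y⁻¹ * (y * d * y⁻¹)) * y = x * y * (d * d) := by group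
      have e2 : y * d * y⁻¹ * (y * d * y⁻¹) * y = y * (d * d) := by group
      have e3 : x * y * d * (x * y)⁻¹ = x * (y * d * y⁻¹) * x⁻¹ := by group
      rw [e1, e2, h1, h2, h3, hsq1, e3]
      have : (φ (x * y) + φ d + φ (x * (y * d * y⁻¹) * x⁻¹)) +
          (φ x + φ (y * d * y⁻¹) + φ (x * (y * d * y⁻¹) * x⁻¹)) + (φ y + φ d + φ (y * d * y⁻¹)) + 0
          = (φ (x * y) + φ x + φ y) + (φ d + φ d)
            + (φ (x * (y * d * y⁻¹) * x⁻¹) + φ (x * (y * d * y⁻¹) * x⁻¹))
            + (φ (y * d * y⁻¹) + φ (y * d * y⁻¹)) := by abel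
      rw [this, hV, hV, hV]; abel
    · intro x y
      rw [mul_one, one_mul, φ1, add_zero]
    · intro t u _ _ htt huu x y
      have h1 := huu (x * t) y
      have h2 := huu t y
      have h3 := htt x y
      have e1 : x * t * u * y = x * (t * u) * y := by group
      have e2 : x * t * u = x * (t * u) := by group
      rw [e1, e2] at h1
      -- h1: φ(x(tu)y)+φ(x(tu))+φ(uy)+φ u = φ(xty)+φ(xt)+φ y ; h2: φ(tuy)+φ(tu)+φ(uy)+φ u = φ(ty)+φ t+φ y
      have h4 : (φ (x * (t * u) * y) + φ (x * (t * u)) + φ (u * y) + φ u)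
          + (φ (t * u * y) + φ (t * u) + φ (u * y) + φ u)
          = (φ (x * t * y) + φ (x * t) + φ y) + (φ (t * y) + φ t + φ y) := by rw [h1, h2]
      have h5 : (φ (x * (t * u) * y) + φ (x * (t * u)) + φ (u * y) + φ u)
          + (φ (t * u * y) + φ (t * u) + φ (u * y) + φ u)
          = (φ (x * (t * u) * y) + φ (x * (t * u)) + φ (t * u * y) + φ (t * u))
            + (φ (u * y) + φ (u * y)) + (φ u + φ u) := by abel
      have h6 : (φ (x * t * y) + φ (x * t) + φ y) + (φ (t * y) + φ t + φ y)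
          = (φ (x * t * y) + φ (x * t) + φ (t * y) + φ t) + (φ y + φ y) := by abel
      rw [h5, h6, hV, hV, hV, add_zero, add_zero, add_zero, h3] at h4
      exact h4
    · intro t _ htt x y
      -- E(t) implies E(t⁻¹): use E(t) at (x t⁻¹, t⁻¹ y), (x t⁻¹, t⁻¹ ), (t⁻¹, t⁻¹ y), (t⁻¹, t⁻¹)
      have a1 := htt (x * t⁻¹) (t⁻¹ * y)
      have a2 := htt (x * t⁻¹) t⁻¹
      have a3 := htt t⁻¹ (t⁻¹ * y)
      have a4 := htt t⁻¹ t⁻¹
      have e1 : x * t⁻¹ * t * (t⁻¹ * y) = x * t⁻¹ * y := by group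
      have e2 : x * t⁻¹ * t = x := by group
      have e3 : t * (t⁻¹ * y) = y := by group
      have e4 : x * t⁻¹ * t * t⁻¹ = x * t⁻¹ := by group
      have e5 : t⁻¹ * t * (t⁻¹ * y) = t⁻¹ * y := by group
      have e6 : t⁻¹ * t * t⁻¹ = t⁻¹ := by group
      rw [e1, e2, e3] at a1
      rw [mul_inv_cancel, φ1, e4, e2] at a2
      rw [e5, inv_mul_cancel, φ1, e3] at a3
      rw [e6, inv_mul_cancel, mul_inv_cancel, φ1] at a4
      have E0 := htt (x * t⁻¹) (t⁻¹ * y)
      -- we use E(t) at (x t⁻¹, y) as well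
      have b1 := htt (x * t⁻¹) y
      rw [e2] at b1
      -- b1 : φ (x y) + φ x + φ (t y) + φ t = φ (x t⁻¹ y) + φ (x t⁻¹) + φ y
      have b2 := htt t⁻¹ y
      rw [inv_mul_cancel, one_mul, φ1] at b2
      -- b2 : φ y + 0 + φ (t y) + φ t = φ (t⁻¹ y) + φ t⁻¹ + φ y
      have b3 : (φ (x * y) + φ x + φ (t * y) + φ t) + (φ y + 0 + φ (t * y) + φ t)
          = (φ (x * t⁻¹ * y) + φ (x * t⁻¹) + φ y) + (φ (t⁻¹ * y) + φ t⁻¹ + φ y) := by
        rw [b1, b2]
      have b4 : (φ (x * y) + φ x + φ (t * y) + φ t) + (φ y + 0 + φ (t * y) + φ t)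
          = (φ (x * y) + φ x + φ y) + (φ (t * y) + φ (t * y)) + (φ t + φ t) := by abel
      have b5 : (φ (x * t⁻¹ * y) + φ (x * t⁻¹) + φ y) + (φ (t⁻¹ * y) + φ t⁻¹ + φ y)
          = (φ (x * t⁻¹ * y) + φ (x * t⁻¹) + φ (t⁻¹ * y) + φ t⁻¹) + (φ y + φ y) := by abel
      rw [b4, b5, hV, hV, hV, add_zero, add_zero, add_zero] at b3
      exact b3.symm
  -- squares of elements of `P`
  have hPsq : ∀ x ∈ Subgroup.closure {x : π | ∃ y, x = y * y}, ∀ y, φ (x * x * y) = φ y := by
    intro x hx y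
    have h1 := hE x⁻¹ (Subgroup.inv_mem _ hx) x (x * y)
    have e1 : x * x⁻¹ * (x * y) = x * y := by group
    have e2 : x⁻¹ * (x * y) = y := by group
    have e3 : x * (x * y) = x * x * y := by group
    rw [e1, mul_inv_cancel, φ1, e2, e3, hinv] at h1
    -- h1 : φ (x y) + 0 + φ y + φ x = φ (x x y) + φ x + φ (x y)
    have h2 : φ y + (φ x + φ (x * y)) = φ (x * x * y) + (φ x + φ (x * y)) := by
      calc φ y + (φ x + φ (x * y)) = φ (x * y) + 0 + φ y + φ x := by abel
        _ = φ (x * x * y) + φ x + φ (x * y) := h1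
        _ = _ := by abel
    exact (add_right_cancel h2).symm
  -- the normal subgroup of invariances
  let N : Subgroup π :=
    { carrier := {g | ∀ x y, φ (x * g * y) = φ (x * y)}
      one_mem' := by intro x y; rw [mul_one]
      mul_mem' := by
        intro a b ha hb x y
        simp only [Set.mem_ofPred_eq] at ha hb
        have e1 : x * (a * b) * y = x * a * (b * y) := by group
        rw [e1, ha, ← mul_assoc, hb]
      inv_mem' := by
        intro a ha x y
        simp only [Set.mem_ofPred_eq] at ha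
        have e1 : x * y = x * a⁻¹ * a * y := by group
        rw [e1, ha] }
  have hNn : N.Normal := by
    constructor
    intro n hn g x y
    have e1 : x * (g * n * g⁻¹) * y = (x * g) * n * (g⁻¹ * y) := by group
    rw [e1, hn]
    congr 1; group
  have hSn : ∀ g w, w ∈ Subgroup.closure {x : π | ∃ y, x = y * y} →
      g * w * g⁻¹ ∈ Subgroup.closure {x : π | ∃ y, x = y * y} := by
    intro g w hw
    refine Subgroup.closure_induction (p := fun w _ => g * w * g⁻¹ ∈
      Subgroup.closure {x : π | ∃ y, x = y * y}) ?_ ?_ ?_ ?_ hw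
    · rintro x ⟨y, rfl⟩
      refine Subgroup.subset_closure ⟨g * y * g⁻¹, ?_⟩
      group
    · rw [mul_one, mul_inv_cancel]; exact Subgroup.one_mem _
    · intro x y _ _ hx hy
      have : g * (x * y) * g⁻¹ = (g * x * g⁻¹) * (g * y * g⁻¹) := by group
      rw [this]; exact Subgroup.mul_mem _ hx hy
    · intro x _ hx
      have : g * x⁻¹ * g⁻¹ = (g * x * g⁻¹)⁻¹ := by group
      rw [this]; exact Subgroup.inv_mem _ hx
  have hPN : ∀ x ∈ Subgroup.closure {x : π | ∃ y, x = y * y}, x * x ∈ N := by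
    intro x hx z y
    have e1 : z * (x * x) * y = (z * x * z⁻¹) * (z * x * z⁻¹) * (z * y) := by group
    rw [e1]
    exact hPsq _ (hSn z x hx) _
  -- the quotient is generated by `κ`
  have hmap : ∀ q ∈ Subgroup.closure {x : π ⧸ N | ∃ y, x = y * y},
      ∃ p ∈ Subgroup.closure {x : π | ∃ y, x = y * y}, (p : π ⧸ N) = q := by
    intro q hq
    refine Subgroup.closure_induction (p := fun q _ =>
      ∃ p ∈ Subgroup.closure {x : π | ∃ y, x = y * y}, (p : π ⧸ N) = q) ?_ ?_ ?_ ?_ hq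
    · rintro x ⟨y, rfl⟩
      obtain ⟨y, rfl⟩ := QuotientGroup.mk_surjective y
      exact ⟨y * y, Subgroup.subset_closure ⟨y, rfl⟩, rfl⟩
    · exact ⟨1, Subgroup.one_mem _, rfl⟩
    · rintro x y _ _ ⟨p, hp, rfl⟩ ⟨r, hr, rfl⟩
      exact ⟨p * r, Subgroup.mul_mem _ hp hr, rfl⟩
    · rintro x _ ⟨p, hp, rfl⟩
      exact ⟨p⁻¹, Subgroup.inv_mem _ hp, rfl⟩
  have hκQ : GenMod2 ((κ : π) : π ⧸ N) := by
    unfold GenMod2
    rw [eq_top_iff]
    intro q _
    obtain ⟨g, rfl⟩ := QuotientGroup.mk_surjective q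
    let H := (Subgroup.closure ({x : π ⧸ N | ∃ y, x = y * y} ∪ {((κ : π) : π ⧸ N)})).comap
      (QuotientGroup.mk' N)
    have : g ∈ H := by
      refine Alg_top hκ H ?_ ?_ g
      · intro y
        exact Subgroup.subset_closure (Or.inl ⟨((y : π) : π ⧸ N), rfl⟩)
      · exact Subgroup.subset_closure (Or.inr rfl)
    exact this
  have hcyc := Alg_cyclic hκQ (by
    intro q hq
    obtain ⟨p, hp, rfl⟩ := hmap q hq
    have := hPN p hp
    rw [← QuotientGroup.mk_mul, QuotientGroup.eq_one_iff]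
    exact this)
  have hκpow : ∀ i : ℤ, φ (κ ^ i) = 0 := by
    have hnat : ∀ i : ℕ, φ (κ ^ i) = 0 := by
      intro i
      induction i with
      | zero => simpa using φ1
      | succ i ih => rw [pow_succ', hκl, ih]
    intro i
    rcases Int.eq_nat_or_neg i with ⟨n, rfl | rfl⟩
    · rw [zpow_natCast]; exact hnat n
    · rw [zpow_neg, zpow_natCast, hinv]; exact hnat n
  intro g
  obtain ⟨i, hi⟩ := hcyc ((g : π) : π ⧸ N)
  have h1 : g⁻¹ * κ ^ i ∈ N := by
    rw [← QuotientGroup.eq]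
    rw [hi]; rfl
  have h2 := h1 g 1
  rw [mul_one, mul_one, mul_inv_cancel_left, hκpow] at h2
  exact h2.symm

end A2

section A3

variable {G : Type*} [Group G]

/-- The quotient by a normal subgroup `M`: if `G` is generated by the squares, `l` and `M`, then
`G / M` is generated by the squares and the class of `l`. -/
theorem Alg_gen_quot (M : Subgroup G) [M.Normal] (l : G)
    (hgen : Subgroup.closure ({x : G | ∃ y, x = y * y} ∪ {l} ∪ (M : Set G)) = ⊤) :
    GenMod2 ((l : G) : G ⧸ M) := by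
  unfold GenMod2
  rw [eq_top_iff]
  intro q _
  obtain ⟨g, rfl⟩ := QuotientGroup.mk_surjective q
  let H := (Subgroup.closure ({x : G ⧸ M | ∃ y, x = y * y} ∪ {((l : G) : G ⧸ M)})).comap
    (QuotientGroup.mk' M)
  have hH : Subgroup.closure ({x : G | ∃ y, x = y * y} ∪ {l} ∪ (M : Set G)) ≤ H := by
    rw [Subgroup.closure_le]
    rintro x ((⟨y, rfl⟩ | hx) | hx)
    · exact Subgroup.subset_closure (Or.inl ⟨((y : G) : G ⧸ M), rfl⟩)
    · rw [Set.mem_singleton_iff.1 hx]
      exact Subgroup.subset_closure (Or.inr rfl)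
    · have h1 : ((x : G) : G ⧸ M) = 1 := (QuotientGroup.eq_one_iff x).2 hx
      change ((x : G) : G ⧸ M) ∈ Subgroup.closure _
      rw [h1]; exact Subgroup.one_mem _
  rw [hgen] at hH
  exact hH (Subgroup.mem_top g)

/-- **A3.** Steps (1)-(3) imply that the whole normal closure `M` of the meridian lies in `L`. -/
theorem Alg_M (m l : G) (L : Subgroup G) (hm : m ∈ L)
    (hcomm : ∀ a ∈ Subgroup.normalClosure {m}, ∀ b ∈ Subgroup.normalClosure {m},
      a * b * a⁻¹ * b⁻¹ ∈ L)
    (hsq : ∀ g : G, (g * m * g⁻¹) * (g * m * g⁻¹) ∈ L) (hl : l * m = m * l)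
    (hgen : Subgroup.closure ({x : G | ∃ y, x = y * y} ∪ {l} ∪
      (Subgroup.normalClosure {m} : Set G)) = ⊤)
    (h3 : ∀ a η : G, (η⁻¹ * (m * (a * m * a⁻¹)) * η * (m * (a * m * a⁻¹))) *
      ((m * (a * m * a⁻¹)) * (η * (m * (a * m * a⁻¹)) * η⁻¹)) ∈ L) :
    Subgroup.normalClosure {m} ≤ L := by
  let M : Subgroup G := Subgroup.normalClosure {m}
  have hmM : m ∈ M := Subgroup.subset_normalClosure rfl
  have hcM : ∀ g : G, g * m * g⁻¹ ∈ M := fun g => Subgroup.normalClosure_normal.conj_mem m hmM g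
  let K : Subgroup M := L.subgroupOf M
  let K' : Subgroup (Abelianization M) := K.map Abelianization.of
  let q : M →* (Abelianization M ⧸ K') := (QuotientGroup.mk' K').comp Abelianization.of
  have hcommK : commutator M ≤ K := by
    rw [commutator_def, Subgroup.commutator_le]
    intro a _ b _
    rw [Subgroup.mem_subgroupOf]
    have := hcomm a.1 a.2 b.1 b.2
    simpa [commutatorElement_def] using this
  have hq : ∀ x : M, q x = 1 ↔ (x : G) ∈ L := by
    intro x
    constructor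
    · intro h
      have h1 : Abelianization.of x ∈ K' := (QuotientGroup.eq_one_iff _).1 h
      obtain ⟨y, hy, hyx⟩ := Subgroup.mem_map.1 h1
      have h2 : y⁻¹ * x ∈ commutator M := by
        rw [← Abelianization.ker_of, MonoidHom.mem_ker, map_mul, map_inv, hyx, inv_mul_cancel]
      have h3 : x ∈ K := by
        have := K.mul_mem hy (hcommK h2)
        rwa [mul_inv_cancel_left] at this
      exact Subgroup.mem_subgroupOf.1 h3
    · intro h
      exact (QuotientGroup.eq_one_iff _).2 (Subgroup.mem_map_of_mem _ (Subgroup.mem_subgroupOf.2 h))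
  let d : G → M := fun g => ⟨g * m * g⁻¹, hcM g⟩
  let f : G → Additive (Abelianization M ⧸ K') := fun g => Additive.ofMul (q (d g))
  have hdd : ∀ g, q (d g) * q (d g) = 1 := by
    intro g
    rw [← map_mul, hq]; exact hsq g
  -- every element of the quotient has exponent two
  have hq2 : ∀ x : M, q x * q x = 1 := by
    let T : Subgroup G :=
      { carrier := {x | ∀ hx : x ∈ M, q ⟨x, hx⟩ * q ⟨x, hx⟩ = 1} ∩ M
        one_mem' := ⟨fun hx => by
          have : (⟨1, hx⟩ : M) = 1 := rfl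
          rw [this, map_one, one_mul], M.one_mem⟩
        mul_mem' := by
          rintro a b ⟨ha, haM⟩ ⟨hb, hbM⟩
          refine ⟨fun hx => ?_, M.mul_mem haM hbM⟩
          have e : (⟨a * b, hx⟩ : M) = ⟨a, haM⟩ * ⟨b, hbM⟩ := rfl
          rw [e, map_mul, mul_mul_mul_comm, ha haM, hb hbM, one_mul]
        inv_mem' := by
          rintro a ⟨ha, haM⟩
          refine ⟨fun hx => ?_, M.inv_mem haM⟩
          have e : (⟨a⁻¹, hx⟩ : M) = (⟨a, haM⟩ : M)⁻¹ := rfl
          rw [e, map_inv, ← mul_inv, ha haM, inv_one] }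
    have hMT : M ≤ T := by
      change Subgroup.closure _ ≤ T
      rw [Subgroup.closure_le]
      intro x hx
      rw [Group.mem_conjugatesOfSet_iff] at hx
      obtain ⟨y, hy, hyx⟩ := hx
      rw [Set.mem_singleton_iff] at hy
      subst hy
      obtain ⟨c, hc⟩ := isConj_iff.1 hyx
      subst hc
      exact ⟨fun _ => hdd c, hcM c⟩
    intro x
    exact (hMT x.2).1 x.2
  have hV : ∀ v : Additive (Abelianization M ⧸ K'), v + v = 0 := by
    intro v
    obtain ⟨w, rfl⟩ := Additive.ofMul.surjective v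
    obtain ⟨x, rfl⟩ := QuotientGroup.mk_surjective w
    obtain ⟨x, rfl⟩ := QuotientGroup.mk_surjective x
    have := hq2 x
    exact congrArg Additive.ofMul this
  -- invariance under `M`
  have hfM : ∀ g, ∀ u ∈ M, f (g * u) = f g := by
    intro g u hu
    have h1 : q (d (g * u)) = q (d g) := by
      let gu : M := ⟨g * u * g⁻¹, Subgroup.normalClosure_normal.conj_mem u hu g⟩
      have e : d (g * u) = gu * d g * gu⁻¹ := by
        apply Subtype.ext
        change g * u * m * (g * u)⁻¹ = g * u * g⁻¹ * (g * m * g⁻¹) * (g * u * g⁻¹)⁻¹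
        group
      rw [e, map_mul, map_mul, map_inv, mul_comm (q gu), mul_inv_cancel_right]
    exact congrArg Additive.ofMul h1
  have hfl : ∀ g, f (g * l) = f g := by
    intro g
    have e : d (g * l) = d g := by
      apply Subtype.ext
      change g * l * m * (g * l)⁻¹ = g * m * g⁻¹
      have : g * l * m * (g * l)⁻¹ = g * (l * m) * l⁻¹ * g⁻¹ := by group
      rw [this, hl]; group
    change Additive.ofMul (q (d (g * l))) = Additive.ofMul (q (d g))
    rw [e]
  have hf1 : f 1 = 0 := by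
    have : q (d 1) = 1 := by
      rw [hq]
      change 1 * m * 1⁻¹ ∈ L
      simpa using hm
    exact congrArg Additive.ofMul this
  have hf3 : ∀ η a, f η + f (η * a) + f η⁻¹ + f (η⁻¹ * a) = 0 := by
    intro η a
    let β : M := d 1 * d a
    have hβ : (β : G) = m * (a * m * a⁻¹) := by
      change 1 * m * 1⁻¹ * (a * m * a⁻¹) = _
      group
    let βi : M := d η⁻¹ * d (η⁻¹ * a)
    have hβi : (βi : G) = η⁻¹ * (m * (a * m * a⁻¹)) * η := by
      change η⁻¹ * m * (η⁻¹)⁻¹ * (η⁻¹ * a * m * (η⁻¹ * a)⁻¹) = _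
      group
    let βη : M := d η * d (η * a)
    have hβη : (βη : G) = η * (m * (a * m * a⁻¹)) * η⁻¹ := by
      change η * m * η⁻¹ * (η * a * m * (η * a)⁻¹) = _
      group
    have h1 : q ((βi * β) * (β * βη)) = 1 := by
      rw [hq]
      have := h3 a η
      rw [← hβi, ← hβη, ← hβ] at this
      exact this
    have h2 : q (d η) * q (d (η * a)) * q (d η⁻¹) * q (d (η⁻¹ * a)) = 1 := by
      have e1 : q ((βi * β) * (β * βη)) = (q (d η⁻¹) * q (d (η⁻¹ * a))) * (q β * q β)
          * (q (d η) * q (d (η * a))) := by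
        simp only [βi, βη, map_mul]
        group
      rw [e1, hq2, mul_one] at h1
      rw [← h1]
      rw [mul_assoc (q (d η) * q (d (η * a))), mul_comm]
    exact congrArg Additive.ofMul h2
  -- descend to `G / M`
  have : M.Normal := Subgroup.normalClosure_normal
  let F : G ⧸ M → Additive (Abelianization M ⧸ K') := Quotient.lift f (by
    intro a b hab
    have h1 : a⁻¹ * b ∈ M := QuotientGroup.leftRel_apply.1 hab
    have h2 := hfM a _ h1
    rw [mul_inv_cancel_left] at h2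
    exact h2.symm)
  have hF : ∀ g : G, F (g : G ⧸ M) = f g := fun g => rfl
  have hall := Alg_f (Alg_gen_quot M l hgen) hV F hf1
    (by
      intro g
      obtain ⟨g, rfl⟩ := QuotientGroup.mk_surjective g
      exact hfl g)
    (by
      intro η a
      obtain ⟨η, rfl⟩ := QuotientGroup.mk_surjective η
      obtain ⟨a, rfl⟩ := QuotientGroup.mk_surjective a
      exact hf3 η a)
  have hf0 : ∀ g, g * m * g⁻¹ ∈ L := by
    intro g
    have h1 : f g = 0 := hall (g : G ⧸ M)
    have h2 : q (d g) = 1 := h1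
    exact (hq (d g)).1 h2
  change Subgroup.closure _ ≤ L
  rw [Subgroup.closure_le]
  intro x hx
  rw [Group.mem_conjugatesOfSet_iff] at hx
  obtain ⟨y, hy, hyx⟩ := hx
  rw [Set.mem_singleton_iff] at hy
  subst hy
  obtain ⟨c, hc⟩ := isConj_iff.1 hyx
  subst hc
  exact hf0 c

end A3

end Pool.Agent.NHT
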