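import Pool.Agent.NHT.AlgC

/-!
# NHT/AlgD: the group theory of steps (1)-(3) of the homotopy theorem, in one statement

`AlgD_main`: if `L` contains the meridian `m`, all conjugates of `[b, e b e⁻¹]`, and
`(e⁻¹ b e) (e b e⁻¹)` for `b = [m, a]`, all `a, e`, then `L` contains the normal closure of `m`.
-/

namespace Pool.Agent.NHT

open Subgroup
open scoped commutatorElement

universe u v

section f2

variable {π : Type*} [Group π] {V : Type*} [AddCommGroup V]

/-- A function which is additive for left multiplication by squares, invariant under left multiplication by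
the other generators, is zero. -/
theorem AlgD_hom {K : Set π} (hK : closure ({x : π | ∃ y, x = y * y} ∪ K) = ⊤)
    (hV : ∀ v : V, v + v = 0) (F : π → V) (F1 : F 1 = 0)
    (hw : ∀ w ∈ closure {x : π | ∃ y, x = y * y}, ∀ a, F (w * a) = F w + F a)
    (hκ : ∀ κ ∈ K, ∀ a, F (κ * a) = F a) : ∀ g, F g = 0 := by
  have hK0 : ∀ κ ∈ K, F κ = 0 := by
    intro κ h
    have := hκ κ h 1
    rwa [mul_one, F1] at this
  have h1 : ∀ g, g ∈ Alg_add F F1 := by
    intro g
    have hle : closure ({x : π | ∃ y, x = y * y} ∪ K) ≤ Alg_add F F1 := by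
      rw [closure_le]
      rintro x (hx | hx)
      · intro a
        exact hw x (subset_closure hx) a
      · intro a
        rw [hκ x hx, hK0 x hx, zero_add]
    rw [hK] at hle
    exact hle (mem_top g)
  let Z : Subgroup π :=
    { carrier := {g | F g = 0}
      one_mem' := F1
      mul_mem' := by
        intro a b ha hb
        simp only [Set.mem_ofPred_eq] at ha hb ⊢
        have := h1 a b
        rw [this, ha, hb, add_zero]
      inv_mem' := by
        intro a ha
        simp only [Set.mem_ofPred_eq] at ha ⊢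
        have := h1 a a⁻¹
        rw [mul_inv_cancel, F1, ha, zero_add] at this
        exact this.symm }
  intro g
  have hle : closure ({x : π | ∃ y, x = y * y} ∪ K) ≤ Z := by
    rw [closure_le]
    rintro x (⟨y, rfl⟩ | hx)
    · have := h1 y y
      change F (y * y) = 0
      rw [this, hV]
    · exact hK0 x hx
  rw [hK] at hle
  exact hle (mem_top g)

/-- `Alg_f` with two commuting generators `κ`, `μ`. -/
theorem AlgD_f {κ μ : π} (hc : κ * μ = μ * κ)
    (hgen : closure ({x : π | ∃ y, x = y * y} ∪ {κ, μ}) = ⊤)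
    (hV : ∀ v : V, v + v = 0) (f : π → V) (f1 : f 1 = 0)
    (fκ : ∀ g, f (g * κ) = f g) (fμ : ∀ g, f (g * μ) = f g)
    (h : ∀ η a, f η + f (η * a) + f η⁻¹ + f (η⁻¹ * a) = 0) : ∀ g, f g = 0 := by
  -- `f (w a) = f w + f a` for squares
  have hsq : ∀ η a, f (η * η * a) = f (η * η) + f a := by
    have key : ∀ η a, f (η * η * a) = f a + (f η + f η⁻¹) := by
      intro η a
      have h1 := h η (η * a)
      rw [inv_mul_cancel_left, ← mul_assoc] at h1
      have h2 : f (η * η * a) + (f a + (f η + f η⁻¹)) = 0 := by rw [← h1]; abel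
      exact Alg_cancel hV h2
    intro η a
    have h1 := key η 1
    rw [mul_one, f1, zero_add] at h1
    rw [key, h1, add_comm]
  set P := Alg_add f f1 with hP
  have hsqP : ∀ η, η * η ∈ P := fun η => hsq η
  let S : Subgroup π := closure {x : π | ∃ y, x = y * y}
  have hSP : S ≤ P := by
    rw [closure_le]; rintro x ⟨y, rfl⟩; exact hsqP y
  have hSn : ∀ g w, w ∈ S → g * w * g⁻¹ ∈ S := by
    intro g w hw
    refine closure_induction (p := fun w _ => g * w * g⁻¹ ∈ S) ?_ ?_ ?_ ?_ hw
    · rintro x ⟨y, rfl⟩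
      refine subset_closure ⟨g * y * g⁻¹, ?_⟩
      group
    · rw [mul_one, mul_inv_cancel]; exact S.one_mem
    · intro x y _ _ hx hy
      have : g * (x * y) * g⁻¹ = (g * x * g⁻¹) * (g * y * g⁻¹) := by group
      rw [this]; exact S.mul_mem hx hy
    · intro x _ hx
      have : g * x⁻¹ * g⁻¹ = (g * x * g⁻¹)⁻¹ := by group
      rw [this]; exact S.inv_mem hx
  have hS : ∀ w ∈ S, ∀ a, f (w * a) = f w + f a := fun w hw => hSP hw
  -- right invariance
  have fκμ : ∀ g, f (g * (κ * μ)) = f g := by
    intro g; rw [← mul_assoc, fμ, fκ]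
  have fκ0 : f κ = 0 := by have := fκ 1; rwa [one_mul, f1] at this
  have fμ0 : f μ = 0 := by have := fμ 1; rwa [one_mul, f1] at this
  -- for `c` with `f (g c) = f g`: `f (c (w a)) = f (c w) + f (c a)`
  have hcw : ∀ c, (∀ g, f (g * c) = f g) → ∀ w ∈ S, ∀ a, f (c * (w * a)) = f (c * w) + f (c * a) := by
    intro c hc w hw a
    have h3 := hSn c w hw
    have e1 : f (c * (w * a)) = f (c * w * c⁻¹) + f (c * a) := by
      rw [← hS _ h3]; congr 1; group
    have e2 : f (c * w) = f (c * w * c⁻¹) := by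
      have : c * w = (c * w * c⁻¹) * c := by group
      calc f (c * w) = f ((c * w * c⁻¹) * c) := by rw [← this]
        _ = f (c * w * c⁻¹) := hc _
    rw [e1, e2]
  have hcc : ∀ c, (∀ g, f (g * c) = f g) → ∀ a, f (c * c * a) = f a := by
    intro c hc a
    rw [hsq]
    have : f (c * c) = 0 := by
      rw [hc]
      have := hc 1
      rwa [one_mul, f1] at this
    rw [this, zero_add]
  have hgen' : ∀ c ∈ ({κ, μ} : Set π), c = κ ∨ c = μ := by
    intro c hc
    exact hc
  -- the function `f g + f (κ g) + f (μ g) + f (κ μ g)`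
  have h12 := AlgD_hom hgen hV (fun g => f g + f (κ * g) + (f (μ * g) + f (κ * μ * g)))
    (by
      rw [mul_one, mul_one, mul_one, f1, fκ0, fμ0, fμ, fκ0]; abel)
    (by
      intro w hw a
      rw [hS w hw, hcw κ fκ w hw, hcw μ fμ w hw, hcw (κ * μ) fκμ w hw]; abel)
    (by
      intro c hcm a
      rcases hgen' c hcm with rfl | rfl
      · have e1 : c * (c * a) = c * c * a := by group
        have e2 : μ * (c * a) = c * μ * a := by rw [hc]; group
        have e3 : c * μ * (c * a) = c * c * (μ * a) := by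
          have : c * μ * (c * a) = c * (μ * c) * a := by group
          rw [this, ← hc]; group
        rw [e1, e2, e3, hcc c fκ, hcc c fκ]; abel
      · have e1 : κ * (c * a) = κ * c * a := by group
        have e2 : c * (c * a) = c * c * a := by group
        have e3 : κ * c * (c * a) = c * c * (κ * a) := by
          have : κ * c * (c * a) = (κ * c) * c * a := by group
          have h' : c * c * (κ * a) = c * (c * κ) * a := by group
          rw [this, h', ← hc, ← mul_assoc c, ← hc]
        rw [e1, e2, e3, hcc c fμ, hcc c fμ]; abel)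
  have hκμ : ∀ g, f g + f (κ * g) = f (μ * g) + f (κ * μ * g) := fun g => Alg_cancel hV (h12 g)
  -- `f (κ g) = f g`
  have h1 := AlgD_hom hgen hV (fun g => f g + f (κ * g))
    (by
      rw [mul_one, f1, fκ0, add_zero])
    (by
      intro w hw a
      rw [hS w hw, hcw κ fκ w hw]; abel)
    (by
      intro c hcm a
      rcases hgen' c hcm with rfl | rfl
      · have e1 : c * (c * a) = c * c * a := by group
        rw [e1, hcc c fκ, add_comm]
      · rw [hκμ a, ← mul_assoc])
  have hκ' : ∀ g, f (κ * g) = f g := fun g => (Alg_cancel hV (h1 g)).symm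
  -- `f (μ g) = f g`
  have h2 := AlgD_hom hgen hV (fun g => f g + f (μ * g))
    (by
      rw [mul_one, f1, fμ0, add_zero])
    (by
      intro w hw a
      rw [hS w hw, hcw μ fμ w hw]; abel)
    (by
      intro c hcm a
      rcases hgen' c hcm with rfl | rfl
      · rw [hκ' a, ← mul_assoc, ← hc, mul_assoc, hκ' (μ * a)]
      · have e1 : c * (c * a) = c * c * a := by group
        rw [e1, hcc c fμ, add_comm])
  have hμ' : ∀ g, f (μ * g) = f g := fun g => (Alg_cancel hV (h2 g)).symm
  refine AlgD_hom hgen hV f f1 hS ?_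
  intro c hcm a
  rcases hgen' c hcm with rfl | rfl
  · exact hκ' a
  · exact hμ' a

end f2

section fit

variable {G : Type u} [Group G]

theorem AlgD_iSup {ι : Sort*} (H : ι → Subgroup G) (h : ∀ i, (H i).Normal) :
    (⨆ i, H i).Normal := by
  have := h
  infer_instance

/-- the elements `a` with `[a, x] ∈ N` for all `x ∈ X` -/
def AlgD_left (N : Subgroup G) [N.Normal] (X : Set G) : Subgroup G where
  carrier := {a | ∀ x ∈ X, cm a x ∈ N}
  one_mem' := by
    intro x _
    have : cm 1 x = 1 := by unfold cm; group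
    rw [this]; exact N.one_mem
  mul_mem' := by
    intro a b ha hb x hx
    have h1 : cm (a * b) x = a * cm b x * a⁻¹ * cm a x := by unfold cm; group
    rw [h1]
    exact N.mul_mem ((inferInstance : N.Normal).conj_mem _ (hb x hx) a) (ha x hx)
  inv_mem' := by
    intro a ha x hx
    have h1 : cm a⁻¹ x = a⁻¹ * (cm a x)⁻¹ * a⁻¹⁻¹ := by unfold cm; group
    rw [h1]
    exact (inferInstance : N.Normal).conj_mem _ (N.inv_mem (ha x hx)) a⁻¹

/-- the elements `x` with `[a, x] ∈ N` for all `a ∈ X` -/
def AlgD_right (N : Subgroup G) [N.Normal] (X : Set G) : Subgroup G where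
  carrier := {x | ∀ a ∈ X, cm a x ∈ N}
  one_mem' := by
    intro x _
    have : cm x 1 = 1 := by unfold cm; group
    rw [this]; exact N.one_mem
  mul_mem' := by
    intro x y hx hy a ha
    rw [cm_mul]
    exact N.mul_mem (hx a ha) ((inferInstance : N.Normal).conj_mem _ (hy a ha) x)
  inv_mem' := by
    intro x hx a ha
    rw [cm_inv]
    have := (inferInstance : N.Normal).conj_mem _ (N.inv_mem (hx a ha)) x⁻¹
    rwa [inv_inv] at this

/-- Fitting: a product of finitely many commutative normal subgroups has a finite central series. -/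
theorem AlgD_series {ι : Type v} [Finite ι] (T : ι → Subgroup G) (hn : ∀ i, (T i).Normal)
    (hab : ∀ i, ∀ u ∈ T i, ∀ v ∈ T i, u * v = v * u) :
    ∃ (F : ℕ → Subgroup G) (n : ℕ), (∀ k, (F k).Normal) ∧ (⨆ i, T i) ≤ F 0 ∧ F n = ⊥ ∧
      ∀ k, ∀ d ∈ ⨆ i, T i, ∀ x ∈ F k, cm d x ∈ F (k + 1) := by
  classical
  have := Fintype.ofFinite ι
  let F : ℕ → Subgroup G := fun k => ⨆ (I : Finset ι), ⨆ (_ : k < I.card), ⨅ i ∈ I, T i
  have hFn : ∀ k, (F k).Normal := by
    intro k
    refine AlgD_iSup _ (fun I => ?_)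
    refine AlgD_iSup _ (fun _ => ?_)
    refine Subgroup.normal_iInf_normal (fun i => ?_)
    exact Subgroup.normal_iInf_normal (fun _ => hn i)
  refine ⟨F, Fintype.card ι, hFn, ?_, ?_, ?_⟩
  · refine iSup_le (fun i => ?_)
    refine le_iSup_of_le ({i} : Finset ι) (le_iSup_of_le (by simp) ?_)
    simp
  · rw [eq_bot_iff]
    refine iSup_le (fun I => iSup_le (fun hI => ?_))
    exact absurd hI (not_lt.2 (Finset.card_le_univ I))
  · intro k d hd x hx
    have hN := hFn (k + 1)
    have h1 : F k ≤ AlgD_right (F (k + 1)) ((⨆ i, T i : Subgroup G) : Set G) := by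
      refine iSup_le (fun I => iSup_le (fun hI => ?_))
      intro x hx a ha
      have h2 : (⨆ i, T i) ≤ AlgD_left (F (k + 1)) {x} := by
        refine iSup_le (fun i => ?_)
        intro a ha y hy
        rw [Set.mem_singleton_iff.1 hy]
        have hxj : ∀ j ∈ I, x ∈ T j := by
          intro j hj
          have := (Subgroup.mem_iInf.1 hx) j
          exact (Subgroup.mem_iInf.1 this) hj
        by_cases hi : i ∈ I
        · have : cm a x = 1 := by
            have h3 := hab i a ha x (hxj i hi)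
            unfold cm
            rw [h3]; group
          rw [this]; exact (F (k + 1)).one_mem
        · have hmem : cm a x ∈ ⨅ j ∈ insert i I, T j := by
            rw [Subgroup.mem_iInf]
            intro j
            rw [Subgroup.mem_iInf]
            intro hj
            rcases Finset.mem_insert.1 hj with rfl | hj
            · have h3 : cm a x = a * (x * a⁻¹ * x⁻¹) := by unfold cm; group
              rw [h3]
              exact (T j).mul_mem ha ((hn j).conj_mem _ ((T j).inv_mem ha) x)
            · have h3 : cm a x = (a * x * a⁻¹) * x⁻¹ := by unfold cm; group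
              rw [h3]
              exact (T j).mul_mem ((hn j).conj_mem _ (hxj j hj) a) ((T j).inv_mem (hxj j hj))
          have hle : (⨅ j ∈ insert i I, T j) ≤ F (k + 1) := by
            refine le_iSup_of_le (insert i I) (le_iSup_of_le ?_ le_rfl)
            rw [Finset.card_insert_of_notMem hi]
            omega
          exact hle hmem
      exact h2 ha x rfl
    exact h1 hx d hd

/-- In a group with a finite central series a subgroup which generates modulo the commutators is everything. -/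
theorem AlgD_fit (D N : Subgroup G) (F : ℕ → Subgroup G) (n : ℕ) (hFn : ∀ k, (F k).Normal)
    (h0 : D ≤ F 0) (hn : F n = ⊥) (hF : ∀ k, ∀ d ∈ D, ∀ x ∈ F k, cm d x ∈ F (k + 1))
    (hND : N ≤ D) (hD : D ≤ N ⊔ ⁅D, D⁆) : D ≤ N := by
  have key : ∀ k, D ≤ N ⊔ F k := by
    intro k
    induction k with
    | zero => exact h0.trans le_sup_right
    | succ k ih =>
      have hFk := hFn k
      have hFk1 := hFn (k + 1)
      have hcom : ⁅D, D⁆ ≤ N ⊔ F (k + 1) := by
        rw [commutator_le]
        intro a ha b hb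
        obtain ⟨p, hp, x, hx, hpx⟩ := mem_sup_of_normal_right.1 (ih ha)
        obtain ⟨q, hq, y, hy, hqy⟩ := mem_sup_of_normal_right.1 (ih hb)
        -- in the quotient by `F (k+1)`, `x` and `y` commute with `D`
        have hxc : ∀ d ∈ D, ∀ x ∈ F k, ((d : G) : G ⧸ F (k + 1)) * ((x : G) : G ⧸ F (k + 1))
            = ((x : G) : G ⧸ F (k + 1)) * ((d : G) : G ⧸ F (k + 1)) := by
          intro d hd x hx
          have h1 : ((cm d x : G) : G ⧸ F (k + 1)) = 1 :=
            (QuotientGroup.eq_one_iff _).2 (hF k d hd x hx)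
          exact comm_of_cm (x := ((d : G) : G ⧸ F (k + 1))) (g := ((x : G) : G ⧸ F (k + 1))) h1
        have hxD : x ∈ D := by
          have : x = p⁻¹ * a := by rw [← hpx]; group
          rw [this]; exact D.mul_mem (D.inv_mem (hND hp)) ha
        have e : ((⁅a, b⁆ : G) : G ⧸ F (k + 1)) = ((⁅p, q⁆ : G) : G ⧸ F (k + 1)) := by
          rw [← hpx, ← hqy]
          simp only [commutatorElement_def, QuotientGroup.mk_mul, QuotientGroup.mk_inv]
          have c1 := hxc q (hND hq) x hx
          have c2 := hxc p (hND hp) y hy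
          have c3 := hxc x hxD y hy
          generalize ((p : G) : G ⧸ F (k + 1)) = P at *
          generalize ((q : G) : G ⧸ F (k + 1)) = Q at *
          generalize ((x : G) : G ⧸ F (k + 1)) = X at *
          generalize ((y : G) : G ⧸ F (k + 1)) = Y at *
          have t1 : P * X * (Q * Y) * (P * X)⁻¹ * (Q * Y)⁻¹
              = P * (X * Q) * Y * X⁻¹ * P⁻¹ * Y⁻¹ * Q⁻¹ := by group
          have t2 : P * (Q * X) * Y * X⁻¹ * P⁻¹ * Y⁻¹ * Q⁻¹
              = P * Q * (X * Y) * X⁻¹ * P⁻¹ * Y⁻¹ * Q⁻¹ := by group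
          have t3 : P * Q * (Y * X) * X⁻¹ * P⁻¹ * Y⁻¹ * Q⁻¹
              = P * Q * (Y * P⁻¹) * Y⁻¹ * Q⁻¹ := by group
          have c2' : Y * P⁻¹ = P⁻¹ * Y := by
            have : P⁻¹ * (P * Y) * P⁻¹ = P⁻¹ * (Y * P) * P⁻¹ := by rw [c2]
            have u1 : P⁻¹ * (P * Y) * P⁻¹ = Y * P⁻¹ := by group
            have u2 : P⁻¹ * (Y * P) * P⁻¹ = P⁻¹ * Y := by group
            rw [← u1, this, u2]
          rw [t1, ← c1, t2, c3, t3, c2']; group
        have h2 : (⁅p, q⁆ : G)⁻¹ * ⁅a, b⁆ ∈ F (k + 1) := QuotientGroup.eq.1 e.symm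
        have h3 : (⁅p, q⁆ : G) ∈ N := by
          rw [commutatorElement_def]
          exact N.mul_mem (N.mul_mem (N.mul_mem hp hq) (N.inv_mem hp)) (N.inv_mem hq)
        have h4 : (⁅a, b⁆ : G) = ⁅p, q⁆ * ((⁅p, q⁆ : G)⁻¹ * ⁅a, b⁆) := by group
        rw [h4]
        exact (N ⊔ F (k + 1)).mul_mem (le_sup_left (a := N) h3) (le_sup_right (a := N) h2)
      exact hD.trans (sup_le le_sup_left hcom)
  have := key n
  rwa [hn, sup_bot_eq] at this

end fit

section main

/-- The core: the commutators `[x, g]` lie in `L`, if the `[x, a]` commute with their conjugates. -/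
theorem AlgD_core {G : Type u} [Group G] (x l : G) (L : Subgroup G) (hl : l * x = x * l)
    (hT : ∀ a e : G, cm x a * (e * cm x a * e⁻¹) = (e * cm x a * e⁻¹) * cm x a)
    (h3 : ∀ a e : G, (e⁻¹ * cm x a * e) * (e * cm x a * e⁻¹) ∈ L)
    (hgen : closure ({y : G | ∃ z, y = z * z} ∪ {l} ∪ (normalClosure {x} : Set G)) = ⊤)
    (A : Finset G) (hfin : closure ({c : G | c * x = x * c} ∪ (A : Set G)) = ⊤) :
    ∀ g, cm x g ∈ L := by
  classical
  have h2 : ∀ a : G, cm x a * cm x a ∈ L := by
    intro a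
    have := h3 a 1
    simpa only [inv_one, one_mul, mul_one] using this
  let T : A → Subgroup G := fun a => normalClosure {cm x (a : G)}
  have hTn : ∀ i, (T i).Normal := fun i => normalClosure_normal
  have hTab : ∀ i, ∀ u ∈ T i, ∀ v ∈ T i, u * v = v * u := by
    intro i u hu v hv
    exact AlgC_comm (fun e => hT i e) hu hv
  obtain ⟨F, n, hFn, hF0, hFb, hFc⟩ := AlgD_series T hTn hTab
  set D : Subgroup G := ⨆ i, T i with hDdef
  have hDn : D.Normal := AlgD_iSup T hTn
  have hcmD : ∀ g, cm x g ∈ D := by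
    intro g
    have hle : closure ({c : G | c * x = x * c} ∪ (A : Set G)) ≤ AlgD_right D {x} := by
      rw [closure_le]
      rintro c (hc | hc)
      · intro y hy
        rw [Set.mem_singleton_iff.1 hy, cm_of_comm (x := x) (g := c) (Eq.symm hc)]
        exact D.one_mem
      · intro y hy
        rw [Set.mem_singleton_iff.1 hy]
        have h1 : T ⟨c, hc⟩ ≤ D := le_iSup T ⟨c, hc⟩
        exact h1 (subset_normalClosure rfl)
    rw [hfin] at hle
    exact hle (mem_top g) x rfl
  have hDcl : D ≤ closure (Set.range (cm x)) := by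
    refine iSup_le (fun i => ?_)
    change Subgroup.closure _ ≤ _
    rw [closure_le]
    intro z hz
    rw [Group.mem_conjugatesOfSet_iff] at hz
    obtain ⟨y, hy, hyz⟩ := hz
    rw [Set.mem_singleton_iff] at hy
    subst hy
    obtain ⟨c, rfl⟩ := isConj_iff.1 hyz
    have e : c * cm x (i : G) * c⁻¹ = (cm x c)⁻¹ * cm x (c * i) := by
      rw [cm_mul]; group
    rw [e]
    exact (Subgroup.closure _).mul_mem ((Subgroup.closure _).inv_mem (subset_closure ⟨c, rfl⟩))
      (subset_closure ⟨c * i, rfl⟩)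
  -- the group `V`
  let N : Subgroup G := L ⊓ D
  let N' : Subgroup (Abelianization D) := (N.subgroupOf D).map Abelianization.of
  let p : D →* (Abelianization D) ⧸ N' := (QuotientGroup.mk' N').comp Abelianization.of
  have hpN : ∀ d : D, (d : G) ∈ L → p d = 1 := by
    intro d hd
    refine (QuotientGroup.eq_one_iff _).2 ?_
    exact ⟨d, ⟨hd, d.2⟩, rfl⟩
  have hp1 : ∀ d : D, p d = 1 → (d : G) ∈ N ⊔ ⁅D, D⁆ := by
    intro d hd
    have h1 : Abelianization.of d ∈ N' := (QuotientGroup.eq_one_iff _).1 hd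
    obtain ⟨e, he, hed⟩ := h1
    have h2 : e⁻¹ * d ∈ _root_.commutator D := QuotientGroup.eq.1 hed
    have h3 : ((e⁻¹ * d : D) : G) ∈ ⁅D, D⁆ := by
      rw [← map_subtype_commutator]
      exact ⟨_, h2, rfl⟩
    have h4 : (e : G) ∈ N := he
    have h5 : (d : G) = (e : G) * ((e⁻¹ * d : D) : G) := by
      change (d : G) = (e : G) * ((e : G)⁻¹ * (d : G))
      group
    rw [h5]
    exact (N ⊔ ⁅D, D⁆).mul_mem (le_sup_left (a := N) h4) (le_sup_right (a := N) h3)
  let V := Additive ((Abelianization D) ⧸ N')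
  let f : G → V := fun g => Additive.ofMul (p ⟨cm x g, hcmD g⟩)
  have hf2 : ∀ g, f g + f g = 0 := by
    intro g
    have := hpN (⟨cm x g, hcmD g⟩ * ⟨cm x g, hcmD g⟩) (h2 g)
    rw [map_mul] at this
    exact this
  have hV : ∀ v : V, v + v = 0 := by
    intro v
    obtain ⟨w, hw⟩ := QuotientGroup.mk_surjective (Additive.toMul v)
    obtain ⟨d, hd⟩ := QuotientGroup.mk_surjective w
    have hv : v = Additive.ofMul (p d) := by
      change v = Additive.ofMul ((Abelianization.of d : Abelianization D) : _ ⧸ N')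
      have : (Abelianization.of d : Abelianization D) = w := hd
      rw [this, hw]; rfl
    let S : Subgroup D :=
      { carrier := {d | p d * p d = 1}
        one_mem' := by simp
        mul_mem' := by
          intro a b ha hb
          simp only [Set.mem_ofPred_eq, map_mul] at ha hb ⊢
          have : p a * p b * (p a * p b) = (p a * p a) * (p b * p b) := by
            rw [mul_assoc, mul_left_comm (p b), ← mul_assoc]
          rw [this, ha, hb, one_mul]
        inv_mem' := by
          intro a ha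
          simp only [Set.mem_ofPred_eq, map_inv] at ha ⊢
          rw [← mul_inv, ha, inv_one] }
    have hS : D ≤ S.map D.subtype := by
      refine hDcl.trans ?_
      rw [closure_le]
      rintro _ ⟨g, rfl⟩
      exact ⟨⟨cm x g, hcmD g⟩, hf2 g, rfl⟩
    obtain ⟨d', hd', hdd⟩ := hS d.2
    have : d' = d := Subtype.ext hdd
    subst this
    rw [hv]
    exact hd'
  have hf : ∀ g, f g = 0 := by
    refine AlgD_f (κ := l) (μ := x) hl ?_ hV f ?_ ?_ ?_ ?_
    · -- generation
      rw [eq_top_iff, ← hgen, closure_le]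
      let W : Subgroup G := Subgroup.closure ({y : G | ∃ z, y = z * z} ∪ {l, x})
      have hsq : ∀ z, z * z ∈ W := fun z => subset_closure (Or.inl ⟨z, rfl⟩)
      have hWn : W.Normal := by
        constructor
        intro w hw g
        have h4 : g * w * g⁻¹ = (g * g) * ((g⁻¹ * w) * (g⁻¹ * w)) * (w⁻¹ * w⁻¹) * w := by group
        rw [h4]
        exact W.mul_mem (W.mul_mem (W.mul_mem (hsq _) (hsq _)) (hsq _)) hw
      have hxW : normalClosure {x} ≤ W := by
        apply normalClosure_le_normal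
        rw [Set.singleton_subset_iff]
        exact subset_closure (Or.inr (Or.inr rfl))
      rintro y ((⟨z, rfl⟩ | hy) | hy)
      · exact hsq z
      · exact subset_closure (Or.inr (Or.inl hy))
      · exact hxW hy
    · have h4 : (⟨cm x 1, hcmD 1⟩ : D) = 1 := Subtype.ext (by change cm x 1 = 1; unfold cm; group)
      change Additive.ofMul (p ⟨cm x 1, hcmD 1⟩) = 0
      rw [h4, map_one]; rfl
    · intro g
      have h4 : (⟨cm x (g * l), hcmD (g * l)⟩ : D) = ⟨cm x g, hcmD g⟩ := by
        apply Subtype.ext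
        change cm x (g * l) = cm x g
        rw [cm_mul, cm_of_comm (x := x) (g := l) hl.symm]; group
      change Additive.ofMul (p ⟨cm x (g * l), hcmD (g * l)⟩) = _
      rw [h4]
    · intro g
      have h4 : (⟨cm x (g * x), hcmD (g * x)⟩ : D) = ⟨cm x g, hcmD g⟩ := by
        apply Subtype.ext
        change cm x (g * x) = cm x g
        rw [cm_mul, cm_of_comm (x := x) (g := x) rfl]; group
      change Additive.ofMul (p ⟨cm x (g * x), hcmD (g * x)⟩) = _
      rw [h4]
    · intro η a
      let c : G → D := fun g => ⟨cm x g, hcmD g⟩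
      have hmem : (η⁻¹ * cm x a * η) * (η * cm x a * η⁻¹) ∈ D := by
        have e1 : η⁻¹ * cm x a * η = (cm x η⁻¹)⁻¹ * cm x (η⁻¹ * a) := by
          rw [cm_mul]; group
        have e2 : η * cm x a * η⁻¹ = (cm x η)⁻¹ * cm x (η * a) := by
          rw [cm_mul]; group
        rw [e1, e2]
        exact D.mul_mem (D.mul_mem (D.inv_mem (hcmD _)) (hcmD _))
          (D.mul_mem (D.inv_mem (hcmD _)) (hcmD _))
      have h4 : ((c η⁻¹)⁻¹ * c (η⁻¹ * a) * ((c η)⁻¹ * c (η * a)) : D)
          = ⟨_, hmem⟩ := by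
        apply Subtype.ext
        change (cm x η⁻¹)⁻¹ * cm x (η⁻¹ * a) * ((cm x η)⁻¹ * cm x (η * a))
          = (η⁻¹ * cm x a * η) * (η * cm x a * η⁻¹)
        rw [cm_mul x η⁻¹ a, cm_mul x η a]; group
      have h5 := hpN ⟨_, hmem⟩ (h3 a η)
      rw [← h4] at h5
      simp only [map_mul, map_inv] at h5
      have h6 : -f η⁻¹ + f (η⁻¹ * a) + (-f η + f (η * a)) = 0 := h5
      have hneg : ∀ v : V, -v = v := fun v => neg_eq_of_add_eq_zero_left (hV v)
      rw [hneg, hneg] at h6
      rw [← h6]; abel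
  have hD : D ≤ N ⊔ ⁅D, D⁆ := by
    refine hDcl.trans ?_
    rw [closure_le]
    rintro _ ⟨g, rfl⟩
    exact hp1 ⟨cm x g, hcmD g⟩ (hf g)
  have hDN : D ≤ N := AlgD_fit D N F n hFn hF0 hFb hFc inf_le_right hD
  intro g
  exact (hDN (hcmD g)).1

/-- **The algebra of steps (1)-(3).** `b_a = [m, a]`. -/
theorem AlgD_main {G : Type u} [Group G] (m l : G) (L : Subgroup G) (hm : m ∈ L)
    (hl : l * m = m * l)
    (h1 : ∀ a e g : G, g * cm (cm m a) (e * cm m a * e⁻¹) * g⁻¹ ∈ L)
    (h3 : ∀ a e : G, (e⁻¹ * cm m a * e) * (e * cm m a * e⁻¹) ∈ L)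
    (hgen : closure ({y : G | ∃ z, y = z * z} ∪ {l} ∪ (normalClosure {m} : Set G)) = ⊤)
    (A : Finset G) (hfin : closure ({c : G | c * m = m * c} ∪ (A : Set G)) = ⊤) :
    normalClosure {m} ≤ L := by
  classical
  let R : Set G := {c | ∃ a e : G, c = cm (cm m a) (e * cm m a * e⁻¹)}
  let N : Subgroup G := normalClosure R
  have hN : N.Normal := normalClosure_normal
  have hNL : N ≤ L := by
    change Subgroup.closure _ ≤ _
    rw [closure_le]
    intro z hz
    rw [Group.mem_conjugatesOfSet_iff] at hz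
    obtain ⟨y, ⟨a, e, rfl⟩, hyz⟩ := hz
    obtain ⟨c, rfl⟩ := isConj_iff.1 hyz
    exact h1 a e c
  have hL : ∀ g : G, (QuotientGroup.mk' N) g ∈ L.map (QuotientGroup.mk' N) → g ∈ L := by
    rintro g ⟨k, hk, hkg⟩
    have h4 : k⁻¹ * g ∈ N := QuotientGroup.eq.1 hkg
    have h5 : g = k * (k⁻¹ * g) := by group
    rw [h5]
    exact L.mul_mem hk (hNL h4)
  have htop : Subgroup.map (QuotientGroup.mk' N) ⊤ = ⊤ :=
    Subgroup.map_top_of_surjective _ (QuotientGroup.mk'_surjective N)
  have hcore := AlgD_core ((m : G) : G ⧸ N) ((l : G) : G ⧸ N) (L.map (QuotientGroup.mk' N))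
    (congrArg (QuotientGroup.mk (s := N)) hl)
    (by
      intro a e
      obtain ⟨a, rfl⟩ := QuotientGroup.mk_surjective a
      obtain ⟨e, rfl⟩ := QuotientGroup.mk_surjective e
      have h4 : ((cm (cm m a) (e * cm m a * e⁻¹) : G) : G ⧸ N) = 1 :=
        (QuotientGroup.eq_one_iff _).2 (subset_normalClosure ⟨a, e, rfl⟩)
      exact comm_of_cm (x := ((cm m a : G) : G ⧸ N)) (g := ((e * cm m a * e⁻¹ : G) : G ⧸ N)) h4)
    (by
      intro a e
      obtain ⟨a, rfl⟩ := QuotientGroup.mk_surjective a
      obtain ⟨e, rfl⟩ := QuotientGroup.mk_surjective e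
      exact ⟨_, h3 a e, rfl⟩)
    (by
      rw [eq_top_iff, ← htop, ← hgen, Subgroup.map_le_iff_le_comap, closure_le]
      have hle : normalClosure {m} ≤
          (normalClosure {((m : G) : G ⧸ N)}).comap (QuotientGroup.mk' N) := by
        apply normalClosure_le_normal
        intro z hz
        rw [Set.mem_singleton_iff] at hz
        subst hz
        exact subset_normalClosure rfl
      rintro y ((⟨z, rfl⟩ | hy) | hy)
      · exact subset_closure (Or.inl (Or.inl ⟨(z : G ⧸ N), rfl⟩))
      · rw [Set.mem_singleton_iff.1 hy]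
        exact subset_closure (Or.inl (Or.inr rfl))
      · exact subset_closure (Or.inr (hle hy)))
    (A.image (QuotientGroup.mk' N))
    (by
      rw [eq_top_iff, ← htop, ← hfin, Subgroup.map_le_iff_le_comap, closure_le]
      rintro c (hc | hc)
      · refine subset_closure (Or.inl ?_)
        exact congrArg (QuotientGroup.mk (s := N)) hc
      · refine subset_closure (Or.inr ?_)
        simp only [Finset.coe_image]
        exact ⟨c, hc, rfl⟩)
  have hcm : ∀ g, cm m g ∈ L := fun g => hL _ (hcore (g : G ⧸ N))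
  change Subgroup.closure _ ≤ _
  rw [closure_le]
  intro z hz
  rw [Group.mem_conjugatesOfSet_iff] at hz
  obtain ⟨y, hy, hyz⟩ := hz
  rw [Set.mem_singleton_iff] at hy
  subst hy
  obtain ⟨c, rfl⟩ := isConj_iff.1 hyz
  have e : c * y * c⁻¹ = (y⁻¹ * cm y c)⁻¹ := by unfold cm; group
  rw [e]
  exact L.inv_mem (L.mul_mem (L.inv_mem hm) (hcm c))

/-- The same with `(e⁻¹ b e) b b (e b e⁻¹)`. -/
theorem AlgD_main4 {G : Type u} [Group G] (m l : G) (L : Subgroup G) (hm : m ∈ L)
    (hl : l * m = m * l)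
    (h1 : ∀ a e g : G, g * cm (cm m a) (e * cm m a * e⁻¹) * g⁻¹ ∈ L)
    (h2 : ∀ a : G, cm m a * cm m a ∈ L)
    (h3 : ∀ a e : G, (e⁻¹ * cm m a * e) * cm m a * cm m a * (e * cm m a * e⁻¹) ∈ L)
    (hgen : closure ({y : G | ∃ z, y = z * z} ∪ {l} ∪ (normalClosure {m} : Set G)) = ⊤)
    (A : Finset G) (hfin : closure ({c : G | c * m = m * c} ∪ (A : Set G)) = ⊤) :
    normalClosure {m} ≤ L := by
  refine AlgD_main m l L hm hl h1 ?_ hgen A hfin
  intro a e
  -- `(e⁻¹be) (ebe⁻¹) = (bb)⁻¹ · [(bb), (e⁻¹be)] · (e⁻¹be) bb (ebe⁻¹)`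
  have hc : ∀ b' c' : G, (∀ g, g * cm b' c' * g⁻¹ ∈ L) → cm (b' * b') c' ∈ L := by
    intro b' c' h
    have e1 : cm (b' * b') c' = (b' * cm b' c' * b'⁻¹) * (1 * cm b' c' * 1⁻¹) := by
      unfold cm; group
    rw [e1]
    exact L.mul_mem (h b') (h 1)
  have h4 := hc (cm m a) (e⁻¹ * cm m a * e) (by
    intro g
    have := h1 a e⁻¹ g
    rwa [inv_inv] at this)
  have e2 : (e⁻¹ * cm m a * e) * (e * cm m a * e⁻¹)
      = (cm m a * cm m a)⁻¹ * cm (cm m a * cm m a) (e⁻¹ * cm m a * e) *
        ((e⁻¹ * cm m a * e) * cm m a * cm m a * (e * cm m a * e⁻¹)) := by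
    generalize cm m a = b
    unfold cm; group
  rw [e2]
  exact L.mul_mem (L.mul_mem (L.inv_mem (h2 a)) h4) (h3 a e)

end main

end Pool.Agent.NHT
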