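import Pool.Agent.NHT.Lop

/-!
# NHT/Bas: small neighbourhoods in the 3-manifold
-/

namespace Pool.Agent.NHT

open Set CategoryTheory unitInterval Topology Filter
open scoped Manifold ContDiff
open Pool.Agent.RSG (E3 ex Thick)
open Pool.Agent.NHP (core)
open Pool.Agent.NHQ (PC cc exists_PC)

/-! ## convex sets -/

section cvx

variable {M Z : Type*} [AddCommGroup M] [Module ℝ M] [TopologicalSpace M] [ContinuousAdd M] [ContinuousSMul ℝ M]
  [TopologicalSpace Z]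

/-- a convex coordinate neighbourhood -/
structure Cvx (C : Set M) (F : M → Z) (g : Z → M) : Prop where
  conv : Convex ℝ C
  contF : ContinuousOn F C
  contg : ContinuousOn g (F '' C)
  inv : ∀ a ∈ C, g (F a) = a

variable {C : Set M} {F : M → Z} {g : Z → M}

omit [ContinuousAdd M] [ContinuousSMul ℝ M] in
theorem Cvx.mem (h : Cvx C F g) {y : Z} (hy : y ∈ F '' C) : g y ∈ C ∧ F (g y) = y := by
  obtain ⟨a, ha, rfl⟩ := hy
  rw [h.inv a ha]; exact ⟨ha, rfl⟩

theorem Cvx.pc (h : Cvx C F g) {x y : Z} (hx : x ∈ F '' C) (hy : y ∈ F '' C) : ∃ s : Path x y, ∀ t, s t ∈ F '' C := by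
  have h1 := h.mem hx
  have h2 := h.mem hy
  have hC : ∀ t : I, (1 - (t : ℝ)) • g x + (t : ℝ) • g y ∈ C := fun t =>
    h.conv h1.1 h2.1 (by linarith [t.2.2]) t.2.1 (by ring)
  refine ⟨⟨⟨fun t : I => F ((1 - (t : ℝ)) • g x + (t : ℝ) • g y), ?_⟩, ?_, ?_⟩, fun t => ⟨_, hC t, rfl⟩⟩
  · exact h.contF.comp_continuous (by fun_prop) hC
  · simp [h1.2]
  · simp [h2.2]

theorem Cvx.hom (h : Cvx C F g) {x y : Z} (s s' : Path x y) (hs : ∀ t, s t ∈ F '' C) (hs' : ∀ t, s' t ∈ F '' C) :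
    s.Homotopic s' := by
  have hc : ∀ s : Path x y, (∀ t, s t ∈ F '' C) → Continuous fun t => g (s t) := fun s hs =>
    h.contg.comp_continuous s.continuous hs
  have h1 : PC (fun t : ℝ => F (g (s (projIcc 0 1 zero_le_one t)))) (cl s) :=
    ⟨s, fun t => by
      change s t = F (g (s (projIcc 0 1 zero_le_one (t : ℝ))))
      rw [projIcc_val, (h.mem (hs _)).2], rfl⟩
  have h2 : PC (fun t : ℝ => F (g (s' (projIcc 0 1 zero_le_one t)))) (cl s') :=
    ⟨s', fun t => by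
      change s' t = F (g (s' (projIcc 0 1 zero_le_one (t : ℝ))))
      rw [projIcc_val, (h.mem (hs' _)).2], rfl⟩
  have h3 := PC.convex h.conv h.contF (u := fun t : ℝ => g (s (projIcc 0 1 zero_le_one t)))
    (v := fun t : ℝ => g (s' (projIcc 0 1 zero_le_one t))) ((hc s hs).comp continuous_projIcc).continuousOn
    ((hc s' hs').comp continuous_projIcc).continuousOn (fun t _ => (h.mem (hs _)).1) (fun t _ => (h.mem (hs' _)).1)
    (by simp) (by simp) h1
  exact cl_exact (h3.unique h2)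

end cvx

section

variable {N : Type*} [TopologicalSpace N] [ChartedSpace E3 N] {κ : ℝ × ℂ → N}

theorem core_compact (hκ : Thick κ) : IsCompact (core κ) := by
  have h1 : core κ = (fun l : ℝ => κ (l, 0)) '' Icc 0 1 := by
    apply Subset.antisymm
    · rintro _ ⟨l, rfl⟩
      refine ⟨Int.fract l, ⟨Int.fract_nonneg l, (Int.fract_lt_one l).le⟩, ?_⟩
      have h2 := thick_int hκ (Int.fract l) 0 ⌊l⌋
      rw [Int.fract_add_floor] at h2
      exact h2.symm
    · rintro _ ⟨l, -, rfl⟩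
      exact ⟨l, rfl⟩
  rw [h1]
  refine isCompact_Icc.image_of_continuousOn (fun l _ => ?_)
  apply ContinuousAt.continuousWithinAt
  exact ContinuousAt.comp_of_eq (g := κ) (f := fun l : ℝ => (l, (0 : ℂ))) (thick_cont hκ (by simp)) (by fun_prop) rfl

theorem core_closed [T2Space N] (hκ : Thick κ) : IsClosed (core κ) := (core_compact hκ).isClosed

/-- a small ball around `x` -/
theorem exists_ball (x : N) {U : Set N} (hU : IsOpen U) (hx : x ∈ U) : ∃ (C : Set E3) (F : E3 → N) (g : N → E3),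
    Cvx C F g ∧ IsOpen (F '' C) ∧ x ∈ F '' C ∧ F '' C ⊆ U := by
  let φ := chartAt E3 x
  have h1 : IsOpen (φ.target ∩ φ.symm ⁻¹' U) := φ.isOpen_inter_preimage_symm hU
  have h2 : φ x ∈ φ.target ∩ φ.symm ⁻¹' U := by
    refine ⟨φ.map_source (mem_chart_source E3 x), ?_⟩
    rw [mem_preimage, φ.left_inv (mem_chart_source E3 x)]
    exact hx
  obtain ⟨r, hr, hb⟩ := Metric.isOpen_iff.1 h1 _ h2
  refine ⟨Metric.ball (φ x) r, φ.symm, φ, ⟨convex_ball _ _, ?_, ?_, ?_⟩, ?_, ?_, ?_⟩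
  · exact φ.continuousOn_symm.mono (fun a ha => (hb ha).1)
  · refine φ.continuousOn.mono ?_
    rintro _ ⟨a, ha, rfl⟩
    exact φ.map_target (hb ha).1
  · intro a ha
    exact φ.right_inv (hb ha).1
  · exact φ.isOpen_image_symm_of_subset_target Metric.isOpen_ball (fun a ha => (hb ha).1)
  · exact ⟨φ x, Metric.mem_ball_self hr, φ.left_inv (mem_chart_source E3 x)⟩
  · rintro _ ⟨a, ha, rfl⟩
    exact (hb ha).2

/-- a small box around a point of the knot -/
theorem exists_box (hκ : Thick κ) (l : ℝ) {U : Set N} (hU : IsOpen U) (hx : κ (l, 0) ∈ U) : ∃ ε : ℝ, 0 < ε ∧ ε ≤ 1 / 2 ∧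
    κ '' Box l ε ⊆ U := by
  have h1 : ContinuousAt κ (l, 0) := thick_cont hκ (by simp)
  have h2 : κ ⁻¹' U ∈ 𝓝 ((l, 0) : ℝ × ℂ) := h1 (hU.mem_nhds hx)
  obtain ⟨ε, hε, hb⟩ := Metric.mem_nhds_iff.1 h2
  refine ⟨min ε (1 / 2), by positivity, min_le_right _ _, ?_⟩
  rintro _ ⟨a, ha, rfl⟩
  apply hb
  rw [mem_Box] at ha
  have h3 : min ε (1 / 2) ≤ ε := min_le_left _ _
  rw [Metric.mem_ball, Prod.dist_eq, max_lt_iff]
  constructor
  · rw [Real.dist_eq, abs_lt]
    constructor <;> linarith [ha.1.1, ha.1.2]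
  · rw [dist_zero_right]; linarith [ha.2]

theorem box_cvx (hκ : Thick κ) {l ε : ℝ} (hε : ε ≤ 1 / 2) : ∃ g : N → ℝ × ℂ, Cvx (Box l ε) κ g := by
  obtain ⟨g, h1, h2⟩ := thick_invOn hκ (Box_open l ε) (fun a ha => Box_norm hε ha) (Box_inj hκ hε)
  exact ⟨g, Box_convex l ε, fun a ha => (thick_cont hκ (Box_norm hε ha)).continuousWithinAt, h2, h1⟩

/-- points of the punctured box -/
theorem exists_pt_of_mem (hκ : Thick κ) {l ε : ℝ} (hε0 : 0 < ε) (hε : ε ≤ 1 / 2) {x : ((core κ)ᶜ : Set N)}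
    (hx : (x : N) ∈ κ '' Box l ε) : ∃ a : ℝ × ℂ, (l - ε < a.1 ∧ a.1 < l + ε) ∧ a.2.re < Real.log ε ∧ pt hκ a = x := by
  obtain ⟨⟨l', v⟩, ha, hax⟩ := hx
  rw [mem_Box] at ha
  have hv0 : v ≠ 0 := by
    rintro rfl
    exact x.2 ⟨l', hax⟩
  have hv1 : ‖v‖ < 1 := by linarith [ha.2]
  obtain ⟨z, hz1, hz2, hz3⟩ := exists_pt hκ (l := l') hv1 hv0
  refine ⟨(l', z), ha.1, ?_, Subtype.ext (hz3.trans hax)⟩
  have h1 : Real.exp z.re < ε := by
    rw [← Complex.norm_exp, hz2]; exact ha.2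
  exact (Real.lt_log_iff_exp_lt hε0).2 h1

theorem pt_mem_box (hκ : Thick κ) {l ε : ℝ} (hε0 : 0 < ε) (hε : ε ≤ 1 / 2) {a : ℝ × ℂ} (h1 : l - ε < a.1 ∧ a.1 < l + ε)
    (h2 : a.2.re < Real.log ε) : a ∈ LH ∧ (pt hκ a : N) ∈ κ '' Box l ε := by
  have h3 : Real.exp a.2.re < ε := (Real.lt_log_iff_exp_lt hε0).1 h2
  have h4 : a.2.re < 0 := by
    have := Real.log_neg hε0 (by linarith)
    linarith
  refine ⟨h4, (a.1, Complex.exp a.2), mem_Box.2 ⟨h1, ?_⟩, (pt_coe hκ h4).symm⟩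
  rw [Complex.norm_exp]; exact h3

/-- the punctured box is path connected -/
theorem box_con (hκ : Thick κ) {l ε : ℝ} (hε0 : 0 < ε) (hε : ε ≤ 1 / 2) {x y : ((core κ)ᶜ : Set N)}
    (hx : (x : N) ∈ κ '' Box l ε) (hy : (y : N) ∈ κ '' Box l ε) : ∃ s : Path x y, ∀ t, (s t : N) ∈ κ '' Box l ε := by
  obtain ⟨a, ha1, ha2, rfl⟩ := exists_pt_of_mem hκ hε0 hε hx
  obtain ⟨b, hb1, hb2, rfl⟩ := exists_pt_of_mem hκ hε0 hε hy
  let C : Set (ℝ × ℂ) := Ioo (l - ε) (l + ε) ×ˢ (Complex.reCLM ⁻¹' Iio (Real.log ε))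
  have hC : Convex ℝ C := (convex_Ioo _ _).prod ((convex_Iio _).is_linear_preimage Complex.reCLM.isLinear)
  have h1 : ∀ t : I, (1 - (t : ℝ)) • a + (t : ℝ) • b ∈ C := fun t =>
    hC ⟨ha1, ha2⟩ ⟨hb1, hb2⟩ (by linarith [t.2.2]) t.2.1 (by ring)
  have h2 : ∀ t : I, (1 - (t : ℝ)) • a + (t : ℝ) • b ∈ LH ∧ (pt hκ ((1 - (t : ℝ)) • a + (t : ℝ) • b) : N) ∈ κ '' Box l ε :=
    fun t => pt_mem_box hκ hε0 hε (h1 t).1 (h1 t).2
  refine ⟨⟨⟨fun t : I => pt hκ ((1 - (t : ℝ)) • a + (t : ℝ) • b), ?_⟩, by simp, by simp⟩, fun t => (h2 t).2⟩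
  exact (pt_cont hκ).comp_continuous (by fun_prop) (fun t => (h2 t).1)

/-- **Neighbourhoods for the surjectivity.** -/
theorem base_S [T2Space N] (hκ : Thick κ) (x : N) (U : Set N) (hU : IsOpen U) (hx : x ∈ U) :
    ∃ V : Set N, GoodS (core κ)ᶜ V ∧ x ∈ V ∧ V ⊆ U := by
  by_cases hxK : x ∈ core κ
  · obtain ⟨l, rfl⟩ := hxK
    obtain ⟨ε, hε0, hε, hb⟩ := exists_box hκ l hU hx
    obtain ⟨g, hg⟩ := box_cvx hκ (l := l) hε
    refine ⟨κ '' Box l ε, ⟨thick_open hκ (Box_open l ε) (fun a ha => Box_norm hε ha), ?_, fun x y hx hy =>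
      box_con hκ hε0 hε hx hy, fun x hx y hy => hg.pc hx hy, fun x y s s' hs hs' => hg.hom s s' hs hs'⟩, ⟨(l, 0),
      mem_Box.2 ⟨⟨by change l - ε < l; linarith, by change l < l + ε; linarith⟩, by simpa using hε0⟩, rfl⟩, hb⟩
    have h1 := pt_mem_box hκ hε0 hε (l := l) (a := (l, ((Real.log ε - 1 : ℝ) : ℂ)))
      ⟨by change l - ε < l; linarith, by change l < l + ε; linarith⟩ (by change Real.log ε - 1 < _; linarith)
    exact ⟨_, h1.2⟩
  · obtain ⟨C, F, g, hc, ho, hxC, hCU⟩ := exists_ball x (hU.inter (core_closed hκ).isOpen_compl) ⟨hx, hxK⟩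
    refine ⟨F '' C, ⟨ho, ⟨⟨x, hxK⟩, hxC⟩, ?_, fun x hx y hy => hc.pc hx hy, fun x y s s' hs hs' => hc.hom s s' hs hs'⟩,
      hxC, fun y hy => (hCU hy).1⟩
    intro x y hx hy
    obtain ⟨s, hs⟩ := hc.pc hx hy
    refine ⟨⟨⟨fun t => ⟨s t, (hCU (hs t)).2⟩, ?_⟩, Subtype.ext s.source, Subtype.ext s.target⟩, fun t => hs t⟩
    exact s.continuous.subtype_mk _

/-- **Every path between points of the complement of the knot is homotopic to a path in the complement.** -/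
theorem exists_path_compl [T2Space N] (hκ : Thick κ) {a b : ((core κ)ᶜ : Set N)} (c : Path (a : N) (b : N)) :
    ∃ s : Path a b, (incl s).Homotopic c :=
  exists_lift_path (base_S hκ) c

/-- **Neighbourhoods for the kernel.** -/
theorem base_N [T2Space N] (hκ : Thick κ) {G : Type*} [Group G]
    {q : ∀ x y : ((core κ)ᶜ : Set N), (FundamentalGroupoid.mk x ⟶ FundamentalGroupoid.mk y) → G}
    (hq : ∀ x y z α β, q x z (α ≫ β) = q x y α * q y z β) {a : ℝ × ℂ} (ha : a ∈ LH)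
    {μ : FundamentalGroupoid.mk (pt hκ a) ⟶ FundamentalGroupoid.mk (pt hκ a)}
    (hμ : PC (fun t => pt hκ (a + t • lat 0 1)) μ) (h1 : q _ _ μ = 1) (x : N) (U : Set N) (hU : IsOpen U) (hx : x ∈ U) :
    ∃ V : Set N, GoodN q V ∧ x ∈ V ∧ V ⊆ U := by
  by_cases hxK : x ∈ core κ
  · obtain ⟨l, rfl⟩ := hxK
    obtain ⟨ε, hε0, hε, hb⟩ := exists_box hκ l hU hx
    obtain ⟨g, hg⟩ := box_cvx hκ (l := l) hε
    refine ⟨κ '' Box l ε, ⟨thick_open hκ (Box_open l ε) (fun a ha => Box_norm hε ha), ?_, fun x y hx hy =>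
      box_con hκ hε0 hε hx hy, ?_⟩, ⟨(l, 0),
      mem_Box.2 ⟨⟨by change l - ε < l; linarith, by change l < l + ε; linarith⟩, by simpa using hε0⟩, rfl⟩, hb⟩
    · have h1 := pt_mem_box hκ hε0 hε (l := l) (a := (l, ((Real.log ε - 1 : ℝ) : ℂ)))
        ⟨by change l - ε < l; linarith, by change l < l + ε; linarith⟩ (by change Real.log ε - 1 < _; linarith)
      exact ⟨_, h1.2⟩
    · intro x s hs
      have hgs : Continuous fun t => g (s t) :=
        hg.contg.comp_continuous (continuous_subtype_val.comp s.continuous) hs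
      have hgm : ∀ t, g (s t) ∈ Box l ε ∧ κ (g (s t)) = s t := fun t => hg.mem (hs t)
      obtain ⟨z, hz, hzexp⟩ := exists_log (fun t => (g (s t)).2) (continuous_snd.comp hgs) (by
        intro t h0
        apply (s t).2
        rw [← (hgm t).2]
        exact ⟨(g (s t)).1, by rw [← h0]⟩)
      have hre : ∀ t, (z t).re < 0 := by
        intro t
        have h2 : ‖(g (s t)).2‖ < 1 := Box_norm hε (hgm t).1
        rw [← hzexp, Complex.norm_exp, Real.exp_lt_one_iff] at h2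
        exact h2
      have hst : ∀ t, s t = pt hκ ((g (s t)).1, z t) := by
        intro t
        apply Subtype.ext
        rw [pt_coe hκ (hre t)]
        change _ = κ ((g (s t)).1, Complex.exp (z t))
        rw [hzexp, Prod.mk.eta, (hgm t).2]
      have hline := line_of (hκ := hκ) s (u := fun t => ((g (s t)).1, z t)) ((continuous_fst.comp hgs).prodMk hz)
        (fun t => hre t) hst
      obtain ⟨k, hk⟩ : ∃ k : ℤ, z 1 = z 0 + k * (2 * Real.pi * Complex.I) := by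
        rw [← Complex.exp_eq_exp_iff_exists_int, hzexp, hzexp, s.source, s.target]
      have hd : ((g (s 1)).1, z 1) - ((g (s 0)).1, z 0) = lat 0 k := by
        rw [s.source, s.target, hk]
        apply Prod.ext
        · simp [lat]
        · simp only [lat, Prod.snd_sub]; ring
      have h3 : PC (fun t => pt hκ (((g (s 0)).1, z 0) + t • lat 0 k)) (cl s) := by
        rw [← hd]; exact hline
      exact q_mer hq ha hμ h1 (b := ((g (s 0)).1, z 0)) (hre 0) k h3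
  · obtain ⟨C, F, g, hc, ho, hxC, hCU⟩ := exists_ball x (hU.inter (core_closed hκ).isOpen_compl) ⟨hx, hxK⟩
    refine ⟨F '' C, ⟨ho, ⟨⟨x, hxK⟩, hxC⟩, ?_, ?_⟩, hxC, fun y hy => (hCU hy).1⟩
    · intro x y hx hy
      obtain ⟨s, hs⟩ := hc.pc hx hy
      refine ⟨⟨⟨fun t => ⟨s t, (hCU (hs t)).2⟩, ?_⟩, Subtype.ext s.source, Subtype.ext s.target⟩, fun t => hs t⟩
      exact s.continuous.subtype_mk _
    · intro y s hs
      classical
      let F' : E3 → ((core κ)ᶜ : Set N) := fun a => if h : a ∈ C then ⟨F a, (hCU ⟨a, h, rfl⟩).2⟩ else ⟨x, hxK⟩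
      have hF' : ∀ a ∈ C, (F' a : N) = F a := fun a ha => by simp only [F']; rw [dif_pos ha]
      have hc' : Cvx C F' (fun y => g y) := by
        refine ⟨hc.conv, ?_, ?_, ?_⟩
        · refine (Topology.IsInducing.subtypeVal.continuousOn_iff).2 ?_
          exact hc.contF.congr (fun a ha => hF' a ha)
        · refine hc.contg.comp continuous_subtype_val.continuousOn ?_
          rintro _ ⟨a, ha, rfl⟩
          rw [hF' a ha]; exact ⟨a, ha, rfl⟩
        · intro a ha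
          rw [hF' a ha]; exact hc.inv a ha
      have h2 := hc'.hom s (Path.refl y) (by
        intro t
        obtain ⟨a, ha, hat⟩ := hs t
        exact ⟨a, ha, Subtype.ext ((hF' a ha).trans hat)⟩) (by
        intro t
        obtain ⟨a, ha, hat⟩ := hs 0
        refine ⟨a, ha, Subtype.ext ((hF' a ha).trans hat |>.trans ?_)⟩
        rw [s.source]; rfl)
      rw [cl_eq h2, cl_refl, q_one q hq]

end

end Pool.Agent.NHT
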