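import Pool.Agent.NHT.FG

/-!
# NHT/Ext: multiplicative functions of path classes extend over a subspace of codimension two

`Y ⊆ X`, `q` a multiplicative function on the path classes of `Y` with values in a group.  Every point of `X` has
arbitrarily small open neighbourhoods `V` such that `V ∩ Y` is path connected, not empty, and `q` is trivial on the
loops of `V ∩ Y`.  Then `q` has the same value on two paths of `Y` which are homotopic in `X`.

Proof: the potentials of `q` (germs of functions `φ` on `Y` near `x` with `φ(y') = φ(y) q(y → y')`) form a covering of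
`X`, whose monodromy along the paths of `Y` is `q`.
-/

namespace Pool.Agent.NHT

open Set CategoryTheory unitInterval Topology Filter

universe u v

section

variable {X : Type u} [TopologicalSpace X] {Y : Set X} {G : Type v} [Group G]

/-- good neighbourhoods -/
structure GoodN (q : ∀ x y : Y, (FundamentalGroupoid.mk x ⟶ FundamentalGroupoid.mk y) → G) (V : Set X) : Prop where
  opn : IsOpen V
  ne : ∃ y : Y, (y : X) ∈ V
  con : ∀ x y : Y, (x : X) ∈ V → (y : X) ∈ V → ∃ s : Path x y, ∀ t, (s t : X) ∈ V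
  tri : ∀ (x : Y) (s : Path x x), (∀ t, (s t : X) ∈ V) → q x x (cl s) = 1

variable (q : ∀ x y : Y, (FundamentalGroupoid.mk x ⟶ FundamentalGroupoid.mk y) → G)

theorem q_one (hq : ∀ x y z α β, q x z (α ≫ β) = q x y α * q y z β) (x : Y) : q x x (𝟙 _) = 1 := by
  have h := hq x x x (𝟙 _) (𝟙 _)
  rw [Category.id_comp] at h
  exact (mul_eq_left.1 h.symm)

theorem q_inv (hq : ∀ x y z α β, q x z (α ≫ β) = q x y α * q y z β) (x y : Y)
    (α : FundamentalGroupoid.mk x ⟶ FundamentalGroupoid.mk y) : q y x (inv α) = (q x y α)⁻¹ := by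
  have h := hq x y x α (inv α)
  rw [IsIso.hom_inv_id, q_one q hq] at h
  exact (inv_eq_of_mul_eq_one_right h.symm).symm

/-- two paths in a good neighbourhood -/
theorem GoodN.same (hq : ∀ x y z α β, q x z (α ≫ β) = q x y α * q y z β) {V : Set X} (hV : GoodN q V) {x y : Y}
    (s s' : Path x y) (hs : ∀ t, (s t : X) ∈ V) (hs' : ∀ t, (s' t : X) ∈ V) : q x y (cl s) = q x y (cl s') := by
  have h := hV.tri x (s.trans s'.symm) (by
    intro t
    have h1 : (s.trans s'.symm) t ∈ range s ∪ range s' := by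
      rw [← Path.symm_range s', ← Path.trans_range]; exact mem_range_self t
    rcases h1 with ⟨r, hr⟩ | ⟨r, hr⟩
    · rw [← hr]; exact hs r
    · rw [← hr]; exact hs' r)
  rw [cl_trans, cl_symm, hq x y x, q_inv q hq] at h
  exact mul_inv_eq_one.1 h

variable {q}

/-- the potential -/
structure Pot (q : ∀ x y : Y, (FundamentalGroupoid.mk x ⟶ FundamentalGroupoid.mk y) → G) (V : Set X) (f : Y → G) : Prop where
  pot : ∀ (x y : Y) (s : Path x y), (∀ t, (s t : X) ∈ V) → f y = f x * q x y (cl s)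

theorem GoodN.exists_pot (hq : ∀ x y z α β, q x z (α ≫ β) = q x y α * q y z β) {V : Set X} (hV : GoodN q V) :
    ∃ f : Y → G, Pot q V f := by
  classical
  obtain ⟨b, hb⟩ := hV.ne
  have h1 : ∀ y : Y, ∃ g : G, (y : X) ∈ V → ∃ s : Path b y, (∀ t, (s t : X) ∈ V) ∧ g = q b y (cl s) := by
    intro y
    by_cases hy : (y : X) ∈ V
    · obtain ⟨s, hs⟩ := hV.con b y hb hy
      exact ⟨_, fun _ => ⟨s, hs, rfl⟩⟩
    · exact ⟨1, fun h => absurd h hy⟩
  choose f hf using h1
  refine ⟨f, ⟨fun x y c hc => ?_⟩⟩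
  have hx : (x : X) ∈ V := by have := hc 0; rwa [c.source] at this
  have hy : (y : X) ∈ V := by have := hc 1; rwa [c.target] at this
  obtain ⟨s, hs, hfs⟩ := hf x hx
  obtain ⟨s', hs', hfs'⟩ := hf y hy
  rw [hfs, hfs', ← hq, ← cl_trans]
  refine hV.same q hq _ _ hs' ?_
  intro t
  have h1 : (s.trans c) t ∈ range s ∪ range c := by
    rw [← Path.trans_range]; exact mem_range_self t
  rcases h1 with ⟨r, hr⟩ | ⟨r, hr⟩
  · rw [← hr]; exact hs r
  · rw [← hr]; exact hc r

/-- the change of potentials -/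
structure Cocy (q : ∀ x y : Y, (FundamentalGroupoid.mk x ⟶ FundamentalGroupoid.mk y) → G) (V : X → Set X)
    (f : X → Y → G) (g : X → X → X → G) : Prop where
  mem : ∀ x, x ∈ V x
  opn : ∀ x, IsOpen (V x)
  pot : ∀ x, Pot q (V x) (f x)
  /-- near `x`, `f i y = g i j x * f j y` -/
  chg : ∀ i j x, x ∈ V i → x ∈ V j → ∀ᶠ z in 𝓝 x, ∀ y : Y, (y : X) = z → f i y = g i j x * f j y
  acc : ∀ x (U : Set X), U ∈ 𝓝 x → ∃ y : Y, (y : X) ∈ U

theorem exists_cocy (hq : ∀ x y z α β, q x z (α ≫ β) = q x y α * q y z β)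
    (hb : ∀ x : X, ∀ U : Set X, IsOpen U → x ∈ U → ∃ V : Set X, GoodN q V ∧ x ∈ V ∧ V ⊆ U) :
    ∃ (V : X → Set X) (f : X → Y → G) (g : X → X → X → G), Cocy q V f g := by
  classical
  have h1 : ∀ x : X, ∃ V : Set X, GoodN q V ∧ x ∈ V := by
    intro x
    obtain ⟨V, h1, h2, -⟩ := hb x univ isOpen_univ (mem_univ x)
    exact ⟨V, h1, h2⟩
  choose V hV hxV using h1
  have h2 : ∀ x, ∃ f : Y → G, Pot q (V x) f := fun x => (hV x).exists_pot hq
  choose f hf using h2
  have h3 : ∀ i j x : X, ∃ g : G, x ∈ V i → x ∈ V j →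
      ∀ᶠ z in 𝓝 x, ∀ y : Y, (y : X) = z → f i y = g * f j y := by
    intro i j x
    by_cases h : x ∈ V i ∩ V j
    · obtain ⟨W, hW, hxW, hWV⟩ := hb x (V i ∩ V j) ((hV i).opn.inter (hV j).opn) h
      obtain ⟨b, hb⟩ := hW.ne
      refine ⟨f i b * (f j b)⁻¹, fun _ _ => ?_⟩
      filter_upwards [hW.opn.mem_nhds hxW] with z hz y hy
      subst hy
      obtain ⟨s, hs⟩ := hW.con b y hb hz
      rw [(hf i).pot b y s (fun t => (hWV (hs t)).1), (hf j).pot b y s (fun t => (hWV (hs t)).2)]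
      group
    · exact ⟨1, fun h1 h2 => absurd ⟨h1, h2⟩ h⟩
  choose g hg using h3
  refine ⟨V, f, g, ⟨hxV, fun x => (hV x).opn, hf, hg, ?_⟩⟩
  intro x U hU
  obtain ⟨O, hO, hOo, hxO⟩ := mem_nhds_iff.1 hU
  obtain ⟨W, hW, -, hWO⟩ := hb x O hOo hxO
  obtain ⟨y, hy⟩ := hW.ne
  exact ⟨y, hO (hWO hy)⟩

theorem Cocy.self {V : X → Set X} {f : X → Y → G} {g : X → X → X → G} (h : Cocy q V f g) {i x : X} (hi : x ∈ V i) :
    g i i x = 1 := by
  obtain ⟨y, hy⟩ := h.acc x _ (h.chg i i x hi hi)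
  have := hy y rfl
  exact (mul_eq_right.1 this.symm)

theorem Cocy.comp {V : X → Set X} {f : X → Y → G} {g : X → X → X → G} (h : Cocy q V f g) {i j k x : X} (hi : x ∈ V i)
    (hj : x ∈ V j) (hk : x ∈ V k) : g i j x * g j k x = g i k x := by
  obtain ⟨y, ⟨h1, h2⟩, h3⟩ := h.acc x _ (((h.chg i j x hi hj).and (h.chg j k x hj hk)).and (h.chg i k x hi hk))
  have e1 := h1 y rfl
  have e2 := h2 y rfl
  have e3 := h3 y rfl
  rw [e2, ← mul_assoc, e3] at e1
  exact (mul_right_cancel e1).symm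

theorem Cocy.locConst {V : X → Set X} {f : X → Y → G} {g : X → X → X → G} (h : Cocy q V f g) {i j x : X} (hi : x ∈ V i)
    (hj : x ∈ V j) : ∀ᶠ z in 𝓝 x, g i j z = g i j x := by
  filter_upwards [(h.opn i).mem_nhds hi, (h.opn j).mem_nhds hj, (h.chg i j x hi hj).eventually_nhds] with z hz1 hz2 hz3
  obtain ⟨y, h1, h2⟩ := h.acc z _ ((h.chg i j z hz1 hz2).and hz3)
  have e1 := h1 y rfl
  have e2 := h2 y rfl
  rw [e2] at e1
  exact (mul_right_cancel e1).symm

/-- the covering -/
def Cocy.core [TopologicalSpace G] [DiscreteTopology G] {V : X → Set X} {f : X → Y → G} {g : X → X → X → G}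
    (h : Cocy q V f g) : FiberBundleCore X X G where
  baseSet := V
  isOpen_baseSet := h.opn
  indexAt := fun x => x
  mem_baseSet_at := h.mem
  coordChange := fun i j x c => c * g i j x
  coordChange_self := fun i x hx v => by rw [h.self hx, mul_one]
  continuousOn_coordChange := by
    rintro i j ⟨x, c⟩ ⟨⟨hi, hj⟩, -⟩
    apply ContinuousAt.continuousWithinAt
    have h1 : (fun p : X × G => p.2 * g i j p.1) =ᶠ[𝓝 (x, c)] fun p => p.2 * g i j x := by
      have h2 : Tendsto (fun p : X × G => p.1) (𝓝 (x, c)) (𝓝 x) := continuousAt_fst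
      filter_upwards [h2.eventually (h.locConst hi hj)] with p hp
      rw [hp]
    have h3 : ContinuousAt (fun p : X × G => p.2 * g i j x) (x, c) :=
      (continuous_of_discreteTopology (f := fun c : G => c * g i j x)).continuousAt.comp continuousAt_snd
    exact h3.congr h1.symm
  coordChange_comp := by
    rintro i j k x ⟨⟨hi, hj⟩, hk⟩ v
    rw [mul_assoc, h.comp hi hj hk]

end

end Pool.Agent.NHT
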