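import Pool.Agent.NHT.Ext

/-!
# NHT/ExtB: the extension theorem
-/

namespace Pool.Agent.NHT

open Set CategoryTheory unitInterval Topology Filter

universe u v

section

variable {X : Type u} [TopologicalSpace X] {Y : Set X} {G : Type v} [Group G]
variable {q : ∀ x y : Y, (FundamentalGroupoid.mk x ⟶ FundamentalGroupoid.mk y) → G}

/-- the path in `X` -/
abbrev incl {x y : Y} (s : Path x y) : Path (x : X) (y : X) := s.map continuous_subtype_val

variable [TopologicalSpace G] [DiscreteTopology G] {V : X → Set X} {f : X → Y → G} {g : X → X → X → G}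

/-- the covering map -/
theorem Cocy.cov (h : Cocy q V f g) : IsCoveringMap (fun e : h.core.TotalSpace => e.proj) :=
  FiberBundle.isCoveringMap

/-- the point of the covering -/
def Cocy.pt (h : Cocy q V f g) (x : X) (c : G) : h.core.TotalSpace := ⟨x, c⟩

/-- the lift of a path of a small set -/
theorem Cocy.lift_small (h : Cocy q V f g) {x y : Y} (s : Path x y) {i : X} (hi : ∀ t, (s t : X) ∈ V i) (c : G) :
    ∃ Γ : C(I, h.core.TotalSpace), (∀ t, (Γ t).proj = s t) ∧ Γ 0 = h.pt x c ∧
      Γ 1 = h.pt y (c * f x x * q x y (cl s) * (f y y)⁻¹) := by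
  let F : X × G → h.core.TotalSpace := (h.core.localTriv i).toOpenPartialHomeomorph.symm
  have hF : ContinuousOn F (V i ×ˢ univ) := by
    have := (h.core.localTriv i).toOpenPartialHomeomorph.continuousOn_symm
    exact this.mono (fun p hp => (h.core.mem_localTriv_target i p).2 hp.1)
  have hc : Continuous fun t : I => F ((s t : X), c * g x i x) := by
    apply hF.comp_continuous (f := fun t : I => (((s t : Y) : X), c * g x i x))
    · exact (continuous_subtype_val.comp s.continuous).prodMk continuous_const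
    · intro t
      exact ⟨hi t, mem_univ _⟩
  have hx : (x : X) ∈ V i := by have := hi 0; rwa [s.source] at this
  have hy : (y : X) ∈ V i := by have := hi 1; rwa [s.target] at this
  refine ⟨⟨_, hc⟩, fun t => rfl, ?_, ?_⟩
  · change h.pt (s 0 : Y) (c * g x i x * g i (s 0 : Y) (s 0 : Y)) = _
    rw [s.source, mul_assoc, h.comp (h.mem _) hx (h.mem _), h.self (h.mem _), mul_one]
  · change h.pt (s 1 : Y) (c * g x i x * g i (s 1 : Y) (s 1 : Y)) = _
    rw [s.target]
    have e1 := (h.chg x i x (h.mem _) hx).self_of_nhds x rfl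
    have e2 := (h.chg i y y hy (h.mem _)).self_of_nhds y rfl
    have e3 := (h.pot i).pot x y s hi
    rw [e2] at e3
    rw [e1]
    congr 1
    have e4 : g i y y = f i x * q x y (cl s) * (f y y)⁻¹ := by rw [← e3]; group
    rw [e4]
    group

/-- the monodromy along a path of `Y` -/
def Cocy.Mon (h : Cocy q V f g) {x y : Y} (s : Path x y) : Prop :=
  ∀ c : G, ((h.cov.monodromy (Path.Homotopic.Quotient.mk (incl s)) ⟨h.pt x c, rfl⟩ :
    (fun e : h.core.TotalSpace => e.proj) ⁻¹' {(y : X)}) : h.core.TotalSpace) = h.pt y (c * f x x * q x y (cl s) * (f y y)⁻¹)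

theorem Cocy.mon_small (h : Cocy q V f g) {x y : Y} (s : Path x y) {i : X} (hi : ∀ t, (s t : X) ∈ V i) :
    h.Mon s := by
  intro c
  obtain ⟨Γ, h1, h2, h3⟩ := h.lift_small s hi c
  rw [← h3]
  have h4 : (incl s).toContinuousMap 0 = (h.pt x c).proj := by
    change (s 0 : X) = x
    rw [s.source]
  have := (h.cov.eq_liftPath_iff' (γ := (incl s).toContinuousMap) (e := h.pt x c) h4 (Γ := Γ)).2
    ⟨funext fun t => h1 t, h2⟩
  rw [this]
  rfl

theorem Cocy.mon (h : Cocy q V f g) (hq : ∀ x y z α β, q x z (α ≫ β) = q x y α * q y z β) {x y : Y} (s : Path x y) :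
    h.Mon s := by
  refine path_ind (fun i : X => ((↑) : Y → X) ⁻¹' (V i)) (fun i => (h.opn i).preimage continuous_subtype_val)
    (fun x => ⟨x, h.mem x⟩) (fun {x y} s => h.Mon s) ?_ ?_ ?_ s
  · intro x y z γ δ hγ hδ c
    have e1 : Path.Homotopic.Quotient.mk (incl (γ.trans δ)) =
        (Path.Homotopic.Quotient.mk (incl γ)).trans (Path.Homotopic.Quotient.mk (incl δ)) := by
      rw [← Path.Homotopic.Quotient.mk_trans, incl, incl, incl, Path.map_trans]
    rw [e1, h.cov.monodromy_trans_apply]
    have e2 : (h.cov.monodromy (Path.Homotopic.Quotient.mk (incl γ)) ⟨h.pt x c, rfl⟩) =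
        ⟨h.pt y (c * f x x * q x y (cl γ) * (f y y)⁻¹), rfl⟩ := Subtype.ext (hγ c)
    rw [e2, hδ, cl_trans, hq x y z]
    congr 1
    group
  · intro x y γ δ hh hγ c
    have e1 : Path.Homotopic.Quotient.mk (incl δ) = Path.Homotopic.Quotient.mk (incl γ) := by
      rw [Path.Homotopic.Quotient.eq]
      exact (hh.map ⟨_, continuous_subtype_val⟩).symm
    rw [e1, hγ, cl_eq hh]
  · intro x y γ i hi
    exact h.mon_small γ (fun t => hi ⟨t, rfl⟩)

omit [TopologicalSpace G] [DiscreteTopology G] in
/-- **The extension theorem.** -/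
theorem q_eq_of_homotopic (hq : ∀ x y z α β, q x z (α ≫ β) = q x y α * q y z β)
    (hb : ∀ x : X, ∀ U : Set X, IsOpen U → x ∈ U → ∃ V : Set X, GoodN q V ∧ x ∈ V ∧ V ⊆ U) {x y : Y} (s s' : Path x y)
    (hh : (incl s).Homotopic (incl s')) : q x y (cl s) = q x y (cl s') := by
  let _ : TopologicalSpace G := ⊥
  have _ : DiscreteTopology G := ⟨rfl⟩
  obtain ⟨V, f, g, h⟩ := exists_cocy hq hb
  have h1 := h.mon hq s 1
  have h2 := h.mon hq s' 1
  have e1 : Path.Homotopic.Quotient.mk (incl s) = Path.Homotopic.Quotient.mk (incl s') := by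
    rw [Path.Homotopic.Quotient.eq]
    exact hh
  rw [e1, h2] at h1
  have h3 : (1 * f y y * q y y (cl (Path.refl y)) * (f y y)⁻¹ : G) = 1 := by
    rw [cl_refl, q_one q hq]; group
  have h4 : (1 * f x x * q x y (cl s') * (f y y)⁻¹ : G) = 1 * f x x * q x y (cl s) * (f y y)⁻¹ := by
    have := congrArg (fun e : h.core.TotalSpace => (e.snd : G)) h1
    exact this
  have h5 := mul_left_cancel (mul_right_cancel h4)
  exact h5.symm

end

end Pool.Agent.NHT
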