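import Mathlib

/-!
# NHT/FG: a fundamental group is finitely generated over the loops of a finite cover

`FG_main`: `X` covered by finitely many open path connected sets `W i` with base points `w i` and paths `p i` from
`x₀` to `w i`; `H₀` a subgroup of `π₁(X, x₀)` containing all `p i · γ · (p i)⁻¹`, `γ` a loop at `w i` in `W i ∪ W j`,
where `W j` meets `W i`.  Then `π₁(X, x₀)` is generated by `H₀` and finitely many elements.
-/

namespace Pool.Agent.NHT

open Set CategoryTheory unitInterval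

universe u

section paths

variable {X : Type u} [TopologicalSpace X]

/-- the class of a path in the fundamental groupoid -/
def cl {x y : X} (γ : Path x y) : (FundamentalGroupoid.mk x ⟶ FundamentalGroupoid.mk y) :=
  Path.Homotopic.Quotient.mk γ

theorem cl_trans {x y z : X} (γ : Path x y) (δ : Path y z) : cl (γ.trans δ) = cl γ ≫ cl δ := rfl

theorem cl_refl (x : X) : cl (Path.refl x) = 𝟙 (FundamentalGroupoid.mk x) := rfl

theorem cl_symm {x y : X} (γ : Path x y) : cl γ.symm = inv (cl γ) := by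
  rw [← Groupoid.inv_eq_inv]; rfl

theorem cl_eq {x y : X} {γ δ : Path x y} (h : γ.Homotopic δ) : cl γ = cl δ :=
  Quotient.sound h

theorem cl_surj {x y : X} (α : FundamentalGroupoid.mk x ⟶ FundamentalGroupoid.mk y) :
    ∃ γ : Path x y, cl γ = α :=
  Path.Homotopic.Quotient.mk_surjective α

/-- **Subdivision.** A property of paths (for all end points) which is multiplicative, invariant under homotopy, and
true for the paths inside the members of an open cover, is true for all paths. -/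
theorem path_ind {ι : Type*} (W : ι → Set X) (hWo : ∀ i, IsOpen (W i)) (hWc : ∀ x, ∃ i, x ∈ W i)
    (P : ∀ {x y : X}, Path x y → Prop)
    (hmul : ∀ {x y z : X} (γ : Path x y) (δ : Path y z), P γ → P δ → P (γ.trans δ))
    (hhom : ∀ {x y : X} (γ δ : Path x y), γ.Homotopic δ → P γ → P δ)
    (hsmall : ∀ {x y : X} (γ : Path x y) (i : ι), range γ ⊆ W i → P γ) :
    ∀ {x y : X} (γ : Path x y), P γ := by
  intro x y γ
  have hcov : ∀ s : I, ∃ i, s ∈ γ ⁻¹' (W i) := fun s => hWc (γ s)
  obtain ⟨t, ht0, htm, ⟨n, hn⟩, ht⟩ := exists_monotone_Icc_subset_open_cover_unitInterval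
    (c := fun i => γ ⁻¹' (W i)) (fun i => (hWo i).preimage γ.continuous)
    (by intro s _; obtain ⟨i, hi⟩ := hcov s; exact mem_iUnion.2 ⟨i, hi⟩)
  have hcast : ∀ {a b x' y' : X} (δ : Path a b) (hx : x' = a) (hy : y' = b),
      P (δ.cast hx hy) → P δ := by
    intro a b x' y' δ hx hy h
    subst hx; subst hy; exact h
  have hrefl : ∀ z : X, P (Path.refl z) := by
    intro z
    obtain ⟨i, hi⟩ := hWc z
    refine hsmall _ i ?_
    rintro _ ⟨s, rfl⟩
    exact hi
  have hconcat : ∀ (n : ℕ) (p : Fin (n + 1) → X) (F : (k : Fin n) → Path (p k.castSucc) (p k.succ)),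
      (∀ k, P (F k)) → P (Path.concat p F) := by
    intro n
    induction n with
    | zero =>
      intro p F _
      rw [Path.concat_zero]
      exact hrefl _
    | succ n ih =>
      intro p F hF
      rw [Path.concat_succ]
      exact hmul _ _ (ih _ _ (fun k => hF k.castSucc)) (hF (Fin.last n))
  let τ : Fin (n + 1) → I := fun k => t k
  have h1 : P (Path.concat (γ ∘ τ) (fun k => γ.subpath (τ k.castSucc) (τ k.succ))) := by
    apply hconcat
    intro k
    obtain ⟨i, hi⟩ := ht k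
    refine hsmall _ i ?_
    have hle : τ k.castSucc ≤ τ k.succ := htm (by simp)
    rw [Path.range_subpath_of_le _ _ _ hle]
    rintro _ ⟨s, hs, rfl⟩
    exact hi hs
  have h2 := hhom _ _ (Path.Homotopic.concat_subpath γ τ) h1
  have e0 : τ 0 = 0 := ht0
  have e1 : τ (Fin.last n) = 1 := hn n le_rfl
  have h3 : ∀ a b : I, a = 0 → b = 1 → P (γ.subpath a b) → P (γ.subpath 0 1) := by
    intro a b ha hb h
    subst ha; subst hb; exact h
  have h4 := h3 _ _ e0 e1 h2
  rw [Path.subpath_zero_one] at h4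
  exact hcast γ _ _ h4

end paths

section main

variable {X : Type u} [TopologicalSpace X] {x₀ : X} {ι : Type*}

/-- `α : x₀ → y` is in `H` relative to the piece `W i`. -/
def FG_good (W : ι → Set X) (w : ι → X) (p : ∀ i, Path x₀ (w i))
    (H : Subgroup (FundamentalGroup X x₀)) (i : ι) {y : X}
    (α : FundamentalGroupoid.mk x₀ ⟶ FundamentalGroupoid.mk y) : Prop :=
  ∃ s : Path (w i) y, range s ⊆ W i ∧
    ((α ≫ inv (cl s) ≫ inv (cl (p i)) :) : FundamentalGroup X x₀) ∈ H

theorem FG_main [Finite ι] (W : ι → Set X) (hWo : ∀ i, IsOpen (W i))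
    (hWp : ∀ i, IsPathConnected (W i)) (hWc : ∀ x, ∃ i, x ∈ W i) (w : ι → X)
    (hw : ∀ i, w i ∈ W i) (p : ∀ i, Path x₀ (w i)) (H₀ : Subgroup (FundamentalGroup X x₀))
    (hH : ∀ i j, (W i ∩ W j).Nonempty → ∀ γ : Path (w i) (w i), range γ ⊆ W i ∪ W j →
      ((cl (p i) ≫ cl γ ≫ inv (cl (p i)) :) : FundamentalGroup X x₀) ∈ H₀) :
    ∃ A : Finset (FundamentalGroup X x₀),
      Subgroup.closure ((H₀ : Set (FundamentalGroup X x₀)) ∪ A) = ⊤ := by
  classical
  have := Fintype.ofFinite ι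
  -- a path inside `W i`
  have hpath : ∀ i, ∀ x ∈ W i, ∀ y ∈ W i, ∃ s : Path x y, range s ⊆ W i := by
    intro i x hx y hy
    have h1 := (hWp i).joinedIn x hx y hy
    refine ⟨h1.somePath, ?_⟩
    rintro _ ⟨t, rfl⟩
    exact h1.somePath_mem t
  -- the connecting paths
  have hq : ∀ ij : ι × ι, ∃ q : FundamentalGroup X x₀, (W ij.1 ∩ W ij.2).Nonempty →
      ∃ r : Path (w ij.1) (w ij.2), range r ⊆ W ij.1 ∪ W ij.2 ∧
        q = (cl (p ij.1) ≫ cl r ≫ inv (cl (p ij.2)) :) := by
    rintro ⟨i, j⟩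
    by_cases h : (W i ∩ W j).Nonempty
    · obtain ⟨z, hz1, hz2⟩ := h
      obtain ⟨s, hs⟩ := hpath i _ (hw i) z hz1
      obtain ⟨s', hs'⟩ := hpath j z hz2 _ (hw j)
      refine ⟨_, fun _ => ⟨s.trans s', ?_, rfl⟩⟩
      rw [Path.trans_range]
      exact union_subset_union hs hs'
    · exact ⟨1, fun h' => absurd h' h⟩
  choose q hq using hq
  obtain ⟨i₀, hi₀⟩ := hWc x₀
  obtain ⟨s₀, hs₀⟩ := hpath i₀ _ (hw i₀) x₀ hi₀
  let g₀ : FundamentalGroup X x₀ := (inv (cl s₀) ≫ inv (cl (p i₀)) :)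
  let A : Finset (FundamentalGroup X x₀) := insert g₀ (Finset.univ.image q)
  refine ⟨A, ?_⟩
  set H := Subgroup.closure ((H₀ : Set (FundamentalGroup X x₀)) ∪ A) with hHdef
  have hH₀ : H₀ ≤ H := fun x hx => Subgroup.subset_closure (Or.inl hx)
  have hqH : ∀ ij, q ij ∈ H := fun ij => Subgroup.subset_closure (Or.inr (by
    simp only [A, Finset.coe_insert, Finset.coe_image, Finset.coe_univ, image_univ]
    exact Or.inr ⟨ij, rfl⟩))
  have hg₀ : g₀ ∈ H := Subgroup.subset_closure (Or.inr (by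
    simp only [A, Finset.coe_insert]
    exact Or.inl rfl))
  -- multiplication in the fundamental group
  have hmul : ∀ a b : FundamentalGroup X x₀, a ∈ H → b ∈ H →
      ((a ≫ b :) : FundamentalGroup X x₀) ∈ H := by
    intro a b ha hb
    exact H.mul_mem hb ha
  -- change of the piece
  have hchange : ∀ (i j : ι) (y : X) (α : FundamentalGroupoid.mk x₀ ⟶ FundamentalGroupoid.mk y),
      y ∈ W j → FG_good W w p H i α → FG_good W w p H j α := by
    rintro i j y α hy ⟨s, hs, hsH⟩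
    obtain ⟨s', hs'⟩ := hpath j _ (hw j) y hy
    have hyi : y ∈ W i := by
      apply hs
      exact ⟨1, s.target⟩
    have hne : (W i ∩ W j).Nonempty := ⟨y, hyi, hy⟩
    obtain ⟨r, hr, hrq⟩ := hq (i, j) hne
    refine ⟨s', hs', ?_⟩
    have h1 := hH i j hne ((s.trans s'.symm).trans r.symm) (by
      rw [Path.trans_range, Path.trans_range, Path.symm_range, Path.symm_range]
      exact union_subset (union_subset_union hs hs') hr)
    have h2 := hmul _ _ hsH (hmul _ _ (hH₀ h1) (hqH (i, j)))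
    have e : ((α ≫ inv (cl s) ≫ inv (cl (p i)) :) ≫ ((cl (p i) ≫ cl ((s.trans s'.symm).trans r.symm) ≫
        inv (cl (p i)) :) ≫ q (i, j))) = (α ≫ inv (cl s') ≫ inv (cl (p j)) :) := by
      rw [hrq, cl_trans, cl_trans, cl_symm, cl_symm]
      simp
    exact e ▸ h2
  -- the property of paths
  have key : ∀ {x y : X} (γ : Path x y), ∀ (i j : ι) (α : FundamentalGroupoid.mk x₀ ⟶
      FundamentalGroupoid.mk x), y ∈ W j → FG_good W w p H i α → FG_good W w p H j (α ≫ cl γ) := by
    refine path_ind W hWo hWc (P := fun {x y} γ => ∀ (i j : ι)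
      (α : FundamentalGroupoid.mk x₀ ⟶ FundamentalGroupoid.mk x), y ∈ W j →
        FG_good W w p H i α → FG_good W w p H j (α ≫ cl γ)) ?_ ?_ ?_
    · intro x y z γ δ hγ hδ i j α hz hα
      obtain ⟨k, hk⟩ := hWc y
      have h1 := hγ i k α hk hα
      have h2 := hδ k j (α ≫ cl γ) hz h1
      rw [cl_trans, ← Category.assoc]
      exact h2
    · intro x y γ δ h hγ i j α hy hα
      rw [← cl_eq h]
      exact hγ i j α hy hα
    · intro x y γ k hk i j α hy hα
      have hx : x ∈ W k := hk ⟨0, γ.source⟩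
      have hyk : y ∈ W k := hk ⟨1, γ.target⟩
      obtain ⟨s, hs, hsH⟩ := hchange i k x α hx hα
      refine hchange k j y _ hy ⟨s.trans γ, ?_, ?_⟩
      · rw [Path.trans_range]
        exact union_subset hs hk
      · have e : ((α ≫ cl γ) ≫ inv (cl (s.trans γ)) ≫ inv (cl (p k)) :) =
            (α ≫ inv (cl s) ≫ inv (cl (p k)) :) := by simp [cl_trans]
        exact e ▸ hsH
  rw [eq_top_iff]
  intro g _
  obtain ⟨γ, hγ⟩ := cl_surj (g : FundamentalGroupoid.mk x₀ ⟶ FundamentalGroupoid.mk x₀)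
  have hstart : FG_good W w p H i₀ (𝟙 (FundamentalGroupoid.mk x₀)) := by
    refine ⟨s₀, hs₀, ?_⟩
    rw [Category.id_comp]
    exact hg₀
  obtain ⟨s, hs, hsH⟩ := key γ i₀ i₀ _ hi₀ hstart
  rw [Category.id_comp, hγ] at hsH
  -- replace `s` by `s₀`
  have h1 := hH i₀ i₀ ⟨x₀, hi₀, hi₀⟩ (s.trans s₀.symm) (by
    rw [Path.trans_range, Path.symm_range]
    exact union_subset_union hs hs₀)
  have h2 := hmul _ _ (hmul _ _ hsH (hH₀ h1)) (H.inv_mem hg₀)
  have e : (((g ≫ inv (cl s) ≫ inv (cl (p i₀)) :) ≫ (cl (p i₀) ≫ cl (s.trans s₀.symm) ≫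
      inv (cl (p i₀)) :)) ≫ (g₀⁻¹ : FundamentalGroup X x₀)) = g := by
    have e1 : ((g₀⁻¹ : FundamentalGroup X x₀) : FundamentalGroupoid.mk x₀ ⟶ FundamentalGroupoid.mk x₀)
        = cl (p i₀) ≫ cl s₀ := by
      have : (g₀⁻¹ : FundamentalGroup X x₀) = inv (g₀ : FundamentalGroupoid.mk x₀ ⟶ _) := by
        rw [← Groupoid.inv_eq_inv]; rfl
      rw [this]
      simp [g₀]
    rw [e1, cl_trans, cl_symm]
    simp
  exact e ▸ h2

end main

end Pool.Agent.NHT
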