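import Pool.Agent.NHT.T1

/-!
# NHT/T3: the mod 2 hypothesis

* `genMod2_of_hom`: if every homomorphism `π → ℤ/2` with `k ↦ 0` is trivial, then `π` is generated by the squares and `k`.
* `genMod2_conj`: change of the base point.
* `gen_compl`: the fundamental group of the complement is generated by the squares, the longitude and the conjugates of
  the meridian.
-/

namespace Pool.Agent.NHT

open Set CategoryTheory unitInterval Topology Filter
open scoped Manifold ContDiff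
open Pool.Agent.RSG (E3 ex Thick)
open Pool.Agent.NHP (core Rep)
open Pool.Agent.NHQ (PC cc exists_PC)

section algebra

variable {π : Type*} [Group π]

theorem genMod2_of_hom {k : π} (h : ∀ f : π →* Multiplicative (ZMod 2), f k = 1 → f = 1) : GenMod2 k := by
  unfold GenMod2
  set H : Subgroup π := Subgroup.closure ({x : π | ∃ y, x = y * y} ∪ {k}) with hH
  have hsq : ∀ y : π, y * y ∈ H := fun y => Subgroup.subset_closure (Or.inl ⟨y, rfl⟩)
  have hk : k ∈ H := Subgroup.subset_closure (Or.inr rfl)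
  have hcomm : ∀ a b : π, a * b * a⁻¹ * b⁻¹ ∈ H := by
    intro a b
    have h1 := H.mul_mem (H.mul_mem (hsq a) (hsq (a⁻¹ * b))) (H.inv_mem (hsq b))
    have e : a * a * (a⁻¹ * b * (a⁻¹ * b)) * (b * b)⁻¹ = a * b * a⁻¹ * b⁻¹ := by group
    rwa [e] at h1
  have hn : H.Normal := by
    refine ⟨fun n hn g => ?_⟩
    have h1 := H.mul_mem (hcomm g n) hn
    have e : g * n * g⁻¹ * n⁻¹ * n = g * n * g⁻¹ := by group
    rwa [e] at h1
  have hQc : ∀ a b : π ⧸ H, a * b = b * a := by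
    intro a b
    obtain ⟨a, rfl⟩ := QuotientGroup.mk_surjective a
    obtain ⟨b, rfl⟩ := QuotientGroup.mk_surjective b
    rw [← QuotientGroup.mk_mul, ← QuotientGroup.mk_mul, QuotientGroup.eq]
    have h1 := H.inv_mem (hcomm b⁻¹ a⁻¹)
    have e : (b⁻¹ * a⁻¹ * (b⁻¹)⁻¹ * (a⁻¹)⁻¹)⁻¹ = a⁻¹ * b⁻¹ * a * b := by group
    rw [e] at h1
    have h2 := hcomm b⁻¹ a⁻¹
    have e2 : b⁻¹ * a⁻¹ * (b⁻¹)⁻¹ * (a⁻¹)⁻¹ = (a * b)⁻¹ * (b * a) := by group
    rwa [e2] at h2
  let _ : CommGroup (π ⧸ H) := { (inferInstance : Group (π ⧸ H)) with mul_comm := hQc }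
  let _ : Module (ZMod 2) (Additive (π ⧸ H)) := AddCommGroup.zmodModule (n := 2) (by
    intro x
    obtain ⟨x, rfl⟩ := Additive.ofMul.surjective x
    obtain ⟨x, rfl⟩ := QuotientGroup.mk_surjective x
    rw [two_nsmul, ← ofMul_mul, ← QuotientGroup.mk_mul]
    have : ((x * x : π) : π ⧸ H) = 1 := (QuotientGroup.eq_one_iff _).2 (hsq x)
    rw [this]; rfl)
  rw [eq_top_iff]
  intro x _
  have hv : (Additive.ofMul ((x : π) : π ⧸ H)) = 0 := by
    rw [← Module.forall_dual_apply_eq_zero_iff (ZMod 2)]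
    intro φ
    let f : π →* Multiplicative (ZMod 2) :=
      (AddMonoidHom.toMultiplicativeRight φ.toAddMonoidHom).comp (QuotientGroup.mk' H)
    have hf : f = 1 := by
      apply h
      have h1 : ((k : π) : π ⧸ H) = 1 := (QuotientGroup.eq_one_iff _).2 hk
      change Multiplicative.ofAdd (φ (Additive.ofMul ((k : π) : π ⧸ H))) = 1
      rw [h1, ofMul_one, map_zero]; rfl
    have h2 : f x = 1 := by rw [hf]; rfl
    exact Multiplicative.ofAdd.injective h2
  exact (QuotientGroup.eq_one_iff _).1 (Additive.ofMul.injective hv)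

/-- image under a surjective homomorphism -/
theorem genMod2_map {π' : Type*} [Group π'] (e : π →* π') (he : Function.Surjective e) {k : π} (h : GenMod2 k) :
    GenMod2 (e k) := by
  unfold GenMod2 at h ⊢
  rw [eq_top_iff]
  have h1 : Subgroup.map e ⊤ = ⊤ := Subgroup.map_top_of_surjective e he
  rw [← h1, ← h, Subgroup.map_le_iff_le_comap, Subgroup.closure_le]
  rintro x (⟨y, rfl⟩ | hx)
  · exact Subgroup.subset_closure (Or.inl ⟨e y, by rw [map_mul]⟩)
  · rw [mem_singleton_iff.1 hx]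
    exact Subgroup.subset_closure (Or.inr rfl)

end algebra

/-- change of the base point -/
theorem genMod2_conj {X : Type*} [TopologicalSpace X] {x y : X} (e : FundamentalGroupoid.mk x ⟶ FundamentalGroupoid.mk y)
    {a : FundamentalGroupoid.mk x ⟶ FundamentalGroupoid.mk x} {b : FundamentalGroupoid.mk y ⟶ FundamentalGroupoid.mk y}
    (h : a ≫ e = e ≫ b) (ha : GenMod2 (fa a)) : GenMod2 (fa b) := by
  let f : FundamentalGroup X x →* FundamentalGroup X y :=
    { toFun := fun c => fa (inv e ≫ c ≫ e)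
      map_one' := by
        change fa (inv e ≫ 𝟙 _ ≫ e) = 1
        rw [Category.id_comp, IsIso.inv_hom_id]; rfl
      map_mul' := by
        intro c d
        change fa (inv e ≫ (d ≫ c) ≫ e) = fa (inv e ≫ c ≫ e) * fa (inv e ≫ d ≫ e)
        rw [← fa_comp]
        congr 1
        simp }
  have hf : Function.Surjective f := by
    intro d
    refine ⟨fa (e ≫ d ≫ inv e), ?_⟩
    change fa (inv e ≫ (e ≫ d ≫ inv e) ≫ e) = d
    have : inv e ≫ (e ≫ d ≫ inv e) ≫ e = d := by simp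
    rw [this]; rfl
  have h1 := genMod2_map f hf ha
  have h2 : f (fa a) = fa b := by
    change fa (inv e ≫ a ≫ e) = fa b
    rw [h, IsIso.inv_hom_id_assoc]
  rwa [h2] at h1

section

variable {N : Type*} [TopologicalSpace N] [ChartedSpace E3 N] {κ : ℝ × ℂ → N}

/-- the longitude and the core are freely homotopic -/
theorem lon_core (hκ : Thick κ) {p ρ : ℝ} (h0 : 0 ≤ ρ) (h1 : ρ < 1) {x y : N}
    {a : FundamentalGroupoid.mk x ⟶ FundamentalGroupoid.mk x} {b : FundamentalGroupoid.mk y ⟶ FundamentalGroupoid.mk y}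
    (ha : PC (fun t => κ (t, 0)) a) (hb : PC (fun t => κ (p + t, ρ)) b) :
    ∃ e : FundamentalGroupoid.mk x ⟶ FundamentalGroupoid.mk y, a ≫ e = e ≫ b := by
  have hc : ContinuousOn (fun q : ℝ × ℝ => κ (q.1 * p + q.2, ((q.1 * ρ : ℝ) : ℂ))) (Icc (0 : ℝ) 1 ×ˢ univ) := by
    rintro ⟨s, t⟩ ⟨hs, -⟩
    apply ContinuousAt.continuousWithinAt
    refine ContinuousAt.comp_of_eq (g := κ) (f := fun q : ℝ × ℝ => (q.1 * p + q.2, ((q.1 * ρ : ℝ) : ℂ)))
      (thick_cont hκ (a := (s * p + t, ((s * ρ : ℝ) : ℂ))) ?_) (by fun_prop) rfl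
    change ‖((s * ρ : ℝ) : ℂ)‖ < 1
    rw [Complex.norm_real, Real.norm_eq_abs, abs_of_nonneg (mul_nonneg hs.1 h0)]
    calc s * ρ ≤ 1 * ρ := mul_le_mul_of_nonneg_right hs.2 h0
      _ < 1 := by linarith
  have hx : κ (0, 0) = x := ha.zero
  have hy : κ (p, (ρ : ℂ)) = y := by have := hb.zero; simpa using this
  obtain ⟨e, he⟩ := exists_PC (x := x) (y := y) (f := fun s => κ (s * p, ((s * ρ : ℝ) : ℂ))) (by
    have := hc.comp (f := fun s : ℝ => (s, (0 : ℝ))) (by fun_prop) (fun s hs => ⟨hs, mem_univ _⟩)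
    simpa [Function.comp_def] using this) (by simpa using hx) (by simpa using hy)
  refine ⟨e, PC.square (H := fun q : ℝ × ℝ => κ (q.1 * p + q.2, ((q.1 * ρ : ℝ) : ℂ)))
    (hc.mono (prod_mono Subset.rfl (subset_univ _))) ?_ ?_ ?_ ?_⟩
  · simpa using ha
  · simpa using hb
  · simpa using he
  · refine he.congr (fun s _ => ?_)
    exact hκ.per _ _

variable [T2Space N] [PathConnectedSpace N]

/-- **T3.** -/
theorem gen_compl (hκ : Thick κ) {p ρ : ℝ} (h0 : 0 < ρ) (h1 : ρ < 1) {r : ((core κ)ᶜ : Set N)} {μ ν : Path r r}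
    (hμ : Rep (fun t => κ (p, ρ * ex t)) μ) (hν : Rep (fun t => κ (p + t, ρ)) ν) {x : N} {o : Path x x}
    (ho : ∀ t : I, o t = κ (t, 0)) (hgen : GenMod2 (fg o)) :
    Subgroup.closure ({y : FundamentalGroup ((core κ)ᶜ : Set N) r | ∃ z, y = z * z} ∪ {fg ν} ∪
      (Subgroup.normalClosure {fg μ} : Set (FundamentalGroup ((core κ)ᶜ : Set N) r))) = ⊤ := by
  -- the class of the longitude in `N`
  have hνN : PC (fun t => κ (p + t, ρ)) (cl (incl ν)) := by
    obtain ⟨γ, h2, h3⟩ := hν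
    refine ⟨incl γ, fun t => h2 t, ?_⟩
    exact cl_eq (h3.map ⟨_, continuous_subtype_val⟩)
  have hoN : PC (fun t => κ (t, 0)) (cl o) := ⟨o, ho, rfl⟩
  obtain ⟨e, he⟩ := lon_core hκ h0.le h1 hoN hνN
  have hgen' : GenMod2 (fa (cl (incl ν))) := genMod2_conj e he hgen
  -- the homomorphism induced by the inclusion
  let f : FundamentalGroup ((core κ)ᶜ : Set N) r →* FundamentalGroup N (r : N) :=
    FundamentalGroup.map ⟨_, continuous_subtype_val⟩ r
  have hf : ∀ γ : Path r r, f (fg γ) = fg (incl γ) := fun γ => rfl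
  have hfs : Function.Surjective f := by
    intro g
    obtain ⟨c, hc⟩ := cl_surj (g : FundamentalGroupoid.mk (r : N) ⟶ FundamentalGroupoid.mk (r : N))
    obtain ⟨s, hs⟩ := exists_path_compl hκ c
    refine ⟨fg s, ?_⟩
    rw [hf, fg_eq.2 hs]
    exact hc
  set H := Subgroup.closure ({y : FundamentalGroup ((core κ)ᶜ : Set N) r | ∃ z, y = z * z} ∪ {fg ν} ∪
      (Subgroup.normalClosure {fg μ} : Set (FundamentalGroup ((core κ)ᶜ : Set N) r))) with hH
  have hker : ∀ g, f g = 1 → g ∈ H := by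
    intro g hg
    obtain ⟨γ, hγ⟩ := cl_surj (g : FundamentalGroupoid.mk r ⟶ FundamentalGroupoid.mk r)
    have hγ' : fg γ = g := hγ
    subst hγ'
    rw [hf] at hg
    exact Subgroup.subset_closure (Or.inr (ker_compl hκ h0 h1 hμ γ (fg_eq.1 hg)))
  have hmap : H.map f = ⊤ := by
    rw [eq_top_iff]
    unfold GenMod2 at hgen'
    rw [← hgen', Subgroup.closure_le]
    rintro y (⟨z, rfl⟩ | hy)
    · obtain ⟨z, rfl⟩ := hfs z
      exact ⟨z * z, Subgroup.subset_closure (Or.inl (Or.inl ⟨z, rfl⟩)), map_mul _ _ _⟩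
    · rw [mem_singleton_iff.1 hy]
      exact ⟨fg ν, Subgroup.subset_closure (Or.inl (Or.inr rfl)), hf ν⟩
  rw [eq_top_iff]
  intro g _
  obtain ⟨h, hh, hhg⟩ : f g ∈ H.map f := by rw [hmap]; exact Subgroup.mem_top _
  have h2 : g * h⁻¹ ∈ H := hker _ (by rw [map_mul, map_inv, hhg, mul_inv_cancel])
  have h3 := H.mul_mem h2 hh
  rwa [inv_mul_cancel_right] at h3

end

end Pool.Agent.NHT
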