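import Pool.Agent.NHT.Hyp
import Pool.Agent.NHT.T3
import Pool.Agent.NHQ.Ker

/-!
# NHT/Gen: translations of the mod 2 hypothesis

* `GenH1.hom`: the form used for the orientation.
* `GenH1.gen2`: `π₁` is generated by the squares and the class of the knot.
-/

open scoped Manifold ContDiff Topology
open Set CategoryTheory
open Pool.Agent.RSG (E3 Thick)
open Pool.Agent.NHQ (PC cl Gen2)

namespace Pool.Agent.NHT

variable {N : Type*} [TopologicalSpace N]

theorem GenH1.hom {κ : ℝ × ℂ → N} (h : GenH1 κ) (γ : Path (κ (0, 0)) (κ (0, 0))) (hγ : ∀ t : unitInterval, γ t = κ (t, 0))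
    (f : FundamentalGroup N (κ (0, 0)) →* Multiplicative (ZMod 2))
    (hf : f (FundamentalGroup.fromPath (Path.Homotopic.Quotient.mk γ)) = 1) : f = 1 := by
  ext g
  rw [h f (fun γ' hγ' => ?_) g]
  · rfl
  · have h1 : γ' = γ := by
      ext t; rw [hγ', hγ]
    rw [h1]; exact hf

theorem GenH1.gen2 {κ : ℝ × ℂ → N} (h : GenH1 κ)
    {o : FundamentalGroupoid.mk (κ (0, 0)) ⟶ FundamentalGroupoid.mk (κ (0, 0))} (ho : PC (fun l => κ (l, 0)) o) :
    Gen2 o := by
  obtain ⟨c, hc, hcl⟩ := ho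
  have h1 : GenMod2 (π := FundamentalGroup N (κ (0, 0))) (o : FundamentalGroup N (κ (0, 0))) := by
    apply genMod2_of_hom
    intro f hf
    apply h.hom c hc f
    have : (Path.Homotopic.Quotient.mk c : FundamentalGroupoid.mk (κ (0, 0)) ⟶ FundamentalGroupoid.mk (κ (0, 0))) = o := hcl
    rw [← this] at hf
    exact hf
  exact h1

end Pool.Agent.NHT
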