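import Mathlib

/-!
# NHT/Lif: logarithms of paths in `ℂ - {0}`
-/

namespace Pool.Agent.NHT

open Set unitInterval Topology Filter

/-- a path in `ℂ - {0}` has a logarithm -/
theorem exists_log (w : I → ℂ) (hw : Continuous w) (h0 : ∀ t, w t ≠ 0) :
    ∃ z : I → ℂ, Continuous z ∧ ∀ t, Complex.exp (z t) = w t := by
  let a : C(I, AddCircle (2 * Real.pi)) := ⟨fun t => (Complex.arg (w t) : Real.Angle), by
    rw [continuous_iff_continuousAt]
    intro t
    exact (Complex.continuousAt_arg_coe_angle (h0 t)).comp hw.continuousAt⟩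
  have hcov : IsCoveringMap ((↑) : ℝ → AddCircle (2 * Real.pi)) := AddCircle.isCoveringMap_coe _
  obtain ⟨Γ, h1, -⟩ := hcov.exists_path_lifts a (Complex.arg (w 0)) rfl
  have h2 : ∀ t, ((Γ t : ℝ) : Real.Angle) = (Complex.arg (w t) : Real.Angle) := fun t => congrFun h1 t
  refine ⟨fun t => Real.log ‖w t‖ + Γ t * Complex.I, ?_, fun t => ?_⟩
  · have h3 : Continuous fun t => Real.log ‖w t‖ :=
      Continuous.log hw.norm (fun t => norm_ne_zero_iff.2 (h0 t))
    exact (Complex.continuous_ofReal.comp h3).add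
      ((Complex.continuous_ofReal.comp Γ.continuous).mul continuous_const)
  · have hpos : 0 < ‖w t‖ := norm_pos_iff.2 (h0 t)
    rw [Complex.exp_add, ← Complex.ofReal_exp, Real.exp_log hpos]
    have h3 : Complex.exp (Γ t * Complex.I) = Complex.exp (Complex.arg (w t) * Complex.I) := by
      obtain ⟨k, hk⟩ := Real.Angle.angle_eq_iff_two_pi_dvd_sub.1 (h2 t)
      have h4 : (Γ t : ℂ) = Complex.arg (w t) + k * (2 * Real.pi) := by
        have : Γ t = Complex.arg (w t) + k * (2 * Real.pi) := by
          have h5 : Γ t - Complex.arg (w t) = 2 * Real.pi * k := hk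
          linear_combination h5
        rw [this]
        push_cast
        ring
      rw [h4, Complex.exp_eq_exp_iff_exists_int]
      exact ⟨k, by ring⟩
    rw [h3]
    exact Complex.norm_mul_exp_arg_mul_I (w t)

end Pool.Agent.NHT
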