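import Pool.Agent.NHT.Tub

/-!
# NHT/Lop: classes of the paths and loops of the punctured tube
-/

namespace Pool.Agent.NHT

open Set CategoryTheory unitInterval Topology Filter
open scoped Manifold ContDiff
open Pool.Agent.RSG (E3 ex Thick)
open Pool.Agent.NHP (core)
open Pool.Agent.NHQ (PC cc exists_PC)

section

variable {N : Type*} [TopologicalSpace N] [ChartedSpace E3 N] {κ : ℝ × ℂ → N}

/-- left half space -/
def LH : Set (ℝ × ℂ) := {a | a.2.re < 0}

theorem LH_convex : Convex ℝ LH := by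
  intro a ha b hb s t hs ht hst
  change (s • a + t • b).2.re < 0
  have h1 : (s • a + t • b).2.re = s * a.2.re + t * b.2.re := by simp
  rw [h1]
  have ha' : a.2.re < 0 := ha
  have hb' : b.2.re < 0 := hb
  rcases hs.eq_or_lt with rfl | hs'
  · have : t = 1 := by linarith
    subst this; linarith
  · have h2 : s * a.2.re < 0 := mul_neg_of_pos_of_neg hs' ha'
    have h3 : t * b.2.re ≤ 0 := mul_nonpos_of_nonneg_of_nonpos ht hb'.le
    linarith

theorem line_mem {a b : ℝ × ℂ} (ha : a ∈ LH) (hb : b ∈ LH) {t : ℝ} (ht : t ∈ Icc (0 : ℝ) 1) : a + t • (b - a) ∈ LH := by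
  have h := LH_convex ha hb (by linarith [ht.2] : (0 : ℝ) ≤ 1 - t) ht.1 (by ring)
  have e : (1 - t) • a + t • b = a + t • (b - a) := by
    rw [sub_smul, one_smul, smul_sub]; abel
  rwa [e] at h

theorem lat_mem {a : ℝ × ℂ} (ha : a ∈ LH) (j k : ℤ) (t : ℝ) : a + t • lat j k ∈ LH := by
  change (a + t • lat j k).2.re < 0
  have h1 : (a + t • lat j k).2.re = a.2.re := by
    rw [Prod.snd_add, Prod.smul_snd, Complex.add_re, Complex.smul_re, lat_re, smul_zero, add_zero]
  rw [h1]; exact ha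

theorem line_of {hκ : Thick κ} {x y : ((core κ)ᶜ : Set N)} (s : Path x y) {u : I → ℝ × ℂ} (hu : Continuous u)
    (hre : ∀ t, u t ∈ LH) (hs : ∀ t, s t = pt hκ (u t)) :
    PC (fun t => pt hκ (u 0 + t • (u 1 - u 0))) (cl s) := by
  refine PC.convex LH_convex (pt_cont hκ) (u := fun t : ℝ => u (projIcc 0 1 zero_le_one t))
    (v := fun t : ℝ => u 0 + t • (u 1 - u 0)) ?_ ?_ ?_ ?_ ?_ ?_ ?_
  · exact (hu.comp continuous_projIcc).continuousOn
  · fun_prop
  · intro t _; exact hre _
  · intro t ht; exact line_mem (hre 0) (hre 1) ht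
  · simp
  · simp
  · refine ⟨s, fun t => ?_, rfl⟩
    rw [hs]
    simp

/-- the class of a line -/
theorem exists_line (hκ : Thick κ) {a b : ℝ × ℂ} (ha : a ∈ LH) (hb : b ∈ LH) :
    ∃ γ : FundamentalGroupoid.mk (pt hκ a) ⟶ FundamentalGroupoid.mk (pt hκ b),
      PC (fun t => pt hκ (a + t • (b - a))) γ := by
  refine exists_PC ?_ (by simp) (by simp)
  exact (pt_cont hκ).comp (by fun_prop) (fun t ht => line_mem ha hb ht)

theorem exists_loop (hκ : Thick κ) {a : ℝ × ℂ} (ha : a ∈ LH) (j k : ℤ) :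
    ∃ γ : FundamentalGroupoid.mk (pt hκ a) ⟶ FundamentalGroupoid.mk (pt hκ a),
      PC (fun t => pt hκ (a + t • lat j k)) γ := by
  refine exists_PC ?_ (by simp) (by rw [one_smul, pt_lat])
  exact (pt_cont hκ).comp (by fun_prop) (fun t _ => lat_mem ha j k t)

/-- loops at different points -/
theorem loop_conj {hκ : Thick κ} {a b : ℝ × ℂ} (ha : a ∈ LH) (hb : b ∈ LH) (j k : ℤ) {x y : ((core κ)ᶜ : Set N)}
    {γ : FundamentalGroupoid.mk x ⟶ FundamentalGroupoid.mk x} {δ : FundamentalGroupoid.mk y ⟶ FundamentalGroupoid.mk y}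
    {e : FundamentalGroupoid.mk x ⟶ FundamentalGroupoid.mk y} (hγ : PC (fun t => pt hκ (a + t • lat j k)) γ)
    (hδ : PC (fun t => pt hκ (b + t • lat j k)) δ) (he : PC (fun t => pt hκ (a + t • (b - a))) e) : γ ≫ e = e ≫ δ := by
  refine PC.square (H := fun p : ℝ × ℝ => pt hκ (a + p.1 • (b - a) + p.2 • lat j k)) ?_ ?_ ?_ ?_ ?_
  · exact (pt_cont hκ).comp (by fun_prop) (fun p hp => lat_mem (line_mem ha hb hp.1) j k p.2)
  · simpa using hγ
  · simpa using hδ
  · simpa using he
  · refine he.congr (fun t _ => ?_)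
    simp only [one_smul]
    rw [pt_lat]

/-- sum of lattice vectors -/
theorem loop_add {hκ : Thick κ} {a : ℝ × ℂ} (ha : a ∈ LH) (j k j' k' : ℤ) {x : ((core κ)ᶜ : Set N)}
    {γ δ : FundamentalGroupoid.mk x ⟶ FundamentalGroupoid.mk x} (hγ : PC (fun t => pt hκ (a + t • lat j k)) γ)
    (hδ : PC (fun t => pt hκ (a + t • lat j' k')) δ) :
    PC (fun t => pt hκ (a + t • lat (j + j') (k + k'))) (γ ≫ δ) := by
  have h1 : PC (fun t => pt hκ (a + lat j k + t • lat j' k')) δ := by
    refine hδ.congr (fun t _ => ?_)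
    have : a + lat j k + t • lat j' k' = (a + t • lat j' k') + lat j k := by abel
    rw [this, pt_lat]
  have h2 := hγ.trans h1
  have h3 : cc (fun t => pt hκ (a + t • lat j k)) (fun t => pt hκ (a + lat j k + t • lat j' k'))
      = fun t => pt hκ (cc (fun t : ℝ => a + t • lat j k) (fun t : ℝ => a + lat j k + t • lat j' k') t) := by
    funext t
    unfold cc
    split_ifs <;> rfl
  rw [h3] at h2
  refine PC.convex LH_convex (pt_cont hκ) ?_ ?_ ?_ ?_ ?_ ?_ h2
  · unfold cc
    apply Continuous.continuousOn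
    refine Continuous.if_le (by fun_prop) (by fun_prop) continuous_id continuous_const ?_
    intro t ht
    rw [ht]; norm_num
  · fun_prop
  · intro t _
    unfold cc
    split_ifs
    · exact lat_mem ha j k _
    · have h4 : a + lat j k ∈ LH := by
        have := lat_mem ha j k 1
        rwa [one_smul] at this
      exact lat_mem h4 j' k' _
  · intro t _
    exact lat_mem ha _ _ t
  · unfold cc
    rw [if_pos (by norm_num)]; simp
  · unfold cc
    rw [if_neg (by norm_num)]
    have : (2 * (1 : ℝ) - 1) = 1 := by norm_num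
    rw [this]
    change a + lat j k + (1 : ℝ) • lat j' k' = a + (1 : ℝ) • lat (j + j') (k + k')
    rw [one_smul, one_smul, ← lat_add, add_assoc]

/-- loops of the punctured tube commute -/
theorem loop_comm {hκ : Thick κ} {a : ℝ × ℂ} (ha : a ∈ LH) (j k j' k' : ℤ) {x : ((core κ)ᶜ : Set N)}
    {γ δ : FundamentalGroupoid.mk x ⟶ FundamentalGroupoid.mk x} (hγ : PC (fun t => pt hκ (a + t • lat j k)) γ)
    (hδ : PC (fun t => pt hκ (a + t • lat j' k')) δ) : γ ≫ δ = δ ≫ γ := by
  have h1 := loop_add ha j k j' k' hγ hδ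
  have h2 := loop_add ha j' k' j k hδ hγ
  rw [add_comm j' j, add_comm k' k] at h2
  exact h1.unique h2

/-! ## multiplicative functions -/

variable {G : Type*} [Group G]
  {q : ∀ x y : ((core κ)ᶜ : Set N), (FundamentalGroupoid.mk x ⟶ FundamentalGroupoid.mk y) → G}

/-- if `q` is trivial on one meridian then it is trivial on all multiples of meridians -/
theorem q_mer (hq : ∀ x y z α β, q x z (α ≫ β) = q x y α * q y z β) {hκ : Thick κ} {a : ℝ × ℂ} (ha : a ∈ LH)
    {μ : FundamentalGroupoid.mk (pt hκ a) ⟶ FundamentalGroupoid.mk (pt hκ a)}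
    (hμ : PC (fun t => pt hκ (a + t • lat 0 1)) μ) (h1 : q _ _ μ = 1) {b : ℝ × ℂ} (hb : b ∈ LH) (k : ℤ)
    {y : ((core κ)ᶜ : Set N)} {γ : FundamentalGroupoid.mk y ⟶ FundamentalGroupoid.mk y}
    (hγ : PC (fun t => pt hκ (b + t • lat 0 k)) γ) : q _ _ γ = 1 := by
  have key : ∀ k : ℤ, ∀ γ : FundamentalGroupoid.mk (pt hκ a) ⟶ FundamentalGroupoid.mk (pt hκ a),
      PC (fun t => pt hκ (a + t • lat 0 k)) γ → q _ _ γ = 1 := by
    intro k
    induction k using Int.induction_on with
    | zero =>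
      intro γ hγ
      have h2 : PC (fun t => pt hκ (a + t • lat 0 0)) (𝟙 (FundamentalGroupoid.mk (pt hκ a))) := by
        refine (PC.const (pt hκ a)).congr (fun t _ => ?_)
        have : lat 0 0 = 0 := by simp [lat]
        rw [this, smul_zero, add_zero]
      rw [hγ.unique h2, q_one q hq]
    | succ n ih =>
      intro γ hγ
      obtain ⟨δ, hδ⟩ := exists_loop hκ ha 0 n
      have h2 := loop_add ha 0 n 0 1 hδ hμ
      rw [add_zero] at h2
      rw [hγ.unique h2, hq _ (pt hκ a) _, ih δ hδ, h1, one_mul]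
    | pred n ih =>
      intro γ hγ
      obtain ⟨δ, hδ⟩ := exists_loop hκ ha 0 (-n)
      have h2 := loop_add ha 0 (-n - 1) 0 1 hγ hμ
      rw [add_zero, sub_add_cancel] at h2
      have h3 := congrArg (q _ _) (hδ.unique h2)
      rw [hq _ (pt hκ a) _, ih δ hδ, h1, mul_one] at h3
      exact h3.symm
  obtain ⟨δ, hδ⟩ := exists_loop hκ ha 0 k
  have hy : pt hκ b = y := by have := hγ.zero; simpa using this
  subst hy
  obtain ⟨e, he⟩ := exists_line hκ ha hb
  have h2 := congrArg (q _ _) (loop_conj ha hb 0 k hδ hγ he)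
  rw [hq _ (pt hκ a) _, hq _ (pt hκ b) _, key k δ hδ, one_mul] at h2
  exact mul_eq_left.1 h2.symm

end

end Pool.Agent.NHT
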