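import Pool.Agent.NHT.ExtB

/-!
# NHT/Sur: paths can be moved off a subset of codimension two
-/

namespace Pool.Agent.NHT

open Set CategoryTheory unitInterval Topology Filter

universe u

section

variable {X : Type u} [TopologicalSpace X] {Y : Set X}

/-- good neighbourhoods for the surjectivity -/
structure GoodS (Y : Set X) (V : Set X) : Prop where
  opn : IsOpen V
  ne : ∃ y : Y, (y : X) ∈ V
  con : ∀ x y : Y, (x : X) ∈ V → (y : X) ∈ V → ∃ s : Path x y, ∀ t, (s t : X) ∈ V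
  pc : ∀ x ∈ V, ∀ y ∈ V, ∃ s : Path x y, ∀ t, s t ∈ V
  hom : ∀ (x y : X) (s s' : Path x y), (∀ t, s t ∈ V) → (∀ t, s' t ∈ V) → s.Homotopic s'

theorem cl_exact {x y : X} {γ δ : Path x y} (h : cl γ = cl δ) : γ.Homotopic δ := Quotient.exact h

theorem trans_mem {V : Set X} {x y z : X} {s : Path x y} {s' : Path y z} (h : ∀ t, s t ∈ V) (h' : ∀ t, s' t ∈ V) :
    ∀ t, (s.trans s') t ∈ V := by
  intro t
  have h1 : (s.trans s') t ∈ range s ∪ range s' := by
    rw [← Path.trans_range]; exact mem_range_self t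
  rcases h1 with ⟨r, hr⟩ | ⟨r, hr⟩
  · rw [← hr]; exact h r
  · rw [← hr]; exact h' r

theorem incl_trans {x y z : Y} (s : Path x y) (s' : Path y z) : incl (s.trans s') = (incl s).trans (incl s') := by
  rw [incl, incl, incl, Path.map_trans]

/-- accessible classes -/
def Acc (Y : Set X) (a : Y) {x : X} (α : FundamentalGroupoid.mk (a : X) ⟶ FundamentalGroupoid.mk x) : Prop :=
  ∃ (V : Set X) (y : Y) (s : Path a y) (δ : Path (y : X) x), GoodS Y V ∧ (∀ t, δ t ∈ V) ∧ α = cl (incl s) ≫ cl δ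

/-- **Surjectivity.** -/
theorem exists_lift_path (hb : ∀ x : X, ∀ U : Set X, IsOpen U → x ∈ U → ∃ V : Set X, GoodS Y V ∧ x ∈ V ∧ V ⊆ U)
    {a b : Y} (c : Path (a : X) (b : X)) : ∃ s : Path a b, (incl s).Homotopic c := by
  have key : ∀ {x y : X} (γ : Path x y) (α : FundamentalGroupoid.mk (a : X) ⟶ FundamentalGroupoid.mk x),
      Acc Y a α → Acc Y a (α ≫ cl γ) := by
    refine path_ind (fun V : {V : Set X // GoodS Y V} => (V : Set X)) (fun V => V.2.opn) (fun x => ?_)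
      (P := fun {x y} γ => ∀ α : FundamentalGroupoid.mk (a : X) ⟶ FundamentalGroupoid.mk x,
      Acc Y a α → Acc Y a (α ≫ cl γ)) ?_ ?_ ?_
    · obtain ⟨V, h1, h2, -⟩ := hb x univ isOpen_univ (mem_univ x)
      exact ⟨⟨V, h1⟩, h2⟩
    · intro x y z γ δ hγ hδ α hα
      rw [cl_trans, ← Category.assoc]
      exact hδ _ (hγ _ hα)
    · intro x y γ δ h hγ α hα
      rw [← cl_eq h]
      exact hγ α hα
    · rintro x z γ ⟨V₂, hV₂⟩ hγ α ⟨V, y, s, δ, hV, hδ, rfl⟩
      have hγ' : ∀ t, γ t ∈ V₂ := fun t => hγ ⟨t, rfl⟩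
      have hx : x ∈ V := by have := hδ 1; rwa [δ.target] at this
      have hx2 : x ∈ V₂ := by have := hγ' 0; rwa [γ.source] at this
      have hy : (y : X) ∈ V := by have := hδ 0; rwa [δ.source] at this
      obtain ⟨V₃, hV₃, hx3, h3⟩ := hb x (V ∩ V₂) (hV.opn.inter hV₂.opn) ⟨hx, hx2⟩
      obtain ⟨y₃, hy₃⟩ := hV₃.ne
      obtain ⟨s₂, hs₂⟩ := hV.con y y₃ hy (h3 hy₃).1
      obtain ⟨δ₃, hδ₃⟩ := hV₃.pc _ hy₃ x hx3
      have e1 : cl δ = cl (incl s₂) ≫ cl δ₃ := by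
        rw [← cl_trans]
        apply cl_eq
        exact hV.hom _ _ _ _ hδ (trans_mem (s := incl s₂) hs₂ (fun t => (h3 (hδ₃ t)).1))
      refine ⟨V₂, y₃, s.trans s₂, δ₃.trans γ, hV₂, trans_mem (fun t => (h3 (hδ₃ t)).2) hγ', ?_⟩
      rw [e1, incl_trans, cl_trans, cl_trans]
      simp only [Category.assoc]
  have h0 : Acc Y a (𝟙 (FundamentalGroupoid.mk (a : X))) := by
    obtain ⟨V, h1, h2, -⟩ := hb a univ isOpen_univ (mem_univ _)
    refine ⟨V, a, Path.refl a, Path.refl (a : X), h1, fun t => h2, ?_⟩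
    rw [cl_refl, Category.comp_id]
    rfl
  obtain ⟨V, y, s, δ, hV, hδ, h1⟩ := key c _ h0
  rw [Category.id_comp] at h1
  have hy : (y : X) ∈ V := by have := hδ 0; rwa [δ.source] at this
  have hb' : (b : X) ∈ V := by have := hδ 1; rwa [δ.target] at this
  obtain ⟨s₂, hs₂⟩ := hV.con y b hy hb'
  have e1 : cl δ = cl (incl s₂) := cl_eq (hV.hom _ _ _ _ hδ hs₂)
  refine ⟨s.trans s₂, cl_exact ?_⟩
  rw [incl_trans, cl_trans, h1, e1]

end

end Pool.Agent.NHT
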