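import Pool.Agent.NHT.Bas
import Pool.Agent.NHT.Alg

/-!
# NHT/T1: the fundamental group of the complement of a knot and of the 3-manifold

* `compl_path`: the complement of the core is path connected (`N` path connected).
* `exists_path_compl` (Bas): every path of `N` between points of the complement is homotopic to a path of the complement.
* `ker_compl`: a loop of the complement which is null-homotopic in `N` is in the normal closure of the meridian.
* `ker_compl'`: the same for two paths.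
-/

namespace Pool.Agent.NHT

open Set CategoryTheory unitInterval Topology Filter
open scoped Manifold ContDiff
open Pool.Agent.RSG (E3 ex Thick)
open Pool.Agent.NHP (core Rep)
open Pool.Agent.NHQ (PC cc exists_PC)

/-- the class of a loop, as an element of the fundamental group (`fg μ * fg ν` = first `ν`, then `μ`) -/
def fg {X : Type*} [TopologicalSpace X] {x : X} (γ : Path x x) : FundamentalGroup X x := cl γ

/-- an arrow as an element of the fundamental group -/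
def fa {X : Type*} [TopologicalSpace X] {x : X} (α : FundamentalGroupoid.mk x ⟶ FundamentalGroupoid.mk x) :
    FundamentalGroup X x := α

theorem fa_comp {X : Type*} [TopologicalSpace X] {x : X} (α β : FundamentalGroupoid.mk x ⟶ FundamentalGroupoid.mk x) :
    fa (α ≫ β) = fa β * fa α := rfl

theorem fa_inv {X : Type*} [TopologicalSpace X] {x : X} (α : FundamentalGroupoid.mk x ⟶ FundamentalGroupoid.mk x) :
    fa (inv α) = (fa α)⁻¹ := by
  have h : fa (inv α) * fa α = 1 := by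
    rw [← fa_comp, IsIso.hom_inv_id]; rfl
  exact eq_inv_of_mul_eq_one_left h

theorem fg_trans {X : Type*} [TopologicalSpace X] {x : X} (γ δ : Path x x) : fg (γ.trans δ) = fg δ * fg γ := rfl

theorem fg_eq {X : Type*} [TopologicalSpace X] {x : X} {γ δ : Path x x} : fg γ = fg δ ↔ γ.Homotopic δ :=
  ⟨fun h => cl_exact h, fun h => cl_eq h⟩

section

variable {N : Type*} [TopologicalSpace N] [ChartedSpace E3 N] {κ : ℝ × ℂ → N}

theorem compl_path [T2Space N] [PathConnectedSpace N] (hκ : Thick κ) (a b : ((core κ)ᶜ : Set N)) :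
    Nonempty (Path a b) := by
  obtain ⟨c⟩ := PathConnectedSpace.joined (a : N) (b : N)
  obtain ⟨s, -⟩ := exists_path_compl hκ c
  exact ⟨s⟩

theorem pt_real (hκ : Thick κ) {p ρ : ℝ} (h0 : 0 < ρ) (h1 : ρ < 1) : ((p, ((Real.log ρ : ℝ) : ℂ)) : ℝ × ℂ) ∈ LH ∧
    (pt hκ (p, ((Real.log ρ : ℝ) : ℂ)) : N) = κ (p, ρ) := by
  have h2 : Real.log ρ < 0 := Real.log_neg h0 h1
  refine ⟨h2, ?_⟩
  rw [pt_coe hκ (by exact h2)]
  change κ (p, Complex.exp ((Real.log ρ : ℝ) : ℂ)) = κ (p, ρ)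
  rw [← Complex.ofReal_exp, Real.exp_log h0]

theorem exp_lat {ρ : ℝ} (h0 : 0 < ρ) (t : ℝ) (k : ℤ) :
    Complex.exp (((Real.log ρ : ℝ) : ℂ) + t • (2 * Real.pi * k * Complex.I)) = ρ * ex (k * t) := by
  rw [Complex.exp_add, ← Complex.ofReal_exp, Real.exp_log h0]
  unfold ex
  congr 2
  rw [Complex.real_smul]; push_cast; ring

/-- the loops `t ↦ κ (p + j t, ρ ex (k t))` -/
theorem PC_lat (hκ : Thick κ) {p ρ : ℝ} (h0 : 0 < ρ) (h1 : ρ < 1) (j k : ℤ) {r : ((core κ)ᶜ : Set N)} {μ : Path r r}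
    (hμ : Rep (fun t => κ (p + j * t, ρ * ex (k * t))) μ) :
    PC (fun t => pt hκ ((p, ((Real.log ρ : ℝ) : ℂ)) + t • lat j k)) (cl μ) := by
  obtain ⟨γ, hγ, hγμ⟩ := hμ
  refine ⟨γ, fun t => ?_, cl_eq hγμ⟩
  apply Subtype.ext
  rw [hγ, pt_coe hκ (lat_mem (pt_real hκ h0 h1).1 j k t)]
  change _ = κ (p + (t : ℝ) • ((j : ℤ) : ℝ), Complex.exp (((Real.log ρ : ℝ) : ℂ) + (t : ℝ) • (2 * Real.pi * k * Complex.I)))
  rw [exp_lat h0, smul_eq_mul, mul_comm (t : ℝ)]

omit [ChartedSpace E3 N] in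
theorem Rep_mer {p ρ : ℝ} {r : ((core κ)ᶜ : Set N)} {μ : Path r r} (hμ : Rep (fun t => κ (p, ρ * ex t)) μ) :
    Rep (fun t => κ (p + (0 : ℤ) * t, ρ * ex ((1 : ℤ) * t))) μ := by
  simpa using hμ

theorem ex_zero : ex 0 = 1 := by simp [ex]

omit [ChartedSpace E3 N] in
theorem Rep_lon {p ρ : ℝ} {r : ((core κ)ᶜ : Set N)} {μ : Path r r} (hμ : Rep (fun t => κ (p + t, ρ)) μ) :
    Rep (fun t => κ (p + (1 : ℤ) * t, ρ * ex ((0 : ℤ) * t))) μ := by
  simpa [ex_zero] using hμ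

omit [ChartedSpace E3 N] in
theorem rep_base {p ρ : ℝ} (j k : ℤ) {r : ((core κ)ᶜ : Set N)} {μ : Path r r}
    (hμ : Rep (fun t => κ (p + j * t, ρ * ex (k * t))) μ) : (r : N) = κ (p, ρ) := by
  obtain ⟨γ, hγ, -⟩ := hμ
  have := hγ 0
  rw [γ.source] at this
  simpa [ex_zero] using this

/-- the meridian and the longitude commute -/
theorem mer_lon_comm (hκ : Thick κ) {p ρ : ℝ} (h0 : 0 < ρ) (h1 : ρ < 1) {r : ((core κ)ᶜ : Set N)} {μ ν : Path r r}
    (hμ : Rep (fun t => κ (p, ρ * ex t)) μ) (hν : Rep (fun t => κ (p + t, ρ)) ν) :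
    fg ν * fg μ = fg μ * fg ν :=
  loop_comm (pt_real hκ h0 h1).1 0 1 1 0 (PC_lat hκ h0 h1 0 1 (Rep_mer hμ)) (PC_lat hκ h0 h1 1 0 (Rep_lon hν))

variable [T2Space N] [PathConnectedSpace N]

/-- **The kernel.** -/
theorem ker_compl (hκ : Thick κ) {p ρ : ℝ} (h0 : 0 < ρ) (h1 : ρ < 1) {r : ((core κ)ᶜ : Set N)} {μ : Path r r}
    (hμ : Rep (fun t => κ (p, ρ * ex t)) μ) (γ : Path r r) (hγ : (incl γ).Homotopic (Path.refl (r : N))) :
    fg γ ∈ Subgroup.normalClosure {fg μ} := by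
  classical
  let M : Subgroup (FundamentalGroup ((core κ)ᶜ : Set N) r) :=
    Subgroup.normalClosure {fg μ}
  have hMn : M.Normal := Subgroup.normalClosure_normal
  have h2 : ∀ x : ((core κ)ᶜ : Set N), Nonempty (FundamentalGroupoid.mk r ⟶ FundamentalGroupoid.mk x) := by
    intro x
    obtain ⟨s⟩ := compl_path hκ r x
    exact ⟨cl s⟩
  let sg : ∀ x : ((core κ)ᶜ : Set N), (FundamentalGroupoid.mk r ⟶ FundamentalGroupoid.mk x) := fun x => (h2 x).some
  let q : ∀ x y : ((core κ)ᶜ : Set N), (FundamentalGroupoid.mk x ⟶ FundamentalGroupoid.mk y) →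
      (FundamentalGroup ((core κ)ᶜ : Set N) r) ⧸ M := fun x y α =>
    (QuotientGroup.mk' M (fa (sg x ≫ α ≫ inv (sg y))))⁻¹
  have hq : ∀ x y z α β, q x z (α ≫ β) = q x y α * q y z β := by
    intro x y z α β
    have h3 : sg x ≫ (α ≫ β) ≫ inv (sg z) = (sg x ≫ α ≫ inv (sg y)) ≫ (sg y ≫ β ≫ inv (sg z)) := by simp
    change (QuotientGroup.mk' M (fa (sg x ≫ (α ≫ β) ≫ inv (sg z))))⁻¹ =
      (QuotientGroup.mk' M (fa (sg x ≫ α ≫ inv (sg y))))⁻¹ * (QuotientGroup.mk' M (fa (sg y ≫ β ≫ inv (sg z))))⁻¹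
    rw [h3, fa_comp, map_mul, mul_inv_rev]
  -- `q` on the loops at `r`
  have hqr : ∀ g : FundamentalGroupoid.mk r ⟶ FundamentalGroupoid.mk r, q r r g = 1 ↔ fa g ∈ M := by
    intro g
    change (QuotientGroup.mk' M (fa (sg r ≫ g ≫ inv (sg r))))⁻¹ = 1 ↔ _
    rw [fa_comp, fa_comp, fa_inv, inv_eq_one, QuotientGroup.mk'_apply, QuotientGroup.eq_one_iff]
    generalize fa (sg r) = s
    constructor
    · intro h
      have h5 := hMn.conj_mem _ h s
      have h6 : s * (s⁻¹ * fa g * s) * s⁻¹ = fa g := by group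
      rwa [h6] at h5
    · intro h
      have h5 := hMn.conj_mem _ h s⁻¹
      rwa [inv_inv] at h5
  have hμ' := PC_lat hκ h0 h1 0 1 (Rep_mer hμ)
  have hr : pt hκ (p, ((Real.log ρ : ℝ) : ℂ)) = r := by
    have := hμ'.zero
    simpa using this
  subst hr
  have h3 : q _ _ (cl μ) = 1 := (hqr _).2 (Subgroup.subset_normalClosure rfl)
  have h4 := q_eq_of_homotopic hq (base_N hκ hq (pt_real hκ h0 h1).1 hμ' h3) γ (Path.refl _) hγ
  rw [cl_refl, q_one q hq] at h4
  exact (hqr _).1 h4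

/-- **The kernel, for paths.** -/
theorem ker_compl' (hκ : Thick κ) {p ρ : ℝ} (h0 : 0 < ρ) (h1 : ρ < 1) {r r' : ((core κ)ᶜ : Set N)} {μ : Path r r}
    (hμ : Rep (fun t => κ (p, ρ * ex t)) μ) (γ γ' : Path r r') (hγ : (incl γ).Homotopic (incl γ')) :
    fg (γ.trans γ'.symm) ∈ Subgroup.normalClosure {fg μ} := by
  refine ker_compl hκ h0 h1 hμ _ (cl_exact ?_)
  have e : incl (γ'.symm) = (incl γ').symm := by
    ext t; rfl
  rw [incl_trans, e, cl_trans, cl_symm, cl_eq hγ, cl_refl, IsIso.hom_inv_id]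

end

end Pool.Agent.NHT
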