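import Pool.Agent.NHT.Sur
import Pool.Agent.NHT.Lif
import Pool.Agent.NHQ.Sg

/-!
# NHT/Tub: the complement of the core near the core

`pt hκ (l, z) = κ (l, exp z)`, `re z < 0`: a covering of the punctured tube.
-/

namespace Pool.Agent.NHT

open Set CategoryTheory unitInterval Topology Filter
open scoped Manifold ContDiff
open Pool.Agent.RSG (E3 ex Thick)
open Pool.Agent.NHP (core)
open Pool.Agent.NHQ (PC)

section

variable {N : Type*} [TopologicalSpace N] [ChartedSpace E3 N] {κ : ℝ × ℂ → N}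

theorem thick_int (hκ : Thick κ) (l : ℝ) (v : ℂ) (k : ℤ) : κ (l + k, v) = κ (l, v) := by
  induction k using Int.induction_on with
  | zero => simp
  | succ n ih =>
    have h := hκ.per (l + n) v
    push_cast at ih ⊢
    rw [← add_assoc, h, ih]
  | pred n ih =>
    have h := hκ.per (l + (-(n : ℝ) - 1)) v
    push_cast at ih ⊢
    rw [← ih, ← h]
    congr 2
    ring

/-- a continuous local inverse -/
theorem thick_inv (hκ : Thick κ) {a : ℝ × ℂ} (ha : ‖a.2‖ < 1) : ∃ g : N → ℝ × ℂ, ContinuousAt g (κ a) ∧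
    g (κ a) = a ∧ ∀ᶠ y in 𝓝 (κ a), κ (g y) = y := by
  obtain ⟨Φ, haΦ, hΦ⟩ := hκ.loc a.1 a.2 ha
  have hka : κ a = Φ.toPartialEquiv a := hΦ haΦ
  have ht : κ a ∈ Φ.toPartialEquiv.target := by rw [hka]; exact Φ.toPartialEquiv.map_source haΦ
  refine ⟨Φ.toPartialEquiv.symm, ?_, ?_, ?_⟩
  · have h1 := Φ.contMDiffOn_invFun.continuousOn
    exact h1.continuousAt (Φ.open_target.mem_nhds ht)
  · rw [hka]; exact Φ.toPartialEquiv.left_inv haΦ
  · filter_upwards [Φ.open_target.mem_nhds ht] with y hy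
    have h2 := hΦ (Φ.toPartialEquiv.map_target hy)
    have h3 := Φ.toPartialEquiv.right_inv hy
    exact h2.trans h3

theorem thick_cont (hκ : Thick κ) {a : ℝ × ℂ} (ha : ‖a.2‖ < 1) : ContinuousAt κ a :=
  (hκ.loc a.1 a.2 ha).contMDiffAt.continuousAt

theorem thick_mem (hκ : Thick κ) {l : ℝ} {v : ℂ} (hv : ‖v‖ < 1) (h0 : v ≠ 0) : κ (l, v) ∈ (core κ)ᶜ := by
  rintro ⟨l', hl'⟩
  exact h0 (hκ.inj l' 0 l v (by simp) hv hl').1.symm

/-- images of open sets are open -/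
theorem thick_open (hκ : Thick κ) {B : Set (ℝ × ℂ)} (hB : IsOpen B) (h1 : ∀ a ∈ B, ‖a.2‖ < 1) : IsOpen (κ '' B) := by
  rw [isOpen_iff_mem_nhds]
  rintro _ ⟨a, ha, rfl⟩
  obtain ⟨g, hg1, hg2, hg3⟩ := thick_inv hκ (h1 a ha)
  have h2 : ∀ᶠ y in 𝓝 (κ a), g y ∈ B := hg1.eventually (by rw [hg2]; exact hB.mem_nhds ha)
  filter_upwards [h2, hg3] with y hy1 hy2
  exact ⟨g y, hy1, hy2⟩

/-- continuous inverse on a set where `κ` is injective -/
theorem thick_invOn (hκ : Thick κ) {B : Set (ℝ × ℂ)} (hB : IsOpen B) (h1 : ∀ a ∈ B, ‖a.2‖ < 1) (hi : InjOn κ B) :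
    ∃ g : N → ℝ × ℂ, (∀ a ∈ B, g (κ a) = a) ∧ ContinuousOn g (κ '' B) := by
  classical
  have h2 : ∀ y : N, ∃ a : ℝ × ℂ, y ∈ κ '' B → a ∈ B ∧ κ a = y := by
    intro y
    by_cases hy : y ∈ κ '' B
    · obtain ⟨a, ha, hay⟩ := hy
      exact ⟨a, fun _ => ⟨ha, hay⟩⟩
    · exact ⟨0, fun h => absurd h hy⟩
  choose g hg using h2
  have h3 : ∀ a ∈ B, g (κ a) = a := fun a ha =>
    hi (hg _ ⟨a, ha, rfl⟩).1 ha (hg _ ⟨a, ha, rfl⟩).2
  refine ⟨g, h3, ?_⟩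
  rintro _ ⟨a, ha, rfl⟩
  apply ContinuousAt.continuousWithinAt
  obtain ⟨g', hg1, hg2, hg3⟩ := thick_inv hκ (h1 a ha)
  have h4 : ∀ᶠ y in 𝓝 (κ a), g' y ∈ B := hg1.eventually (by rw [hg2]; exact hB.mem_nhds ha)
  have h5 : g =ᶠ[𝓝 (κ a)] g' := by
    filter_upwards [h4, hg3] with y hy1 hy2
    have := h3 (g' y) hy1
    rwa [hy2] at this
  exact hg1.congr h5.symm

/-- the box around `(l, 0)` -/
def Box (l ε : ℝ) : Set (ℝ × ℂ) := Ioo (l - ε) (l + ε) ×ˢ Metric.ball 0 ε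

theorem Box_open (l ε : ℝ) : IsOpen (Box l ε) := isOpen_Ioo.prod Metric.isOpen_ball

theorem Box_convex (l ε : ℝ) : Convex ℝ (Box l ε) := (convex_Ioo _ _).prod (convex_ball _ _)

theorem mem_Box {l ε : ℝ} {a : ℝ × ℂ} : a ∈ Box l ε ↔ (l - ε < a.1 ∧ a.1 < l + ε) ∧ ‖a.2‖ < ε := by
  rw [Box, mem_prod, mem_ball_zero_iff, mem_Ioo]

theorem Box_norm {l ε : ℝ} (hε : ε ≤ 1 / 2) {a : ℝ × ℂ} (ha : a ∈ Box l ε) : ‖a.2‖ < 1 := by
  have := (mem_Box.1 ha).2; linarith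

theorem Box_inj (hκ : Thick κ) {l ε : ℝ} (hε : ε ≤ 1 / 2) : InjOn κ (Box l ε) := by
  rintro ⟨l₁, v₁⟩ h1 ⟨l₂, v₂⟩ h2 h
  have hn1 := Box_norm hε h1
  have hn2 := Box_norm hε h2
  obtain ⟨rfl, m, hm⟩ := hκ.inj _ _ _ _ hn1 hn2 h
  rw [mem_Box] at h1 h2
  have hm0 : m = 0 := by
    have h3 : |((m : ℤ) : ℝ)| < 1 := by
      rw [abs_lt]
      constructor <;> linarith [h1.1.1, h1.1.2, h2.1.1, h2.1.2]
    have h4 : |m| < 1 := by exact_mod_cast h3
    exact Int.abs_lt_one_iff.1 h4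
  rw [hm, hm0]; simp

/-! ## logarithmic coordinates of the punctured tube -/

/-- the point `κ (l, exp z)` -/
noncomputable def pt (hκ : Thick κ) (a : ℝ × ℂ) : ((core κ)ᶜ : Set N) :=
  open Classical in
  if h : a.2.re < 0 then ⟨κ (a.1, Complex.exp a.2), thick_mem hκ (by
    rw [Complex.norm_exp]; exact Real.exp_lt_one_iff.2 h) (Complex.exp_ne_zero _)⟩
  else ⟨κ (0, Complex.exp (-1)), thick_mem hκ (by
    rw [Complex.norm_exp]; exact Real.exp_lt_one_iff.2 (by simp)) (Complex.exp_ne_zero _)⟩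

theorem pt_coe (hκ : Thick κ) {a : ℝ × ℂ} (h : a.2.re < 0) : (pt hκ a : N) = κ (a.1, Complex.exp a.2) := by
  unfold pt; rw [dif_pos h]

theorem exp_lt {z : ℂ} (h : z.re < 0) : ‖Complex.exp z‖ < 1 := by
  rw [Complex.norm_exp]; exact Real.exp_lt_one_iff.2 h

theorem pt_cont (hκ : Thick κ) : ContinuousOn (pt hκ) {a | a.2.re < 0} := by
  have h1 : ContinuousOn (fun a => ((pt hκ a : ((core κ)ᶜ : Set N)) : N)) {a : ℝ × ℂ | a.2.re < 0} := by
    intro a ha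
    have h2 : ContinuousWithinAt (fun a : ℝ × ℂ => κ (a.1, Complex.exp a.2)) {a | a.2.re < 0} a := by
      apply ContinuousAt.continuousWithinAt
      exact ContinuousAt.comp_of_eq (g := κ) (f := fun a : ℝ × ℂ => (a.1, Complex.exp a.2)) (thick_cont hκ (exp_lt ha))
        (by fun_prop) rfl
    exact h2.congr (fun b hb => pt_coe hκ hb) (pt_coe hκ ha)
  exact (Topology.IsInducing.subtypeVal.continuousOn_iff).2 h1

/-- lattice vectors -/
noncomputable def lat (j k : ℤ) : ℝ × ℂ := (j, 2 * Real.pi * k * Complex.I)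

theorem lat_re (j k : ℤ) : (lat j k).2.re = 0 := by
  simp [lat]

theorem lat_add (j k j' k' : ℤ) : lat j k + lat j' k' = lat (j + j') (k + k') := by
  apply Prod.ext
  · simp [lat]
  · simp only [lat, Prod.snd_add]; push_cast; ring

theorem pt_lat (hκ : Thick κ) (a : ℝ × ℂ) (j k : ℤ) : pt hκ (a + lat j k) = pt hκ a := by
  have h1 : (a + lat j k).2.re = a.2.re := by
    rw [Prod.snd_add, Complex.add_re, lat_re, add_zero]
  by_cases h : a.2.re < 0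
  · apply Subtype.ext
    rw [pt_coe hκ h, pt_coe hκ (by rw [h1]; exact h)]
    have h2 : Complex.exp (a + lat j k).2 = Complex.exp a.2 := by
      rw [Prod.snd_add, Complex.exp_eq_exp_iff_exists_int]
      exact ⟨k, by simp only [lat]; ring⟩
    rw [h2]
    exact thick_int hκ a.1 _ j
  · have h2 : ¬ (a + lat j k).2.re < 0 := by rw [h1]; exact h
    unfold pt
    rw [dif_neg h, dif_neg h2]

theorem pt_eq (hκ : Thick κ) {a b : ℝ × ℂ} (ha : a.2.re < 0) (hb : b.2.re < 0) (h : pt hκ a = pt hκ b) :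
    ∃ j k : ℤ, b = a + lat j k := by
  have h1 := congrArg Subtype.val h
  rw [pt_coe hκ ha, pt_coe hκ hb] at h1
  obtain ⟨h2, j, hj⟩ := hκ.inj _ _ _ _ (exp_lt ha) (exp_lt hb) h1
  obtain ⟨k, hk⟩ := Complex.exp_eq_exp_iff_exists_int.1 h2.symm
  refine ⟨j, k, Prod.ext hj ?_⟩
  rw [hk]
  simp only [lat, Prod.snd_add]; ring

theorem exists_pt (hκ : Thick κ) {l : ℝ} {v : ℂ} (hv : ‖v‖ < 1) (h0 : v ≠ 0) :
    ∃ z : ℂ, z.re < 0 ∧ Complex.exp z = v ∧ (pt hκ (l, z) : N) = κ (l, v) := by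
  have h1 : (Complex.log v).re < 0 := by
    rw [Complex.log_re]
    exact Real.log_neg (norm_pos_iff.2 h0) hv
  refine ⟨Complex.log v, h1, Complex.exp_log h0, ?_⟩
  rw [pt_coe hκ h1, Complex.exp_log h0]

end

end Pool.Agent.NHT
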